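import Pool.Agent.Helper250_Alloc.ArrivalDefs

/-!
Flows certify whether the train of ARRIVAL reaches the destination.
-/

set_option autoImplicit false
set_option linter.unusedVariables false
set_option linter.unusedSectionVars false

namespace Pool.Agent.Helper250_Alloc

variable {V : Type} [Fintype V] [DecidableEq V]

/-- arcs into `c` -/
def arcsInto (s : V → Bool → Option V) (c : Option V) : Finset (V × Bool) :=
  Finset.univ.filter (fun a => s a.1 a.2 = c)

/-- the flows obtained from stable allocations -/
structure Flow (s : V → Bool → Option V) (o : V) (α : V × Bool → ℤ) : Prop where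
  nonneg : ∀ a, 0 ≤ α a
  le : ∀ a, α a ≤ 2 ^ Fintype.card V
  bal1 : ∀ u, α (u, true) ≤ α (u, false)
  bal2 : ∀ u, α (u, false) ≤ α (u, true) + 1
  cons : ∀ u, α (u, false) + α (u, true) ≤ ∑ a ∈ arcsInto s (some u), α a + (if u = o then 1 else 0)
  full : ∀ u, α (u, false) + α (u, true) = ∑ a ∈ arcsInto s (some u), α a + (if u = o then 1 else 0)
    ∨ (α (u, false) = 2 ^ Fintype.card V ∧ α (u, true) = 2 ^ Fintype.card V)

/-- number of traversals of an arc -/
def trav (k : V → ℕ) (a : V × Bool) : ℕ := if a.2 then k a.1 / 2 else (k a.1 + 1) / 2

/-- number of departures -/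
def dep (k : V → ℕ) : Option V → ℕ
  | none => 0
  | some u => k u

theorem train_succ (s : V → Bool → Option V) (o : V) (t : ℕ) :
    train s o (t + 1) = trainStep s (train s o t) := by
  simp only [train, Function.iterate_succ_apply']

theorem trav_update (k : V → ℕ) (v : V) (a : V × Bool) :
    trav (Function.update k v (k v + 1)) a =
      trav k a + if a = (v, decide (k v % 2 = 1)) then 1 else 0 := by
  obtain ⟨w, b⟩ := a
  simp only [trav, Prod.mk.injEq]
  by_cases hw : w = v
  · subst hw
    simp only [Function.update_self, true_and]
    cases b with
    | false =>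
      by_cases h : k w % 2 = 1
      · simp [h]; omega
      · simp [h]; omega
    | true =>
      by_cases h : k w % 2 = 1
      · simp [h]; omega
      · simp [h]; omega
  · simp [hw]

theorem dep_update (k : V → ℕ) (v : V) (c : Option V) :
    dep (Function.update k v (k v + 1)) c = dep k c + if c = some v then 1 else 0 := by
  cases c with
  | none => simp [dep]
  | some u =>
    simp only [dep, Option.some.injEq]
    by_cases hu : u = v
    · subst hu; simp
    · simp [hu]

/-- Conservation for the train. -/
theorem train_cons (s : V → Bool → Option V) (o : V) (t : ℕ) (c : Option V) :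
    dep (train s o t).2 c + (if (train s o t).1 = c then 1 else 0) =
      (if c = some o then 1 else 0) + ∑ a ∈ arcsInto s c, trav (train s o t).2 a := by
  induction t with
  | zero =>
    simp only [train, Function.iterate_zero, id]
    have h1 : ∑ a ∈ arcsInto s c, trav (fun _ : V => 0) a = 0 := by
      apply Finset.sum_eq_zero
      intro a _
      simp [trav]
    rw [h1]
    have h2 : dep (fun _ : V => 0) c = 0 := by cases c <;> rfl
    rw [h2]
    by_cases h : some o = c
    · simp [h]
    · have : c ≠ some o := fun h' => h h'.symm
      simp [h, this]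
  | succ t ih =>
    rw [train_succ]
    rcases hst : train s o t with ⟨p, k⟩
    rw [hst] at ih
    cases p with
    | none => exact ih
    | some v =>
      change dep k c + (if some v = c then 1 else 0) =
        (if c = some o then 1 else 0) + ∑ a ∈ arcsInto s c, trav k a at ih
      change dep (Function.update k v (k v + 1)) c +
        (if s v (decide (k v % 2 = 1)) = c then 1 else 0) =
        (if c = some o then 1 else 0) +
          ∑ a ∈ arcsInto s c, trav (Function.update k v (k v + 1)) a
      rw [dep_update]
      simp_rw [trav_update]
      rw [Finset.sum_add_distrib]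
      have h1 : ∑ a ∈ arcsInto s c, (if a = (v, decide (k v % 2 = 1)) then 1 else 0) =
          if s v (decide (k v % 2 = 1)) = c then 1 else 0 := by
        rw [Finset.sum_ite_eq']
        simp only [arcsInto, Finset.mem_filter, Finset.mem_univ, true_and]
      rw [h1]
      by_cases h2 : c = some v
      · have h2' : some v = c := h2.symm
        rw [if_pos h2'] at ih
        rw [if_pos h2]
        by_cases h3 : s v (decide (k v % 2 = 1)) = c
        · rw [if_pos h3]; omega
        · rw [if_neg h3]; omega
      · have h2' : ¬ some v = c := fun h' => h2 h'.symm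
        rw [if_neg h2'] at ih
        rw [if_neg h2]
        by_cases h3 : s v (decide (k v % 2 = 1)) = c
        · rw [if_pos h3]; omega
        · rw [if_neg h3]; omega

theorem sum_trav (k : V → ℕ) : ∑ a, trav k a = ∑ v, k v := by
  rw [Fintype.sum_prod_type]
  refine Finset.sum_congr rfl (fun v _ => ?_)
  rw [Fintype.sum_bool]
  simp only [trav, if_true]
  simp only [Bool.false_eq_true, if_false]
  omega

theorem sum_arcs {s : V → Bool → Option V} (β : V × Bool → ℤ) :
    ∑ a, β a = ∑ a ∈ arcsInto s none, β a + ∑ u, ∑ a ∈ arcsInto s (some u), β a := by
  have h1 : ∑ a, β a = ∑ c : Option V, ∑ a ∈ arcsInto s c, β a := by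
    rw [← Finset.sum_fiberwise_of_maps_to (s := (Finset.univ : Finset (V × Bool)))
      (t := (Finset.univ : Finset (Option V))) (g := fun a => s a.1 a.2)
      (fun a _ => Finset.mem_univ _)]
    rfl
  rw [h1, Fintype.sum_option]

theorem flow_none_le {s : V → Bool → Option V} {o : V} {α : V × Bool → ℤ} (h : Flow s o α) :
    ∑ a ∈ arcsInto s none, α a ≤ 1 := by
  have h1 := sum_arcs (s := s) α
  have h2 : ∑ a, α a = ∑ u, (α (u, false) + α (u, true)) := by
    rw [Fintype.sum_prod_type]
    refine Finset.sum_congr rfl (fun v _ => ?_)
    rw [Fintype.sum_bool]; ring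
  have h3 : ∑ u, (α (u, false) + α (u, true)) ≤
      ∑ u, (∑ a ∈ arcsInto s (some u), α a + (if u = o then 1 else 0)) :=
    Finset.sum_le_sum (fun u _ => h.cons u)
  have h4 : ∑ u : V, (if u = o then (1 : ℤ) else 0) = 1 := by simp
  have h5 : ∑ u, (∑ a ∈ arcsInto s (some u), α a + (if u = o then 1 else 0)) =
      ∑ u, ∑ a ∈ arcsInto s (some u), α a + 1 := by rw [Finset.sum_add_distrib, h4]
  linarith

/-- if one unit arrives, then conservation holds everywhere -/
theorem flow_full {s : V → Bool → Option V} {o : V} {α : V × Bool → ℤ} (h : Flow s o α)
    (h1 : 1 ≤ ∑ a ∈ arcsInto s none, α a) (u : V) :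
    α (u, false) + α (u, true) =
      ∑ a ∈ arcsInto s (some u), α a + (if u = o then 1 else 0) := by
  have h2 := sum_arcs (s := s) α
  have h3 : ∑ a, α a = ∑ u, (α (u, false) + α (u, true)) := by
    rw [Fintype.sum_prod_type]
    refine Finset.sum_congr rfl (fun v _ => ?_)
    rw [Fintype.sum_bool]; ring
  have h4 : ∑ u : V, (if u = o then (1 : ℤ) else 0) = 1 := by simp
  have h5 : ∑ u, ((∑ a ∈ arcsInto s (some u), α a + (if u = o then 1 else 0)) -
      (α (u, false) + α (u, true))) ≤ 0 := by
    rw [Finset.sum_sub_distrib, Finset.sum_add_distrib, h4]
    linarith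
  have h6 : ∀ u ∈ (Finset.univ : Finset V),
      0 ≤ (∑ a ∈ arcsInto s (some u), α a + (if u = o then 1 else 0)) -
        (α (u, false) + α (u, true)) := fun u _ => by have := h.cons u; linarith
  have h7 := (Finset.sum_eq_zero_iff_of_nonneg h6).1 (le_antisymm h5 (Finset.sum_nonneg h6)) u
    (Finset.mem_univ u)
  linarith

theorem trav_le_step {s : V → Bool → Option V} {o : V} {α : V × Bool → ℤ} (h : Flow s o α)
    {t : ℕ} (hdom : ∀ a, (trav (train s o t).2 a : ℤ) ≤ α a)
    (hv : ∀ v, (train s o t).1 = some v →
      (α (v, false) + α (v, true) =
        ∑ a ∈ arcsInto s (some v), α a + (if v = o then 1 else 0)) ∨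
      ((train s o (t + 1)).2 v : ℤ) ≤ 2 ^ Fintype.card V) :
    ∀ a, (trav (train s o (t + 1)).2 a : ℤ) ≤ α a := by
  have hcons := train_cons s o t
  rw [train_succ] at hv ⊢
  rcases hst : train s o t with ⟨p, k⟩
  rw [hst] at hdom hcons hv
  cases p with
  | none => exact hdom
  | some v =>
    intro a
    obtain ⟨w, b⟩ := a
    by_cases hw : w = v
    · subst hw
      have h1 := hcons (some w)
      simp only [dep, if_true] at h1
      have h2 : ((∑ a ∈ arcsInto s (some w), trav k a : ℕ) : ℤ) ≤
          ∑ a ∈ arcsInto s (some w), α a := by
        push_cast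
        exact Finset.sum_le_sum (fun a _ => hdom a)
      have h3 : (k w : ℤ) + 1 ≤ ∑ a ∈ arcsInto s (some w), α a + (if w = o then 1 else 0) := by
        have h4 : ((k w + 1 : ℕ) : ℤ) = (((if some w = some o then 1 else 0) +
          ∑ a ∈ arcsInto s (some w), trav k a : ℕ) : ℤ) := by rw [h1]
        push_cast at h4 h2
        have h5 : (if some w = some o then (1 : ℤ) else 0) = (if w = o then 1 else 0) := by
          simp only [Option.some.injEq]
        rw [h5] at h4
        linarith
      have hb1 := h.bal1 w
      have hb2 := h.bal2 w
      have e : (trainStep s (some w, k)).2 w = k w + 1 := by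
        simp [trainStep]
      rcases h.full w with hf | ⟨hf1, hf2⟩
      · cases b with
        | false =>
          simp only [trav, e, Bool.false_eq_true, if_false]
          push_cast
          omega
        | true =>
          simp only [trav, e, if_true]
          push_cast
          omega
      · rcases hv w rfl with hf | hf
        · cases b with
          | false =>
            simp only [trav, e, Bool.false_eq_true, if_false]
            push_cast
            omega
          | true =>
            simp only [trav, e, if_true]
            push_cast
            omega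
        · rw [e] at hf
          push_cast at hf
          cases b with
          | false =>
            simp only [trav, e, Bool.false_eq_true, if_false]
            rw [hf1]
            push_cast
            omega
          | true =>
            simp only [trav, e, if_true]
            rw [hf2]
            push_cast
            omega
    · have h1 := hdom (w, b)
      have e : (trainStep s (some v, k)).2 w = k w := by
        simp [trainStep, hw]
      simp only [trav, e] at h1 ⊢
      exact h1

theorem sum_dep (s : V → Bool → Option V) (o : V) (t : ℕ)
    (h : ∀ t' < t, (train s o t').1 ≠ none) : ∑ v, (train s o t).2 v = t := by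
  induction t with
  | zero => simp [train]
  | succ t ih =>
    have h1 := ih (fun t' ht' => h t' (by omega))
    have h2 := h t (by omega)
    rw [train_succ]
    rcases hst : train s o t with ⟨p, k⟩
    rw [hst] at h1 h2
    cases p with
    | none => exact absurd rfl h2
    | some v =>
      simp only [trainStep]
      simp only at h1
      rw [← h1]
      have : ∀ w, Function.update k v (k v + 1) w = k w + if w = v then 1 else 0 := by
        intro w
        by_cases hw : w = v
        · subst hw; simp
        · simp [hw]
      simp_rw [this]
      rw [Finset.sum_add_distrib]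
      simp

/-- the number of departures counts the visits -/
theorem dep_eq_card (s : V → Bool → Option V) (o : V) (v : V) (t : ℕ) :
    (train s o t).2 v = ((Finset.range t).filter (fun t' => (train s o t').1 = some v)).card := by
  induction t with
  | zero => rfl
  | succ t ih =>
    rw [Finset.range_add_one, Finset.filter_insert, train_succ]
    rcases hst : train s o t with ⟨p, k⟩
    rw [hst] at ih
    simp only at ih
    cases p with
    | none =>
      simp only [trainStep]
      rw [if_neg (by simp)]
      exact ih
    | some w =>
      simp only [trainStep]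
      by_cases hw : w = v
      · subst hw
        rw [if_pos rfl, Finset.card_insert_of_notMem (by simp)]
        simp [ih]
      · rw [if_neg (by simpa using hw)]
        simp only [Function.update_of_ne (Ne.symm hw)]
        exact ih

/-- the future of the position depends only on the position and the parities -/
theorem periodic (s : V → Bool → Option V) (o : V) {t1 t2 : ℕ}
    (hp : (train s o t1).1 = (train s o t2).1)
    (hk : ∀ v, (train s o t1).2 v % 2 = (train s o t2).2 v % 2) (m : ℕ) :
    (train s o (t1 + m)).1 = (train s o (t2 + m)).1 ∧
      ∀ v, (train s o (t1 + m)).2 v % 2 = (train s o (t2 + m)).2 v % 2 := by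
  induction m with
  | zero => exact ⟨hp, hk⟩
  | succ m ih =>
    obtain ⟨h1, h2⟩ := ih
    rw [← add_assoc, ← add_assoc, train_succ, train_succ]
    rcases hst1 : train s o (t1 + m) with ⟨p1, k1⟩
    rcases hst2 : train s o (t2 + m) with ⟨p2, k2⟩
    rw [hst1, hst2] at h1 h2
    simp only at h1 h2
    subst h1
    cases p1 with
    | none => exact ⟨rfl, h2⟩
    | some v =>
      simp only [trainStep]
      refine ⟨by rw [h2 v], fun w => ?_⟩
      by_cases hw : w = v
      · subst hw
        simp only [Function.update_self]
        have := h2 w
        omega
      · simp only [Function.update_of_ne hw]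
        exact h2 w

/-- before the arrival every vertex is visited at most `2^|V|` times -/
theorem visits_le (s : V → Bool → Option V) (o : V) {T : ℕ} (hT : (train s o T).1 = none)
    (hmin : ∀ t < T, (train s o t).1 ≠ none) (v : V) :
    (train s o T).2 v ≤ 2 ^ Fintype.card V := by
  rw [dep_eq_card]
  set S := (Finset.range T).filter (fun t' => (train s o t').1 = some v) with hS
  set f : ℕ → (V → Bool) := fun t w => decide ((train s o t).2 w % 2 = 1) with hf
  have hinj : Set.InjOn f (S : Set ℕ) := by
    have key : ∀ t1 ∈ S, ∀ t2 ∈ S, t1 < t2 → f t1 ≠ f t2 := by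
      intro t1 h1 t2 h2 hlt heq
      rw [hS, Finset.mem_filter, Finset.mem_range] at h1 h2
      have hk : ∀ w, (train s o t1).2 w % 2 = (train s o t2).2 w % 2 := by
        intro w
        have := congrFun heq w
        simp only [hf, decide_eq_decide] at this
        omega
      have h3 := (periodic s o (by rw [h1.2, h2.2]) hk (T - t2)).1
      have e : t2 + (T - t2) = T := by omega
      rw [e, hT] at h3
      exact hmin (t1 + (T - t2)) (by omega) h3
    intro t1 h1 t2 h2 heq
    rcases lt_trichotomy t1 t2 with h | h | h
    · exact absurd heq (key t1 h1 t2 h2 h)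
    · exact h
    · exact absurd heq.symm (key t2 h2 t1 h1 h)
  have h1 : S.card ≤ (Finset.univ : Finset (V → Bool)).card :=
    Finset.card_le_card_of_injOn f (fun _ _ => Finset.mem_univ _) hinj
  rw [Finset.card_univ, Fintype.card_fun, Fintype.card_bool] at h1
  exact h1

theorem dep_mono (s : V → Bool → Option V) (o : V) (v : V) {t t' : ℕ} (h : t ≤ t') :
    (train s o t).2 v ≤ (train s o t').2 v := by
  rw [dep_eq_card, dep_eq_card]
  apply Finset.card_le_card
  intro a ha
  rw [Finset.mem_filter, Finset.mem_range] at ha ⊢
  exact ⟨by omega, ha.2⟩

/-- **Flows decide ARRIVAL.** -/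
theorem reaches_iff {s : V → Bool → Option V} {o : V} {α : V × Bool → ℤ} (h : Flow s o α) :
    Reaches s o ↔ ∑ a ∈ arcsInto s none, α a = 1 := by
  classical
  constructor
  · intro hr
    set T := Nat.find hr with hTdef
    have hT : (train s o T).1 = none := Nat.find_spec hr
    have hmin : ∀ t < T, (train s o t).1 ≠ none := fun t ht => Nat.find_min hr ht
    have hdom : ∀ t ≤ T, ∀ a, (trav (train s o t).2 a : ℤ) ≤ α a := by
      intro t
      induction t with
      | zero =>
        intro _ a
        have : trav (train s o 0).2 a = 0 := by simp [train, trav]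
        rw [this]
        exact_mod_cast h.nonneg a
      | succ t ih =>
        intro ht
        apply trav_le_step h (ih (by omega))
        intro v _
        right
        have h1 := (dep_mono s o v ht).trans (visits_le s o hT hmin v)
        exact_mod_cast h1
    have h1 := train_cons s o T none
    rw [hT] at h1
    simp only [dep, if_true] at h1
    have h2 : ((∑ a ∈ arcsInto s none, trav (train s o T).2 a : ℕ) : ℤ) ≤
        ∑ a ∈ arcsInto s none, α a := by
      push_cast
      exact Finset.sum_le_sum (fun a _ => hdom T le_rfl a)
    have h3 : ∑ a ∈ arcsInto s none, trav (train s o T).2 a = 1 := by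
      rw [if_neg (by simp)] at h1
      omega
    rw [h3] at h2
    exact le_antisymm (flow_none_le h) (by exact_mod_cast h2)
  · intro h1
    by_contra hcon
    have hne : ∀ t, (train s o t).1 ≠ none := fun t ht => hcon ⟨t, ht⟩
    have hdom : ∀ t, ∀ a, (trav (train s o t).2 a : ℤ) ≤ α a := by
      intro t
      induction t with
      | zero =>
        intro a
        have : trav (train s o 0).2 a = 0 := by simp [train, trav]
        rw [this]
        exact_mod_cast h.nonneg a
      | succ t ih =>
        apply trav_le_step h ih
        intro v _
        left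
        exact flow_full h h1.ge v
    have h2 : ∀ t : ℕ, (t : ℤ) ≤ ∑ a, α a := by
      intro t
      have h3 := sum_dep s o t (fun t' _ => hne t')
      rw [← sum_trav] at h3
      calc (t : ℤ) = ((∑ a, trav (train s o t).2 a : ℕ) : ℤ) := by rw [h3]
        _ = ∑ a, (trav (train s o t).2 a : ℤ) := by push_cast; rfl
        _ ≤ _ := Finset.sum_le_sum (fun a _ => hdom t a)
    have h4 := h2 ((∑ a, α a).toNat + 1)
    push_cast at h4
    have h5 := Int.self_le_toNat (∑ a, α a)
    omega

end Pool.Agent.Helper250_Alloc
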