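import Pool.Agent.Helper250_Alloc.Sep
import Pool.Agent.Helper250_Alloc.Train

/-!
Stable allocations of the two-men instance of a switch graph are flows of the switch graph.
-/

set_option autoImplicit false
set_option linter.unusedVariables false
set_option linter.unusedSectionVars false
set_option linter.unusedSimpArgs false

namespace Pool.Agent.Helper250_Alloc

variable {V : Type} [Fintype V] [DecidableEq V]

/-- data of the first man -/
def phi0 (V : Type) [Fintype V] : Women V → ℤ → ℝ := fun j t => match j with
  | .inl a => (2 * 2 ^ Fintype.card V + 3) * (t : ℝ) - (t : ℝ) ^ 2 - (if a.2 then (t : ℝ) else 0)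
  | .inr _ => (2 * 2 ^ Fintype.card V + 4) * (t : ℝ)

def cap0 (s : V → Bool → Option V) : Women V → ℤ := fun j => match j with
  | .inl _ => 2 ^ Fintype.card V
  | .inr a => if s a.1 a.2 = none then 0 else 2 ^ Fintype.card V

def grp0 (s : V → Bool → Option V) : Women V → Option V := fun j => match j with
  | .inl a => some a.1
  | .inr a => s a.1 a.2

def Q0 (s : V → Bool → Option V) (o : V) : Option V → ℤ := fun c => match c with
  | none => 0
  | some u => 2 ^ Fintype.card V * (Finset.univ.filter (fun a : V × Bool =>
      s a.1 a.2 = some u)).card + (if u = o then 1 else 0)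

theorem arrM_false (s : V → Bool → Option V) (o : V) :
    arrM s o false = sep (phi0 V) (cap0 s) (grp0 s) (Q0 s o) := rfl

/-- data of the second man -/
def phi1 (V : Type) : Women V → ℤ → ℝ := fun j t => match j with
  | .inl _ => 2 * (t : ℝ)
  | .inr _ => (t : ℝ)

def grp1 (V : Type) : Women V → V × Bool := fun j => match j with
  | .inl a => a
  | .inr a => a

theorem arrM_true (s : V → Bool → Option V) (o : V) :
    arrM s o true = sep (phi1 V) (fun _ => 2 ^ Fintype.card V) (grp1 V)
      (fun _ => 2 ^ Fintype.card V) := rfl

/-- data of the women -/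
def phiL : Bool → ℤ → ℝ := fun i t => (if i then 1 else 2) * (t : ℝ)

def phiR : Bool → ℤ → ℝ := fun i t => (if i then 2 else 1) * (t : ℝ)

theorem arrW_inl (a : V × Bool) :
    arrW (V := V) (.inl a) = sep phiL (fun _ => 2 ^ Fintype.card V) (fun _ => ())
      (fun _ => 2 ^ Fintype.card V) := rfl

theorem arrW_inr (a : V × Bool) :
    arrW (V := V) (.inr a) = sep phiR (fun _ => 2 ^ Fintype.card V) (fun _ => ())
      (fun _ => 2 ^ Fintype.card V) := rfl

theorem NN_pos (V : Type) [Fintype V] : (0 : ℤ) < 2 ^ Fintype.card V := by positivity

theorem condA_M (s : V → Bool → Option V) (o : V) (i : Bool) : CondA (arrM s o i) := by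
  have hN := NN_pos V
  cases i with
  | false =>
    rw [arrM_false]
    apply sep_condA
    · intro j
      cases j with
      | inl a => simp only [cap0]; exact hN.le
      | inr a => simp only [cap0]; split_ifs; exacts [le_rfl, hN.le]
    · intro c
      cases c with
      | none => simp only [Q0]; exact le_rfl
      | some u => simp only [Q0]; split_ifs <;> positivity
  | true =>
    rw [arrM_true]
    exact sep_condA (fun _ => hN.le) (fun _ => hN.le)

theorem condA_W (j : Women V) : CondA (arrW j) := by
  have hN := NN_pos V
  cases j with
  | inl a => rw [arrW_inl]; exact sep_condA (fun _ => hN.le) (fun _ => hN.le)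
  | inr a => rw [arrW_inr]; exact sep_condA (fun _ => hN.le) (fun _ => hN.le)

theorem mnat_M (s : V → Bool → Option V) (o : V) (i : Bool) : MNat (arrM s o i) := by
  cases i with
  | false =>
    rw [arrM_false]
    apply sep_mnat
    intro j r t hrt
    have h1 : (r : ℝ) ≤ t := by exact_mod_cast hrt
    cases j with
    | inl a =>
      simp only [phi0]
      push_cast
      split_ifs <;> nlinarith
    | inr a =>
      simp only [phi0]
      push_cast
      linarith
  | true =>
    rw [arrM_true]
    apply sep_mnat
    intro j r t hrt
    cases j with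
    | inl a => simp only [phi1]; push_cast; linarith
    | inr a => simp only [phi1]; push_cast; linarith

theorem mnat_W (j : Women V) : MNat (arrW j) := by
  cases j with
  | inl a =>
    rw [arrW_inl]
    apply sep_mnat
    intro i r t hrt
    simp only [phiL]
    push_cast; linarith
  | inr a =>
    rw [arrW_inr]
    apply sep_mnat
    intro i r t hrt
    simp only [phiR]
    push_cast; linarith

theorem bound_M (s : V → Bool → Option V) (o : V) (i : Bool) (y : Women V → ℤ)
    (hy : arrM s o i y ≠ ⊥) (j : Women V) : y j ≤ ((2 ^ Fintype.card V : ℕ) : ℤ) := by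
  have hN := NN_pos V
  push_cast
  cases i with
  | false =>
    rw [arrM_false, sep_ne_bot] at hy
    refine (hy.1 j).2.trans ?_
    cases j with
    | inl a => simp only [cap0]; exact le_rfl
    | inr a => simp only [cap0]; split_ifs; exacts [hN.le, le_rfl]
  | true =>
    rw [arrM_true, sep_ne_bot] at hy
    exact (hy.1 j).2

theorem csum0 (s : V → Bool → Option V) (y : Women V → ℤ) (u : V) :
    csum (grp0 s) y (some u) = y (.inl (u, false)) + y (.inl (u, true)) +
      ∑ a ∈ arcsInto s (some u), y (.inr a) := by
  classical
  simp only [csum]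
  rw [Fintype.sum_sum_type]
  congr 1
  · rw [Fintype.sum_prod_type, Finset.sum_eq_single u]
    · rw [Fintype.sum_bool]
      simp only [grp0, if_true]
      ring
    · intro v _ hv
      rw [Fintype.sum_bool]
      simp only [grp0, Option.some.injEq, if_neg hv, add_zero]
    · intro h; exact absurd (Finset.mem_univ u) h
  · rw [arcsInto, Finset.sum_filter]
    refine Finset.sum_congr rfl (fun a _ => ?_)
    simp only [grp0]
    by_cases h : s a.1 a.2 = some u <;> simp [h]

theorem csum1 (y : Women V → ℤ) (a : V × Bool) :
    csum (grp1 V) y a = y (.inl a) + y (.inr a) := by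
  classical
  simp only [csum]
  rw [Fintype.sum_sum_type]
  congr 1
  · rw [Finset.sum_eq_single a]
    · exact if_pos rfl
    · intro b _ hb; exact if_neg hb
    · intro h; exact absurd (Finset.mem_univ a) h
  · rw [Finset.sum_eq_single a]
    · exact if_pos rfl
    · intro b _ hb; exact if_neg hb
    · intro h; exact absurd (Finset.mem_univ a) h

theorem csumW (y : Bool → ℤ) : csum (fun _ : Bool => ()) y () = y false + y true := by
  classical
  simp only [csum, if_true]
  rw [Fintype.sum_bool]; ring

/-- the women `inl a` always want more from the first man -/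
theorem want_inl_false {y : Bool → ℤ} (a : V × Bool) (hy : arrW (V := V) (.inl a) y ≠ ⊥)
    (h : y false < 2 ^ Fintype.card V) : Improves (arrW (V := V) (.inl a)) y false := by
  rw [arrW_inl] at hy ⊢
  have hd := sep_ne_bot.1 hy
  have h1 := hd.2 ()
  rw [csumW] at h1
  have h2 := hd.1 true
  by_cases hlt : y false + y true < 2 ^ Fintype.card V
  · apply sep_add hd (by omega) (by rw [csumW]; omega)
    simp only [phiL, phiR]; push_cast; simp
  · apply sep_swap hd (u := false) (v := true) (by simp) rfl (by omega) (by omega)
    simp only [phiL, phiR, Bool.false_eq_true, if_false, if_true]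
    push_cast
    linarith

theorem want_inl_true {y : Bool → ℤ} (a : V × Bool) (hy : arrW (V := V) (.inl a) y ≠ ⊥)
    (h : y false + y true < 2 ^ Fintype.card V) : Improves (arrW (V := V) (.inl a)) y true := by
  rw [arrW_inl] at hy ⊢
  have hd := sep_ne_bot.1 hy
  have h2 := hd.1 false
  apply sep_add hd (by omega) (by rw [csumW]; omega)
  simp only [phiL, phiR]; push_cast; simp

theorem want_inr_true {y : Bool → ℤ} (a : V × Bool) (hy : arrW (V := V) (.inr a) y ≠ ⊥)
    (h : y true < 2 ^ Fintype.card V) : Improves (arrW (V := V) (.inr a)) y true := by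
  rw [arrW_inr] at hy ⊢
  have hd := sep_ne_bot.1 hy
  have h1 := hd.2 ()
  rw [csumW] at h1
  have h2 := hd.1 false
  by_cases hlt : y false + y true < 2 ^ Fintype.card V
  · apply sep_add hd (by omega) (by rw [csumW]; omega)
    simp only [phiL, phiR]; push_cast; simp
  · apply sep_swap hd (u := true) (v := false) (by simp) rfl (by omega) (by omega)
    simp only [phiL, phiR, Bool.false_eq_true, if_false, if_true]
    push_cast
    linarith

theorem want_inr_false {y : Bool → ℤ} (a : V × Bool) (hy : arrW (V := V) (.inr a) y ≠ ⊥)
    (h : y false + y true < 2 ^ Fintype.card V) : Improves (arrW (V := V) (.inr a)) y false := by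
  rw [arrW_inr] at hy ⊢
  have hd := sep_ne_bot.1 hy
  have h2 := hd.1 true
  apply sep_add hd (by omega) (by rw [csumW]; omega)
  simp only [phiL, phiR]; push_cast; simp

theorem sum_inr_lt (s : V → Bool → Option V) {y : Women V → ℤ} {a : V × Bool} {u : V}
    (hs : s a.1 a.2 = some u) (hle : ∀ a, y (.inr a) ≤ 2 ^ Fintype.card V)
    (h : y (.inr a) < 2 ^ Fintype.card V) :
    ∑ a ∈ arcsInto s (some u), y (.inr a) <
      2 ^ Fintype.card V * ((arcsInto s (some u)).card : ℤ) := by
  have h1 : ∑ a ∈ arcsInto s (some u), y (.inr a) <
      ∑ _a ∈ arcsInto s (some u), (2 : ℤ) ^ Fintype.card V := by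
    apply Finset.sum_lt_sum
    · intro b _; exact hle b
    · exact ⟨a, by simp [arcsInto, hs], h⟩
  rw [Finset.sum_const, nsmul_eq_mul] at h1
  linarith [mul_comm ((2 : ℤ) ^ Fintype.card V) ((arcsInto s (some u)).card : ℤ)]

/-- **Stable allocations are flows.** -/
theorem flow_of_stable (s : V → Bool → Option V) (o : V) {x : Bool → Women V → ℤ}
    (hx : Stable (arrM s o) (arrW (V := V)) x) : Flow s o (fun a => x false (.inl a)) := by
  have hN := NN_pos V
  set N : ℤ := 2 ^ Fintype.card V with hNdef
  have hNr : (N : ℝ) = 2 ^ Fintype.card V := by rw [hNdef]; push_cast; rfl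
  have hM0 : SDom (cap0 s) (grp0 s) (Q0 s o) (x false) := by
    have := hx.1.1 false
    rwa [arrM_false, sep_ne_bot] at this
  have hM1 : SDom (fun _ => N) (grp1 V) (fun _ => N) (x true) := by
    have := hx.1.1 true
    rwa [arrM_true, sep_ne_bot] at this
  have hW := hx.1.2
  have hWl : ∀ a : V × Bool, x false (.inl a) + x true (.inl a) ≤ N := by
    intro a
    have h1 := hW (.inl a)
    rw [arrW_inl] at h1
    have h1 := (sep_ne_bot.1 h1).2 ()
    rw [csumW] at h1
    exact h1
  have hWr : ∀ a : V × Bool, x false (.inr a) + x true (.inr a) ≤ N := by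
    intro a
    have h1 := hW (.inr a)
    rw [arrW_inr] at h1
    have h1 := (sep_ne_bot.1 h1).2 ()
    rw [csumW] at h1
    exact h1
  have h0 : ∀ j, 0 ≤ x false j := fun j => (hM0.1 j).1
  have h0' : ∀ j, 0 ≤ x true j := fun j => (hM1.1 j).1
  have hc0 : ∀ a : V × Bool, x false (.inl a) ≤ N := fun a => (hM0.1 (.inl a)).2
  have hg1 : ∀ a : V × Bool, x true (.inl a) + x true (.inr a) ≤ N := by
    intro a
    have := hM1.2 a
    rwa [csum1] at this
  have hg0 : ∀ u, x false (.inl (u, false)) + x false (.inl (u, true)) +
      ∑ a ∈ arcsInto s (some u), x false (.inr a) ≤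
      N * ((arcsInto s (some u)).card : ℤ) + (if u = o then 1 else 0) := by
    intro u
    have := hM0.2 (some u)
    rwa [csum0] at this
  -- step 1: the women `inl a` are full
  have f1 : ∀ a : V × Bool, x false (.inl a) + x true (.inl a) = N := by
    intro a
    by_contra hne
    have hlt : x false (.inl a) + x true (.inl a) < N := lt_of_le_of_ne (hWl a) hne
    refine no_block hx (i := true) (j := .inl a) ?_ (want_inl_true a (hW _) hlt)
    rw [arrM_true]
    have h1 := h0 (.inl a)
    by_cases h2 : x true (.inl a) + x true (.inr a) < N
    · have h3 := h0' (.inr a)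
      apply sep_add hM1 (by omega) (by rw [show grp1 V (.inl a) = a from rfl, csum1]; omega)
      simp only [phi1]; push_cast; linarith
    · apply sep_swap hM1 (u := .inl a) (v := .inr a) (by simp) rfl (by omega) (by omega)
      simp only [phi1]; push_cast; linarith
  -- step 2: the second man is full
  have f2 : ∀ a : V × Bool, x true (.inl a) + x true (.inr a) = N := by
    intro a
    by_contra hne
    have hlt : x true (.inl a) + x true (.inr a) < N := lt_of_le_of_ne (hg1 a) hne
    have h1 := h0' (.inl a)
    refine no_block hx (i := true) (j := .inr a) ?_ (want_inr_true a (hW _) (by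
      change x true (.inr a) < N
      omega))
    rw [arrM_true]
    apply sep_add hM1 (by omega) (by rw [show grp1 V (.inr a) = a from rfl, csum1]; omega)
    simp only [phi1]; push_cast; linarith
  have f3 : ∀ a : V × Bool, x true (.inr a) = x false (.inl a) := by
    intro a; have := f1 a; have := f2 a; omega
  -- step 3: the women `inr a` with an arc to a vertex are full
  have hcapr : ∀ a, x false (.inr a) ≤ N := by
    intro a
    have h1 := hWr a; have h2 := h0' (.inr a)
    omega
  have f4 : ∀ a : V × Bool, ∀ u, s a.1 a.2 = some u →
      x false (.inr a) = N - x false (.inl a) := by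
    intro a u hs
    by_contra hne
    have h1 := hWr a
    rw [f3] at h1
    have hlt : x false (.inr a) + x true (.inr a) < N := by rw [f3]; omega
    have h2 := h0 (.inl a)
    have hltN : x false (.inr a) < N := by omega
    refine no_block hx (i := false) (j := .inr a) ?_ (want_inr_false a (hW _) hlt)
    rw [arrM_false]
    have hgr : grp0 s (.inr a) = some u := hs
    have hcap : cap0 s (.inr a) = N := by
      simp only [cap0, hs]; simp [hNdef]
    have h3 := sum_inr_lt s (y := x false) hs hcapr hltN
    by_cases h4 : csum (grp0 s) (x false) (some u) < Q0 s o (some u)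
    · apply sep_add hM0 (by rw [hcap]; omega) (by rw [hgr]; omega)
      simp only [phi0]
      push_cast
      have : (0 : ℝ) < 2 ^ Fintype.card V := by positivity
      linarith
    · -- one unit can be taken from an outgoing arc
      have h5 : 1 ≤ x false (.inl (u, false)) + x false (.inl (u, true)) := by
        rw [csum0] at h4
        have h6 : Q0 s o (some u) = N * ((arcsInto s (some u)).card : ℤ) +
          (if u = o then 1 else 0) := rfl
        rw [h6] at h4
        have h7 : (0 : ℤ) ≤ if u = o then 1 else 0 := by split_ifs <;> simp
        rw [← hNdef] at h3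
        omega
      have h6 : ∃ b, 1 ≤ x false (.inl (u, b)) := by
        by_contra hcon
        push Not at hcon
        have := hcon false; have := hcon true
        have := h0 (.inl (u, false)); have := h0 (.inl (u, true))
        omega
      obtain ⟨b, hb⟩ := h6
      apply sep_swap hM0 (u := .inr a) (v := .inl (u, b)) (by simp) (by rw [hgr]; rfl)
        (by rw [hcap]; omega) hb
      have hb' : (1 : ℝ) ≤ x false (.inl (u, b)) := by exact_mod_cast hb
      simp only [phi0]
      push_cast
      split_ifs <;> nlinarith
  -- the sums over incoming arcs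
  have f5 : ∀ u, ∑ a ∈ arcsInto s (some u), x false (.inr a) =
      N * ((arcsInto s (some u)).card : ℤ) - ∑ a ∈ arcsInto s (some u), x false (.inl a) := by
    intro u
    have h1 : ∑ a ∈ arcsInto s (some u), x false (.inr a) =
        ∑ a ∈ arcsInto s (some u), (N - x false (.inl a)) := by
      refine Finset.sum_congr rfl (fun a ha => ?_)
      simp only [arcsInto, Finset.mem_filter, Finset.mem_univ, true_and] at ha
      exact f4 a u ha
    rw [h1, Finset.sum_sub_distrib, Finset.sum_const, nsmul_eq_mul]
    ring
  refine ⟨fun a => h0 _, fun a => hc0 a, fun u => ?_, fun u => ?_, fun u => ?_, fun u => ?_⟩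
  · -- `α (u, true) ≤ α (u, false)`
    by_contra hcon
    push Not at hcon
    have h1 := hc0 (u, true)
    refine no_block hx (i := false) (j := .inl (u, false)) ?_ (want_inl_false _ (hW _) (by
      change x false (.inl (u, false)) < N
      omega))
    rw [arrM_false]
    have h2 := h0 (.inl (u, false))
    have hcap : cap0 s (.inl (u, false)) = N := rfl
    apply sep_swap hM0 (u := .inl (u, false)) (v := .inl (u, true)) (by simp) rfl
      (by rw [hcap]; omega) (by omega)
    have h3 : (x false (.inl (u, false)) : ℝ) + 1 ≤ x false (.inl (u, true)) := by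
      exact_mod_cast hcon
    simp only [phi0, Bool.false_eq_true, if_false, if_true]
    push_cast
    nlinarith
  · -- `α (u, false) ≤ α (u, true) + 1`
    by_contra hcon
    push Not at hcon
    have h1 := hc0 (u, false)
    refine no_block hx (i := false) (j := .inl (u, true)) ?_ (want_inl_false _ (hW _) (by
      change x false (.inl (u, true)) < N
      omega))
    rw [arrM_false]
    have h2 := h0 (.inl (u, true))
    have hcap : cap0 s (.inl (u, true)) = N := rfl
    apply sep_swap hM0 (u := .inl (u, true)) (v := .inl (u, false)) (by simp) rfl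
      (by rw [hcap]; omega) (by omega)
    have h3 : (x false (.inl (u, true)) : ℝ) + 2 ≤ x false (.inl (u, false)) := by
      have : x false (.inl (u, true)) + 2 ≤ x false (.inl (u, false)) := by omega
      exact_mod_cast this
    simp only [phi0, Bool.false_eq_true, if_false, if_true]
    push_cast
    nlinarith
  · have h1 := hg0 u
    rw [f5] at h1
    linarith
  · by_cases h1 : x false (.inl (u, false)) + x false (.inl (u, true)) =
        ∑ a ∈ arcsInto s (some u), x false (.inl a) + (if u = o then 1 else 0)
    · left; exact h1
    · right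
      have h2 := hg0 u
      rw [f5] at h2
      have h3 : csum (grp0 s) (x false) (some u) + 1 ≤ Q0 s o (some u) := by
        rw [csum0, f5]
        have h6 : Q0 s o (some u) = N * ((arcsInto s (some u)).card : ℤ) +
          (if u = o then 1 else 0) := rfl
        rw [h6]
        omega
      have h4 : ∀ b, x false (.inl (u, b)) = N := by
        intro b
        by_contra hne
        have h5 := hc0 (u, b)
        refine no_block hx (i := false) (j := .inl (u, b)) ?_ (want_inl_false _ (hW _) (by
          change x false (.inl (u, b)) < N
          omega))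
        rw [arrM_false]
        have hcap : cap0 s (.inl (u, b)) = N := rfl
        apply sep_add hM0 (u := .inl (u, b)) (by rw [hcap]; omega) h3
        have h7 : x false (.inl (u, b)) + 1 ≤ N := by omega
        have h8 : (x false (.inl (u, b)) : ℝ) + 1 ≤ 2 ^ Fintype.card V := by
          rw [← hNr]; exact_mod_cast h7
        simp only [phi0]
        push_cast
        split_ifs <;> nlinarith
      exact ⟨h4 false, h4 true⟩

end Pool.Agent.Helper250_Alloc
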