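import Pool.Agent.Helper250_Alloc.Defs

/-!
The train of the problem ARRIVAL, and an instance of the stable allocation problem with two men.
-/

set_option autoImplicit false

namespace Pool.Agent.Helper250_Alloc

/-- One step of the train in a switch graph. A state is the position of the train (`none` is the
destination) and, for each vertex, the number of departures of the train from it so far. The train
leaves `v` through the successor `s v false` at its first, third, fifth, ... departure from `v`, and
through `s v true` at the second, fourth, ... one. -/
def trainStep {V : Type} [DecidableEq V] (s : V → Bool → Option V) :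
    Option V × (V → ℕ) → Option V × (V → ℕ)
  | (none, k) => (none, k)
  | (some v, k) => (s v (decide (k v % 2 = 1)), Function.update k v (k v + 1))

/-- The state of the train after `t` steps; it starts at `o`. -/
def train {V : Type} [DecidableEq V] (s : V → Bool → Option V) (o : V) (t : ℕ) :
    Option V × (V → ℕ) :=
  (trainStep s)^[t] (some o, fun _ => 0)

/-- The train reaches the destination. -/
def Reaches {V : Type} [DecidableEq V] (s : V → Bool → Option V) (o : V) : Prop :=
  ∃ t, (train s o t).1 = none

open Classical in
/-- A separable value function under upper bounds for the coordinates and one quota for each class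
of a partition: `y ↦ ∑ φ_u(y_u)` if `0 ≤ y ≤ cap` and `∑ {y_u : grp u = c} ≤ Q c` for all classes
`c`, and `-∞` otherwise. -/
noncomputable def sep {U G : Type} [Fintype U] (φ : U → ℤ → ℝ) (cap : U → ℤ) (grp : U → G)
    (Q : G → ℤ) (y : U → ℤ) : WithBot ℝ :=
  if (∀ u, 0 ≤ y u ∧ y u ≤ cap u) ∧ ∀ c, ∑ u, (if grp u = c then y u else 0) ≤ Q c then
    ((∑ u, φ u (y u) : ℝ) : WithBot ℝ)
  else ⊥

/-- The women: two for each arc `(v, i)` of the switch graph. -/
abbrev Women (V : Type) : Type := (V × Bool) ⊕ (V × Bool)

section
variable {V : Type} [Fintype V] [DecidableEq V]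

/-- The value functions of the two men. With `N = 2^|V|`, the first man (`false`) has the value
`∑_a [(2N+4) y(inr a) + (2N+3) y(inl a) - y(inl a)^2 - (y(inl a) if a is a second arc)]` under the
bounds `0 ≤ y ≤ N`, `y(inr a) = 0` for the arcs `a` into the destination, and, for each vertex `u`,
`y(inl (u, false)) + y(inl (u, true)) + ∑ {y(inr a) : a an arc into u} ≤ N * #{arcs into u}`, plus
one if `u = o`. The second man (`true`) has the value `∑_a [2 y(inl a) + y(inr a)]` under the bounds
`0 ≤ y ≤ N` and `y(inl a) + y(inr a) ≤ N` for each arc `a`. -/
noncomputable def arrM (s : V → Bool → Option V) (o : V) : Bool → (Women V → ℤ) → WithBot ℝ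
  | false => sep
      (fun j t => match j with
        | .inl a => (2 * 2 ^ Fintype.card V + 3) * (t : ℝ) - (t : ℝ) ^ 2 - (if a.2 then (t : ℝ) else 0)
        | .inr _ => (2 * 2 ^ Fintype.card V + 4) * (t : ℝ))
      (fun j => match j with
        | .inl _ => 2 ^ Fintype.card V
        | .inr a => if s a.1 a.2 = none then 0 else 2 ^ Fintype.card V)
      (fun j => match j with
        | .inl a => some a.1
        | .inr a => s a.1 a.2)
      (fun c => match c with
        | none => 0
        | some u => 2 ^ Fintype.card V * (Finset.univ.filter (fun a : V × Bool =>
            s a.1 a.2 = some u)).card + (if u = o then 1 else 0))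
  | true => sep
      (fun j t => match j with
        | .inl _ => 2 * (t : ℝ)
        | .inr _ => (t : ℝ))
      (fun _ => 2 ^ Fintype.card V)
      (fun j => match j with
        | .inl a => a
        | .inr a => a)
      (fun _ => 2 ^ Fintype.card V)

/-- The value functions of the women: at most `N = 2^|V|` units in total; the women `inl a` have
value `2 y(false) + y(true)`, the women `inr a` have value `y(false) + 2 y(true)`. -/
noncomputable def arrW : Women V → (Bool → ℤ) → WithBot ℝ
  | .inl _ => sep (fun i t => (if i then 1 else 2) * (t : ℝ)) (fun _ => 2 ^ Fintype.card V)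
      (fun _ => ()) (fun _ => 2 ^ Fintype.card V)
  | .inr _ => sep (fun i t => (if i then 2 else 1) * (t : ℝ)) (fun _ => 2 ^ Fintype.card V)
      (fun _ => ()) (fun _ => 2 ^ Fintype.card V)

end

end Pool.Agent.Helper250_Alloc
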