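import Pool.Agent.Helper250_Alloc.Strategy

/-!
Numerical estimates and the assembly of the algorithm.
-/

set_option autoImplicit false
set_option linter.unusedVariables false
set_option linter.unusedSectionVars false

namespace Pool.Agent.Helper250_Alloc

theorem choiceCost_le {n N l s : ℕ} (hn : n ≤ N) (hs : s ≤ l + 1) :
    choiceCost n (2 ^ s) ≤ 6 * N ^ 2 * (N + 1) ^ 2 * (l + 3) := by
  have h1 : Nat.log 2 (2 ^ s + 1) ≤ s + 1 := by
    have h2 : 2 ^ s + 1 ≤ 2 ^ (s + 1) := by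
      have : 1 ≤ 2 ^ s := Nat.one_le_two_pow
      rw [pow_succ]; omega
    calc Nat.log 2 (2 ^ s + 1) ≤ Nat.log 2 (2 ^ (s + 1)) := Nat.log_mono_right h2
      _ = s + 1 := Nat.log_pow (by norm_num) _
  simp only [choiceCost, roundCost]
  have h3 : 2 * n * (n * (Nat.log 2 (2 ^ s + 1) + 1)) ≤ 2 * N * (N * (l + 3)) := by
    apply Nat.mul_le_mul (Nat.mul_le_mul_left _ hn)
    exact Nat.mul_le_mul hn (by omega)
  have h4 : n + 2 * (n + 1) ^ 2 ≤ 3 * (N + 1) ^ 2 := by nlinarith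
  calc _ ≤ (2 * N * (N * (l + 3))) * (3 * (N + 1) ^ 2) := Nat.mul_le_mul h3 h4
    _ = _ := by ring

theorem evalCost_le {m w N l s : ℕ} (hm : 0 < m) (hw : 0 < w) (hN : N = m * w)
    (hs : s ≤ l + 1) :
    evalCost m w (2 ^ s) ≤ 6 * N ^ 2 * (N + 1) ^ 3 * (l + 3) := by
  have hmN : m ≤ N := by rw [hN]; exact Nat.le_mul_of_pos_right _ hw
  have hwN : w ≤ N := by rw [hN]; exact Nat.le_mul_of_pos_left _ hm
  have hmw : m + w ≤ N + 1 := by rw [hN]; nlinarith
  simp only [evalCost]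
  calc m * choiceCost w (2 ^ s) + w * choiceCost m (2 ^ s)
      ≤ m * (6 * N ^ 2 * (N + 1) ^ 2 * (l + 3)) + w * (6 * N ^ 2 * (N + 1) ^ 2 * (l + 3)) :=
        Nat.add_le_add (Nat.mul_le_mul_left _ (choiceCost_le hwN hs))
          (Nat.mul_le_mul_left _ (choiceCost_le hmN hs))
    _ = (m + w) * (6 * N ^ 2 * (N + 1) ^ 2 * (l + 3)) := by ring
    _ ≤ (N + 1) * (6 * N ^ 2 * (N + 1) ^ 2 * (l + 3)) := Nat.mul_le_mul_right _ hmw
    _ = _ := by ring

theorem stageCost_le {m w N l s : ℕ} (hm : 0 < m) (hw : 0 < w) (hN : N = m * w)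
    (hs : s ≤ l + 1) :
    stageCost m w (2 ^ s) ≤ 162 * (N + 1) ^ 9 * (l + 1) ^ 2 := by
  have hwN : w ≤ N := by rw [hN]; exact Nat.le_mul_of_pos_left _ hm
  have hmN : m ≤ N := by rw [hN]; exact Nat.le_mul_of_pos_right _ hw
  have hN0 : 0 < N := by rw [hN]; positivity
  have h1 : Nat.log 2 (32 * N ^ 2 * (2 ^ s) ^ 2 + 1) + 1 ≤ 2 * N + 2 * l + 8 := by
    have h2 : 32 * N ^ 2 * (2 ^ s) ^ 2 + 1 < 2 ^ (2 * N + 2 * s + 6) := by
      have h3 : N < 2 ^ N := Nat.lt_two_pow_self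
      have h4 : N ^ 2 ≤ (2 ^ N) ^ 2 := Nat.pow_le_pow_left h3.le 2
      have h5 : 1 ≤ (2 ^ N) ^ 2 * (2 ^ s) ^ 2 := Nat.one_le_iff_ne_zero.2 (by positivity)
      calc 32 * N ^ 2 * (2 ^ s) ^ 2 + 1 ≤ 32 * (2 ^ N) ^ 2 * (2 ^ s) ^ 2 + 1 := by
            gcongr
        _ < 64 * ((2 ^ N) ^ 2 * (2 ^ s) ^ 2) := by nlinarith
        _ = 2 ^ (2 * N + 2 * s + 6) := by
            rw [pow_add, pow_add, ← pow_mul, ← pow_mul, mul_comm N 2, mul_comm s 2]
            norm_num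
            ring
    have h6 : Nat.log 2 (32 * N ^ 2 * (2 ^ s) ^ 2 + 1) < 2 * N + 2 * s + 6 :=
      Nat.log_lt_of_lt_pow (by positivity) h2
    omega
  have h7 := evalCost_le hm hw hN hs
  have h8 := choiceCost_le hwN hs
  have e0 : l + 3 ≤ 3 * (l + 1) := by omega
  have hp1 : 1 ≤ (N + 1) := by omega
  simp only [stageCost, fixCost]
  rw [← hN]
  have h9 : (N + 1) * (N * (Nat.log 2 (32 * N ^ 2 * (2 ^ s) ^ 2 + 1) + 1)) + 1 ≤
      8 * (N + 1) ^ 3 * (l + 1) := by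
    calc (N + 1) * (N * (Nat.log 2 (32 * N ^ 2 * (2 ^ s) ^ 2 + 1) + 1)) + 1
        ≤ (N + 1) * (N * (2 * N + 2 * l + 8)) + 1 := by gcongr
      _ ≤ (N + 1) * (N * (2 * N + 2 * l + 8)) + (N + 1) * (2 * N + 2 * l + 8) := by
          gcongr; nlinarith
      _ = (N + 1) ^ 2 * (2 * N + 2 * l + 8) := by ring
      _ ≤ (N + 1) ^ 2 * (8 * (N + 1) * (l + 1)) := by gcongr; nlinarith
      _ = _ := by ring
  have hNN : N ^ 2 ≤ (N + 1) ^ 2 := Nat.pow_le_pow_left (by omega) 2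
  have h10 : (N + 1) * evalCost m w (2 ^ s) ≤ 18 * (N + 1) ^ 6 * (l + 1) := by
    calc (N + 1) * evalCost m w (2 ^ s) ≤ (N + 1) * (6 * N ^ 2 * (N + 1) ^ 3 * (l + 3)) := by
          gcongr
      _ ≤ (N + 1) * (6 * (N + 1) ^ 2 * (N + 1) ^ 3 * (3 * (l + 1))) := by gcongr
      _ = _ := by ring
  have h11 : m * choiceCost w (2 ^ s) ≤ 18 * (N + 1) ^ 9 * (l + 1) ^ 2 := by
    calc m * choiceCost w (2 ^ s) ≤ (N + 1) * (6 * N ^ 2 * (N + 1) ^ 2 * (l + 3)) := by
          gcongr; omega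
      _ ≤ (N + 1) * (6 * (N + 1) ^ 2 * (N + 1) ^ 2 * (3 * (l + 1))) := by gcongr
      _ = 18 * (N + 1) ^ 5 * (l + 1) ^ 1 := by ring
      _ ≤ 18 * (N + 1) ^ 9 * (l + 1) ^ 2 := by
          gcongr <;> omega
  calc ((N + 1) * (N * (Nat.log 2 (32 * N ^ 2 * (2 ^ s) ^ 2 + 1) + 1)) + 1) *
        ((N + 1) * evalCost m w (2 ^ s)) + m * choiceCost w (2 ^ s)
      ≤ (8 * (N + 1) ^ 3 * (l + 1)) * (18 * (N + 1) ^ 6 * (l + 1)) +
        18 * (N + 1) ^ 9 * (l + 1) ^ 2 := by gcongr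
    _ = _ := by ring

section
variable {M W : Type} [Fintype M] [DecidableEq M] [Fintype W] [DecidableEq W]

/-- valid instances -/
def Base (ω : World M W) : Prop :=
  (∀ i, CondA (ω.1 i)) ∧ (∀ i, MNat (ω.1 i)) ∧ (∀ j, CondA (ω.2 j)) ∧ ∀ j, MNat (ω.2 j)

/-- a test point -/
def probe (B : ℕ) (j : W) : W → ℤ := fun j' => if j' = j then (B : ℤ) + 1 else 0

theorem valid_iff {B : ℕ} {ω : World M W} (hb : Base ω) :
    Valid B ω ↔ ∀ i j, ω.1 i (probe B j) = ⊥ := by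
  constructor
  · intro h i j
    by_contra hne
    have := h.2 i _ hne j
    simp [probe] at this
  · intro h
    refine ⟨hb, fun i y hy j => ?_⟩
    by_contra hcon
    push Not at hcon
    refine (hb.1 i).hereditary y (probe B j) hy ?_ ?_ (h i j)
    · intro k
      change 0 ≤ probe B j k
      simp only [probe]; split_ifs
      · positivity
      · exact le_rfl
    · intro k
      change probe B j k ≤ y k
      simp only [probe]
      split_ifs with hk
      · subst hk; omega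
      · exact (hb.1 i).nonneg y hy k

variable [Nonempty M] [Nonempty W]

theorem can_test (B : ℕ) : Can (ansW (M := M) (W := W)) Base
    (Fintype.card M * Fintype.card W) (fun ω b => (b = true ↔ Valid B ω)) := by
  have h1 := Can.all (ans := ansW (M := M) (W := W)) (P := Base) (c := 1) (ι := M × W)
    (S := fun p ω b => (b = true ↔ ω.1 p.1 (probe B p.2) = ⊥))
    (fun p => can_mem (g := fun ω : World M W => ω.1 p.1) (cmpM p.1) (fun ω h => h.1 p.1) _)
  rw [Fintype.card_prod, mul_one] at h1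
  classical
  refine Can.map (fun r : M × W → Bool => decide (∀ p, r p = true)) h1 ?_
  intro ω r hb hr
  rw [valid_iff hb, decide_eq_true_iff]
  constructor
  · intro h i j; exact (hr (i, j)).1 (h (i, j))
  · intro h p; exact (hr p).2 (h p.1 p.2)

theorem main_nonempty : ∃ A : Algorithm M W,
    ∀ (ω : World M W), Base ω → ∀ L : ℕ, (∀ i y, ω.1 i y ≠ ⊥ → ∀ j, y j ≤ (L : ℤ)) →
      ∃ t ≤ 200 * (Fintype.card M * Fintype.card W + 1) ^ 9 * (Nat.log 2 L + 1) ^ 2,
        ∃ x, A.run (ansW ω) t [] = some x ∧ Stable ω.1 ω.2 x := by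
  classical
  set m := Fintype.card M with hm
  set w := Fintype.card W with hw
  have hm0 : 0 < m := Fintype.card_pos
  have hw0 : 0 < w := Fintype.card_pos
  have h1 : ∀ s : ℕ, Can (ansW (M := M) (W := W)) Base (m * w)
    (fun ω b => (b = true ↔ Valid (2 ^ s) ω)) := fun s => can_test (2 ^ s)
  have h2 : ∀ s : ℕ, Can (ansW (M := M) (W := W)) (Valid (2 ^ s)) (stageCost m w (2 ^ s))
    (fun ω x => Stable ω.1 ω.2 x) := fun s => can_stable (Nat.pos_of_ne_zero (by positivity))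
  choose T1 hT1 using h1
  choose T2 hT2 using h2
  set q0 : Query M W := Query.man (Classical.arbitrary M) 0 0 with hq0
  set st : ℕ → Stage M W := fun s => (q0, fun _ => (T1 s).bind (fun b =>
    if b = true then (T2 s).bind (fun x => .ret (some x)) else .ret none)) with hst
  refine ⟨chain st, fun ω hb L hL => ?_⟩
  set l := Nat.log 2 L with hl
  have hex : ∃ s, Valid (2 ^ s) ω := by
    refine ⟨l + 1, hb, fun i y hy j => ?_⟩
    have h3 := hL i y hy j
    have h4 : L < 2 ^ (l + 1) := Nat.lt_pow_succ_log_self (by norm_num) L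
    have h5 : (L : ℤ) < ((2 ^ (l + 1) : ℕ) : ℤ) := by exact_mod_cast h4
    omega
  have hs0 : Nat.find hex ≤ l + 1 := by
    apply Nat.find_min'
    refine ⟨hb, fun i y hy j => ?_⟩
    have h3 := hL i y hy j
    have h4 : L < 2 ^ (l + 1) := Nat.lt_pow_succ_log_self (by norm_num) L
    have h5 : (L : ℤ) < ((2 ^ (l + 1) : ℕ) : ℤ) := by exact_mod_cast h4
    omega
  have hvalid := Nat.find_spec hex
  have hmin : ∀ s < Nat.find hex, ¬ Valid (2 ^ s) ω := fun s hs => Nat.find_min hex hs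
  set s0 := Nat.find hex with hs0def
  -- failing stages
  have hfail : ∀ s < s0, (st s).tree.eval (ansW ω) = none ∧
      (st s).tree.cost (ansW ω) ≤ m * w + 1 := by
    intro s hs
    obtain ⟨h3, h4⟩ := hT1 s ω hb
    have h5 : ¬ (T1 s).eval (ansW ω) = true := fun h => hmin s hs (h3.1 h)
    constructor
    · simp only [hst, Stage.tree, Tree.eval]
      rw [Tree.eval_bind, if_neg h5]
      rfl
    · simp only [hst, Stage.tree, Tree.cost]
      rw [Tree.cost_bind, if_neg h5]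
      simp only [Tree.cost]
      omega
  have hgood : ∃ x, (st s0).tree.eval (ansW ω) = some x ∧ Stable ω.1 ω.2 x ∧
      (st s0).tree.cost (ansW ω) ≤ m * w + stageCost m w (2 ^ s0) + 1 := by
    obtain ⟨h3, h4⟩ := hT1 s0 ω hb
    obtain ⟨h6, h7⟩ := hT2 s0 ω hvalid
    have h5 : (T1 s0).eval (ansW ω) = true := h3.2 hvalid
    refine ⟨(T2 s0).eval (ansW ω), ?_, h6, ?_⟩
    · simp only [hst, Stage.tree, Tree.eval]
      rw [Tree.eval_bind, if_pos h5, Tree.eval_bind]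
      rfl
    · simp only [hst, Stage.tree, Tree.cost]
      rw [Tree.cost_bind, if_pos h5, Tree.cost_bind]
      simp only [Tree.cost]
      omega
  obtain ⟨x, hx, hstab, hcost⟩ := hgood
  refine ⟨∑ s ∈ Finset.range (s0 + 1), (st s).tree.cost (ansW ω), ?_, x,
    run_chain st (ansW ω) s0 (fun s hs => (hfail s hs).1) hx, hstab⟩
  rw [Finset.sum_range_succ]
  have h8 : ∑ s ∈ Finset.range s0, (st s).tree.cost (ansW ω) ≤ s0 * (m * w + 1) := by
    have := Finset.sum_le_card_nsmul (Finset.range s0)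
      (fun s => (st s).tree.cost (ansW ω)) (m * w + 1)
      (fun s hs => (hfail s (Finset.mem_range.1 hs)).2)
    simpa using this
  have h9 := stageCost_le hm0 hw0 (rfl : m * w = m * w) hs0
  set N := m * w with hN
  have h10 : s0 * (N + 1) ≤ (l + 1) * (N + 1) := Nat.mul_le_mul_right _ hs0
  have h11 : (l + 1) * (N + 1) ≤ (N + 1) ^ 9 * (l + 1) ^ 2 := by
    calc (l + 1) * (N + 1) = (N + 1) ^ 1 * (l + 1) ^ 1 := by ring
      _ ≤ (N + 1) ^ 9 * (l + 1) ^ 2 := by gcongr <;> omega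
  have h12 : N + 1 ≤ (N + 1) ^ 9 * (l + 1) ^ 2 := by
    calc N + 1 = (N + 1) ^ 1 * 1 := by ring
      _ ≤ (N + 1) ^ 9 * (l + 1) ^ 2 := by
        apply Nat.mul_le_mul
        · gcongr <;> omega
        · exact Nat.one_le_pow _ _ (by omega)
  calc ∑ s ∈ Finset.range s0, (st s).tree.cost (ansW ω) + (st s0).tree.cost (ansW ω)
      ≤ s0 * (N + 1) + (N + stageCost m w (2 ^ s0) + 1) := Nat.add_le_add h8 hcost
    _ ≤ (N + 1) ^ 9 * (l + 1) ^ 2 + ((N + 1) ^ 9 * (l + 1) ^ 2 +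
          162 * (N + 1) ^ 9 * (l + 1) ^ 2) := by omega
    _ ≤ 200 * (N + 1) ^ 9 * (l + 1) ^ 2 := by
        have : 0 ≤ (N + 1) ^ 9 * (l + 1) ^ 2 := Nat.zero_le _
        nlinarith

end

end Pool.Agent.Helper250_Alloc
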