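import Pool.Agent.Helper133.Brouwer

/-!
Center points for the `l₁` norm (via the fixed point theorem of Brouwer, partitions of unity and
the theorem of Carathéodory).
-/

set_option autoImplicit false
set_option linter.unusedVariables false
set_option linter.unusedSectionVars false

namespace Pool.Agent.Helper250_Alloc

variable {ι : Type} [Fintype ι]

/-- the `l₁` distance -/
def d1 (x y : ι → ℝ) : ℝ := ∑ i, |x i - y i|

theorem d1_nonneg (x y : ι → ℝ) : 0 ≤ d1 x y := Finset.sum_nonneg (fun i _ => abs_nonneg _)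

theorem d1_comm (x y : ι → ℝ) : d1 x y = d1 y x := by
  simp only [d1]; exact Finset.sum_congr rfl (fun i _ => abs_sub_comm _ _)

theorem d1_triangle (x y z : ι → ℝ) : d1 x z ≤ d1 x y + d1 y z := by
  simp only [d1]
  rw [← Finset.sum_add_distrib]
  exact Finset.sum_le_sum (fun i _ => abs_sub_le _ _ _)

theorem continuous_d1 (x : ι → ℝ) : Continuous (fun y => d1 x y) := by
  unfold d1
  fun_prop

/-- clamping a point to the cube `[0, B]^ι` -/
def clamp (B : ℝ) (x : ι → ℝ) : ι → ℝ := fun i => max 0 (min B (x i))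

theorem clamp_mem {B : ℝ} (hB : 0 ≤ B) (x : ι → ℝ) :
    clamp B x ∈ Set.Icc (0 : ι → ℝ) (fun _ => B) :=
  ⟨fun i => le_max_left _ _, fun i => max_le hB (min_le_left _ _)⟩

theorem clamp_of_mem {B : ℝ} {x : ι → ℝ} (h : x ∈ Set.Icc (0 : ι → ℝ) (fun _ => B)) :
    clamp B x = x := by
  funext i
  have h1 : 0 ≤ x i := h.1 i
  have h2 : x i ≤ B := h.2 i
  simp only [clamp]
  rw [min_eq_right h2, max_eq_right h1]

theorem continuous_clamp (B : ℝ) : Continuous (clamp B : (ι → ℝ) → (ι → ℝ)) := by
  unfold clamp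
  fun_prop

/-- Brouwer for the cube. -/
theorem brouwer_cube (B : ℝ) (hB : 0 ≤ B) (f : (ι → ℝ) → (ι → ℝ))
    (hf : ContinuousOn f (Set.Icc (0 : ι → ℝ) (fun _ => B)))
    (hm : ∀ x ∈ Set.Icc (0 : ι → ℝ) (fun _ => B), f x ∈ Set.Icc (0 : ι → ℝ) (fun _ => B)) :
    ∃ x ∈ Set.Icc (0 : ι → ℝ) (fun _ => B), f x = x := by
  obtain ⟨x, hx⟩ := Pool.Agent.Helper133.Brouwer.brouwer (fun x => f (clamp B x))
    (hf.comp_continuous (continuous_clamp B) (fun x => clamp_mem hB x)) B (by
      intro x
      rw [pi_norm_le_iff_of_nonneg hB]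
      intro i
      obtain ⟨h1, h2⟩ := hm _ (clamp_mem hB x)
      rw [Real.norm_eq_abs, abs_le]
      have h3 : 0 ≤ f (clamp B x) i := h1 i
      exact ⟨by linarith, h2 i⟩)
  have hx' : f (clamp B x) = x := hx
  have hmem : x ∈ Set.Icc (0 : ι → ℝ) (fun _ => B) := by
    rw [← hx']; exact hm _ (clamp_mem hB x)
  rw [clamp_of_mem hmem] at hx'
  exact ⟨x, hmem, hx'⟩

open Classical in
/-- **The `l₁` center point theorem.** -/
theorem centerpoint (B : ℝ) (hB : 0 ≤ B) (K : Finset (ι → ℝ)) (hK : K.Nonempty) :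
    ∃ x ∈ Set.Icc (0 : ι → ℝ) (fun _ => B), ∀ g ∈ Set.Icc (0 : ι → ℝ) (fun _ => B),
      (Fintype.card ι + 1) * (K.filter (fun z => d1 z g < d1 z x)).card ≤
        Fintype.card ι * K.card := by
  by_contra hcon
  push Not at hcon
  set C : Set (ι → ℝ) := Set.Icc (0 : ι → ℝ) (fun _ => B) with hC
  set n := Fintype.card ι with hn
  -- the set of bad directions at `x`
  set T : C → Set (ι → ℝ) := fun x => {g | g ∈ C ∧
    n * K.card < (n + 1) * (K.filter (fun z => d1 z g < d1 z x)).card} with hT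
  have hloc : ∀ x : C, ∃ c : ι → ℝ, ∀ᶠ y in nhds x, c ∈ convexHull ℝ (T y) := by
    intro x
    obtain ⟨g, hg, hlt⟩ := hcon x x.2
    refine ⟨g, ?_⟩
    have h1 : ∀ᶠ y : C in nhds x, ∀ z ∈ K.filter (fun z => d1 z g < d1 z x),
        d1 z g < d1 z y := by
      rw [Filter.eventually_all_finset]
      intro z hz
      have hz2 := (Finset.mem_filter.1 hz).2
      have hcont : Continuous (fun y : C => d1 z (y : ι → ℝ)) :=
        (continuous_d1 z).comp continuous_subtype_val
      exact (hcont.tendsto x).eventually (eventually_gt_nhds hz2)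
    filter_upwards [h1] with y hy
    apply subset_convexHull
    refine ⟨hg, lt_of_lt_of_le hlt (Nat.mul_le_mul_left _ (Finset.card_le_card ?_))⟩
    intro z hz
    rw [Finset.mem_filter]
    exact ⟨(Finset.mem_filter.1 hz).1, hy z hz⟩
  obtain ⟨f, hf⟩ := exists_continuous_forall_mem_convex_of_local_const
    (t := fun x : C => convexHull ℝ (T x)) (fun x => convex_convexHull ℝ _) hloc
  have hfC : ∀ x, f x ∈ C := fun x =>
    convexHull_min (fun g hg => hg.1) (convex_Icc _ _) (hf x)
  -- a fixed point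
  obtain ⟨x, hx, hfx⟩ := brouwer_cube B hB (fun x => f ⟨clamp B x, clamp_mem hB x⟩)
    (Continuous.continuousOn (f.continuous.comp
      (Continuous.subtype_mk (continuous_clamp B) _))) (fun x _ => hfC _)
  have e1 : (⟨clamp B x, clamp_mem hB x⟩ : C) = ⟨x, hx⟩ := Subtype.ext (clamp_of_mem hx)
  have hfx' : f ⟨x, hx⟩ = x := by rw [← e1]; exact hfx
  have hmem := hf ⟨x, hx⟩
  rw [hfx'] at hmem
  obtain ⟨κ, hκ, p, w, hp, hai, hw0, hw1, hsum⟩ := eq_pos_convex_span_of_mem_convexHull hmem
  have hcard : Fintype.card κ ≤ n + 1 := by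
    have := hai.card_le_finrank_succ
    refine this.trans ?_
    have h2 : Module.finrank ℝ (vectorSpan ℝ (Set.range p)) ≤ Module.finrank ℝ (ι → ℝ) :=
      Submodule.finrank_le _
    rw [Module.finrank_fintype_fun_eq_card] at h2
    omega
  -- a common point
  have hcommon : ∃ z ∈ K, ∀ j, d1 z (p j) < d1 z x := by
    by_contra hno
    push Not at hno
    have h1 : K ⊆ Finset.univ.biUnion (fun j => K.filter (fun z => ¬ d1 z (p j) < d1 z x)) := by
      intro z hz
      obtain ⟨j, hj⟩ := hno z hz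
      rw [Finset.mem_biUnion]
      exact ⟨j, Finset.mem_univ _, Finset.mem_filter.2 ⟨hz, not_lt.2 hj⟩⟩
    have h2 := (Finset.card_le_card h1).trans Finset.card_biUnion_le
    have h3 : ∀ j, (n + 1) * (K.filter (fun z => ¬ d1 z (p j) < d1 z x)).card < K.card := by
      intro j
      have h4 : p j ∈ T ⟨x, hx⟩ := hp (Set.mem_range_self j)
      have h5 : n * K.card < (n + 1) * (K.filter (fun z => d1 z (p j) < d1 z x)).card := h4.2
      have h6 := Finset.card_filter_add_card_filter_not (s := K)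
        (fun z => d1 z (p j) < d1 z x)
      nlinarith
    have h4 : (n + 1) * K.card ≤ ∑ j, (n + 1) *
        (K.filter (fun z => ¬ d1 z (p j) < d1 z x)).card := by
      rw [← Finset.mul_sum]; exact Nat.mul_le_mul_left _ h2
    have hne : (Finset.univ : Finset κ).Nonempty := by
      rw [Finset.univ_nonempty_iff]
      by_contra hemp
      rw [not_nonempty_iff] at hemp
      simp at hw1
    have h5 : ∑ j, (n + 1) * (K.filter (fun z => ¬ d1 z (p j) < d1 z x)).card <
        ∑ j : κ, K.card := Finset.sum_lt_sum_of_nonempty hne (fun j _ => h3 j)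
    rw [Finset.sum_const, Finset.card_univ, smul_eq_mul] at h5
    have h6 : Fintype.card κ * K.card ≤ (n + 1) * K.card := Nat.mul_le_mul_right _ hcard
    omega
  obtain ⟨z, hz, hzj⟩ := hcommon
  -- convexity
  have hconv : d1 z x ≤ ∑ j, w j * d1 z (p j) := by
    have h1 : ∀ i, |z i - x i| ≤ ∑ j, w j * |z i - p j i| := by
      intro i
      have h2 : z i - x i = ∑ j, w j * (z i - p j i) := by
        have h3 : x i = ∑ j, w j * p j i := by
          have := congrFun hsum i
          rw [Finset.sum_apply] at this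
          simpa [smul_eq_mul] using this.symm
        simp_rw [mul_sub]
        rw [Finset.sum_sub_distrib, ← Finset.sum_mul, hw1, one_mul, h3]
      rw [h2]
      refine (Finset.abs_sum_le_sum_abs _ _).trans (Finset.sum_le_sum (fun j _ => ?_))
      rw [abs_mul, abs_of_pos (hw0 j)]
    calc d1 z x = ∑ i, |z i - x i| := rfl
      _ ≤ ∑ i, ∑ j, w j * |z i - p j i| := Finset.sum_le_sum (fun i _ => h1 i)
      _ = ∑ j, ∑ i, w j * |z i - p j i| := Finset.sum_comm
      _ = ∑ j, w j * d1 z (p j) := by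
        refine Finset.sum_congr rfl (fun j _ => ?_)
        rw [← Finset.mul_sum]; rfl
  have hlt : ∑ j, w j * d1 z (p j) < ∑ j, w j * d1 z x := by
    have hne : (Finset.univ : Finset κ).Nonempty := by
      rw [Finset.univ_nonempty_iff]
      by_contra hemp
      rw [not_nonempty_iff] at hemp
      simp at hw1
    exact Finset.sum_lt_sum_of_nonempty hne (fun j _ => mul_lt_mul_of_pos_left (hzj j) (hw0 j))
  rw [← Finset.sum_mul, hw1, one_mul] at hlt
  linarith

end Pool.Agent.Helper250_Alloc
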