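import Pool.Agent.Helper250_Alloc.MNat

/-!
The augmentation property of the domain, central points, and the maximizer cut property.
-/

set_option autoImplicit false
set_option linter.unusedVariables false
set_option linter.unusedSectionVars false

namespace Pool.Agent.Helper250_Alloc

variable {V : Type} [Fintype V] [DecidableEq V]

theorem exch_dom {g : (V → ℤ) → WithBot ℝ} {x y r s : V → ℤ} (hx : g x ≠ ⊥) (hy : g y ≠ ⊥)
    (h : g x + g y ≤ g r + g s) : g r ≠ ⊥ ∧ g s ≠ ⊥ := by
  have hrs : g r + g s ≠ ⊥ := by
    intro h0
    rw [h0, le_bot_iff, WithBot.add_eq_bot] at h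
    rcases h with h | h
    · exact hx h
    · exact hy h
  rw [Ne, WithBot.add_eq_bot, not_or] at hrs
  exact hrs

/-- The augmentation property. -/
theorem augment {g : (V → ℤ) → WithBot ℝ} (hM : MNat g) : ∀ (N : ℕ) (x y : V → ℤ),
    g x ≠ ⊥ → g y ≠ ⊥ → ∑ w, |x w - y w| ≤ N → ∑ w, y w < ∑ w, x w →
    ∃ u, y u < x u ∧ g (y + unit (some u)) ≠ ⊥ := by
  intro N
  induction N with
  | zero =>
    intro x y hx hy hN hlt
    exfalso
    have h1 : ∑ w, (x w - y w) ≤ ∑ w, |x w - y w| := Finset.sum_le_sum (fun w _ => le_abs_self _)
    rw [Finset.sum_sub_distrib] at h1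
    simp only [Nat.cast_zero] at hN
    omega
  | succ N ih =>
    intro x y hx hy hN hlt
    obtain ⟨u, -, hu⟩ := Finset.exists_lt_of_sum_lt hlt
    obtain ⟨v, hv, hex⟩ := hM x y hx hy u hu
    obtain ⟨h1, h2⟩ := exch_dom hx hy hex
    cases v with
    | none =>
      refine ⟨u, hu, ?_⟩
      rwa [unit_none, sub_zero] at h2
    | some w =>
      have hw : x w < y w := hv w rfl
      have hwu : w ≠ u := by rintro rfl; omega
      set x1 := x - unit (some u) + unit (some w) with hx1
      have e1 : ∀ a, x1 a = x a - (if a = u then 1 else 0) + (if a = w then 1 else 0) := by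
        intro a
        rw [hx1]
        simp only [Pi.add_apply, Pi.sub_apply, unit_apply_some]
      have hsum1 : ∑ a, x1 a = ∑ a, x a := by
        simp_rw [e1]
        rw [Finset.sum_add_distrib, Finset.sum_sub_distrib]
        simp
      have habs : ∑ a, |x1 a - y a| ≤ ∑ a, |x a - y a| - 1 := by
        have h3 : ∀ a, |x1 a - y a| ≤ |x a - y a| - (if a = u then 1 else 0) := by
          intro a
          rw [e1]
          by_cases ha : a = u
          · subst ha
            rw [if_pos rfl, if_neg (Ne.symm hwu)]
            rw [abs_of_nonneg (by omega), abs_of_nonneg (by omega)]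
            omega
          · rw [if_neg ha]
            by_cases haw : a = w
            · subst haw
              rw [if_pos rfl]
              rw [abs_of_nonpos (by omega), abs_of_nonpos (by omega)]
              omega
            · rw [if_neg haw]; simp
        calc ∑ a, |x1 a - y a| ≤ ∑ a, (|x a - y a| - (if a = u then 1 else 0)) :=
              Finset.sum_le_sum (fun a _ => h3 a)
          _ = _ := by rw [Finset.sum_sub_distrib]; simp
      obtain ⟨u', hu', hg⟩ := ih x1 y h1 hy (by push_cast at hN ⊢; omega) (by rw [hsum1]; exact hlt)
      refine ⟨u', ?_, hg⟩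
      rw [e1] at hu'
      by_cases haw : u' = w
      · subst haw
        rw [if_pos rfl, if_neg hwu] at hu'
        omega
      · rw [if_neg haw] at hu'
        split_ifs at hu' <;> omega

theorem augment' {g : (V → ℤ) → WithBot ℝ} (hM : MNat g) {x y : V → ℤ}
    (hx : g x ≠ ⊥) (hy : g y ≠ ⊥) (hlt : ∑ w, y w < ∑ w, x w) :
    ∃ u, y u < x u ∧ g (y + unit (some u)) ≠ ⊥ := by
  refine augment hM (∑ w, |x w - y w|).toNat x y hx hy ?_ hlt
  exact Int.self_le_toNat _

/-- Central points belong to the domain. -/
theorem center_mem {g : (V → ℤ) → WithBot ℝ} (hM : MNat g) {l a : V → ℤ}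
    (hl : g l ≠ ⊥) (ha : 0 ≤ a) (hd : ∀ v, g (l + a v • unit (some v)) ≠ ⊥) (S : Finset V) :
    g (fun v => l v + if v ∈ S then a v / (Fintype.card V : ℤ) else 0) ≠ ⊥ := by
  induction S using Finset.induction_on_max_value a with
  | empty => simpa using hl
  | insert v S hvS hmax ih =>
    have hn : 0 < Fintype.card V := Fintype.card_pos_iff.2 ⟨v⟩
    set n : ℤ := (Fintype.card V : ℤ) with hnn
    have hn' : 0 < n := by rw [hnn]; exact_mod_cast hn
    set p : V → ℤ := fun v => l v + if v ∈ S then a v / n else 0 with hp
    have key1 : ∀ k : ℕ, (k : ℤ) ≤ a v / n → g (p + (k : ℤ) • unit (some v)) ≠ ⊥ := by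
      intro k
      induction k with
      | zero => intro _; simpa using ih
      | succ k ihk =>
        intro hk
        have hk' : (k : ℤ) < a v / n := by push_cast at hk; omega
        have h1 := ihk hk'.le
        set y := p + (k : ℤ) • unit (some v) with hy
        have ey : ∀ w, y w = l w + (if w ∈ S then a w / n else 0) + (if w = v then (k : ℤ) else 0) := by
          intro w
          rw [hy, hp]
          simp only [Pi.add_apply, Pi.smul_apply, unit_apply_some, smul_eq_mul, mul_ite, mul_one,
            mul_zero]
        have ex : ∀ w, (l + a v • unit (some v)) w = l w + (if w = v then a v else 0) := by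
          intro w
          simp only [Pi.add_apply, Pi.smul_apply, unit_apply_some, smul_eq_mul, mul_ite, mul_one,
            mul_zero]
        have hlt : ∑ w, y w < ∑ w, (l + a v • unit (some v)) w := by
          simp_rw [ey, ex]
          rw [Finset.sum_add_distrib, Finset.sum_add_distrib, Finset.sum_add_distrib]
          simp only [Finset.sum_ite_eq', Finset.mem_univ, if_true, Finset.sum_ite_mem,
            Finset.univ_inter]
          have h2 : ∑ w ∈ S, a w / n ≤ S.card * (a v / n) := by
            rw [← nsmul_eq_mul]
            exact Finset.sum_le_card_nsmul _ _ _ (fun w hw => Int.ediv_le_ediv hn' (hmax w hw))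
          have h3 : (S.card : ℤ) + 1 ≤ n := by
            have := Finset.card_le_univ (insert v S)
            rw [Finset.card_insert_of_notMem hvS] at this
            rw [hnn]
            exact_mod_cast this
          have h4 : n * (a v / n) ≤ a v := Int.mul_ediv_self_le hn'.ne'
          have h5 : ((S.card : ℤ) + 1) * (a v / n) ≤ n * (a v / n) :=
            mul_le_mul_of_nonneg_right h3 (by omega)
          nlinarith
        obtain ⟨u, hu, hg⟩ := augment' hM (hd v) h1 hlt
        have huv : u = v := by
          by_contra hne
          rw [ey, ex, if_neg hne, if_neg hne] at hu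
          have : (0 : ℤ) ≤ if u ∈ S then a u / n else 0 := by
            split_ifs
            · exact Int.ediv_nonneg (ha u) hn'.le
            · exact le_rfl
          omega
        subst huv
        have e2 : p + ((k + 1 : ℕ) : ℤ) • unit (some u) = y + unit (some u) := by
          rw [hy]; push_cast; rw [add_smul, one_smul, add_assoc]
        rw [e2]
        exact hg
    have hav : 0 ≤ a v / n := Int.ediv_nonneg (ha v) hn'.le
    have h1 := key1 (a v / n).toNat (by rw [Int.toNat_of_nonneg hav])
    rw [Int.toNat_of_nonneg hav] at h1
    convert h1 using 2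
    funext w
    simp only [hp, Pi.add_apply, Pi.smul_apply, unit_apply_some, smul_eq_mul, mul_ite, mul_one,
      mul_zero, Finset.mem_insert]
    by_cases hw : w = v
    · subst hw
      simp [hvS]
    · simp [hw]

/-- `x₁` is the best point of the box `[l, h]` of the form `x - e_u + e_v`. -/
def LocalBest (g : (V → ℤ) → WithBot ℝ) (l h x x1 : V → ℤ) : Prop :=
  ∀ u v : Option V, l ≤ x - unit u + unit v → x - unit u + unit v ≤ h →
    key g (x - unit u + unit v) ≤ key g x1

theorem opt_of_local {g : (V → ℤ) → WithBot ℝ} (hM : MNat g) {z l h x y : V → ℤ} (hhz : h ≤ z)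
    (hy : IsChoice g z y) (hly : l ≤ y) (hyh : y ≤ h) (hlx : l ≤ x) (hxh : x ≤ h)
    (hgx : g x ≠ ⊥) (hb : LocalBest g l h x x) : x = y := by
  by_contra hne
  have ly : ∀ w, l w ≤ y w := fun w => hly w
  have yh : ∀ w, y w ≤ h w := fun w => hyh w
  have lx : ∀ w, l w ≤ x w := fun w => hlx w
  have xh : ∀ w, x w ≤ h w := fun w => hxh w
  by_cases hex : ∃ u, y u < x u
  · obtain ⟨u, hu⟩ := hex
    obtain ⟨v, hv, hE⟩ := hM x y hgx hy.1 u hu
    have hvu : v ≠ some u := by rintro rfl; have := hv u rfl; omega
    have hA : key g (x - unit (some u) + unit v) ≤ key g x := by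
      apply hb
      · intro w
        change l w ≤ x w - unit (some u) w + unit v w
        have h0 : 0 ≤ unit v w := unit_nonneg v w
        rw [unit_apply_some]
        have := lx w
        by_cases hw : w = u
        · subst hw; rw [if_pos rfl]; have := ly w; omega
        · rw [if_neg hw]; omega
      · intro w
        change x w - unit (some u) w + unit v w ≤ h w
        have h0 : 0 ≤ unit (some u) w := unit_nonneg _ w
        have := xh w
        by_cases hw : v = some w
        · subst hw
          have := hv w rfl
          have := yh w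
          rw [unit_apply_some w w, if_pos rfl]; omega
        · rw [unit_eq_zero hw]; omega
    have hB := key_exchange (by abel : x + y = (x - unit (some u) + unit v) +
      (y + unit (some u) - unit v)) hgx hy.1 hE hA
    have hBz : y + unit (some u) - unit v ≤ z := by
      refine le_trans ?_ hhz
      intro w
      change y w + unit (some u) w - unit v w ≤ h w
      have h0 : 0 ≤ unit v w := unit_nonneg v w
      rw [unit_apply_some]
      have := yh w
      by_cases hw : w = u
      · subst hw; rw [if_pos rfl]; have := xh w; omega
      · rw [if_neg hw]; omega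
    have heq := key_injective g (le_antisymm hB (hy.2.2 _ hBz))
    have := congrFun heq u
    change y u = y u + unit (some u) u - unit v u at this
    rw [unit_apply_some, if_pos rfl, unit_eq_zero hvu] at this
    omega
  · push Not at hex
    have : ∃ u, x u < y u := by
      by_contra hcon
      push Not at hcon
      exact hne (funext fun w => le_antisymm (hex w) (hcon w))
    obtain ⟨u, hu⟩ := this
    obtain ⟨v, hv, hE⟩ := hM y x hy.1 hgx u hu
    have hvn : v = none := by
      cases v with
      | none => rfl
      | some w => have := hv w rfl; have := hex w; omega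
    subst hvn
    rw [unit_none, add_zero, sub_zero] at hE
    have hA : key g (x + unit (some u)) ≤ key g x := by
      have := hb none (some u) (by
        rw [unit_none, sub_zero]
        exact le_add_of_le_of_nonneg hlx (unit_nonneg _)) (by
        rw [unit_none, sub_zero]
        intro w
        change x w + unit (some u) w ≤ h w
        rw [unit_apply_some]
        have := xh w
        have := yh w
        by_cases hw : w = u
        · subst hw; rw [if_pos rfl]; omega
        · rw [if_neg hw]; omega)
      rwa [unit_none, sub_zero] at this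
    have hB := key_exchange (by abel : x + y = (x + unit (some u)) + (y - unit (some u))) hgx hy.1
      (by rw [add_comm (g x), add_comm (g (x + _))]; exact hE) hA
    have hBz : y - unit (some u) ≤ z := (sub_le_self _ (unit_nonneg _)).trans hy.2.1
    have heq := key_injective g (le_antisymm hB (hy.2.2 _ hBz))
    have := congrFun heq u
    change y u = y u - unit (some u) u at this
    rw [unit_apply_some, if_pos rfl] at this
    omega

theorem cut_lower {g : (V → ℤ) → WithBot ℝ} (hM : MNat g) {z l h x y : V → ℤ} {u : Option V}
    {w : V} (hhz : h ≤ z)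
    (hy : IsChoice g z y) (hly : l ≤ y) (hyh : y ≤ h) (hlx : l ≤ x) (hxh : x ≤ h)
    (huw : u ≠ some w) (hg1 : g (x - unit u + unit (some w)) ≠ ⊥)
    (hl1 : l ≤ x - unit u + unit (some w)) (hh1 : x - unit u + unit (some w) ≤ h)
    (hb : LocalBest g l h x (x - unit u + unit (some w))) : x w < y w := by
  by_contra hcon
  push Not at hcon
  have ly : ∀ w, l w ≤ y w := fun w => hly w
  have yh : ∀ w, y w ≤ h w := fun w => hyh w
  have lx : ∀ w, l w ≤ x w := fun w => hlx w
  have xh : ∀ w, x w ≤ h w := fun w => hxh w
  set x1 := x - unit u + unit (some w) with hx1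
  have lx1 : ∀ w, l w ≤ x1 w := fun w => hl1 w
  have x1h : ∀ w, x1 w ≤ h w := fun w => hh1 w
  have ex1 : ∀ a, x1 a = x a - unit u a + (if a = w then 1 else 0) := by
    intro a; rw [hx1]; simp only [Pi.add_apply, Pi.sub_apply, unit_apply_some]
  have hlt : y w < x1 w := by
    rw [ex1, if_pos rfl, unit_eq_zero huw]; omega
  obtain ⟨v, hv, hE⟩ := hM x1 y hg1 hy.1 w hlt
  have hvw : v ≠ some w := by rintro rfl; have := hv w rfl; omega
  have eA : x1 - unit (some w) + unit v = x - unit u + unit v := by rw [hx1]; abel
  rw [eA] at hE
  have hA : key g (x - unit u + unit v) ≤ key g x1 := by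
    apply hb
    · intro a
      change l a ≤ x a - unit u a + unit v a
      have h0 : 0 ≤ unit v a := unit_nonneg v a
      have h1 := lx1 a
      rw [ex1] at h1
      by_cases ha : a = w
      · subst ha
        rw [unit_eq_zero huw]; have := lx a; omega
      · rw [if_neg ha] at h1; omega
    · intro a
      change x a - unit u a + unit v a ≤ h a
      have h0 : 0 ≤ unit u a := unit_nonneg _ a
      have := xh a
      by_cases ha : v = some a
      · subst ha
        have h2 := hv a rfl
        have h3 := yh a
        rw [ex1] at h2
        rw [unit_apply_some a a, if_pos rfl]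
        split_ifs at h2 <;> omega
      · rw [unit_eq_zero ha]; omega
  have hB := key_exchange (by rw [← eA]; abel : x1 + y = (x - unit u + unit v) +
    (y + unit (some w) - unit v)) hg1 hy.1 hE hA
  have hBz : y + unit (some w) - unit v ≤ z := by
    refine le_trans ?_ hhz
    intro a
    change y a + unit (some w) a - unit v a ≤ h a
    have h0 : 0 ≤ unit v a := unit_nonneg v a
    rw [unit_apply_some]
    have := yh a
    by_cases ha : a = w
    · subst ha; rw [if_pos rfl]; have := x1h a; omega
    · rw [if_neg ha]; omega
  have heq := key_injective g (le_antisymm hB (hy.2.2 _ hBz))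
  have := congrFun heq w
  change y w = y w + unit (some w) w - unit v w at this
  rw [unit_apply_some, if_pos rfl, unit_eq_zero hvw] at this
  omega

theorem cut_upper {g : (V → ℤ) → WithBot ℝ} (hM : MNat g) {z l h x y : V → ℤ} {v : Option V}
    {w : V} (hhz : h ≤ z)
    (hy : IsChoice g z y) (hly : l ≤ y) (hyh : y ≤ h) (hlx : l ≤ x) (hxh : x ≤ h)
    (hvw : v ≠ some w) (hg1 : g (x - unit (some w) + unit v) ≠ ⊥)
    (hl1 : l ≤ x - unit (some w) + unit v) (hh1 : x - unit (some w) + unit v ≤ h)
    (hb : LocalBest g l h x (x - unit (some w) + unit v)) : y w < x w := by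
  by_contra hcon
  push Not at hcon
  have ly : ∀ w, l w ≤ y w := fun w => hly w
  have yh : ∀ w, y w ≤ h w := fun w => hyh w
  have lx : ∀ w, l w ≤ x w := fun w => hlx w
  have xh : ∀ w, x w ≤ h w := fun w => hxh w
  set x1 := x - unit (some w) + unit v with hx1
  have lx1 : ∀ w, l w ≤ x1 w := fun w => hl1 w
  have x1h : ∀ w, x1 w ≤ h w := fun w => hh1 w
  have ex1 : ∀ a, x1 a = x a - (if a = w then 1 else 0) + unit v a := by
    intro a; rw [hx1]; simp only [Pi.add_apply, Pi.sub_apply, unit_apply_some]
  have hlt : x1 w < y w := by
    rw [ex1, if_pos rfl, unit_eq_zero hvw]; omega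
  obtain ⟨v', hv', hE⟩ := hM y x1 hy.1 hg1 w hlt
  have hvw' : v' ≠ some w := by rintro rfl; have := hv' w rfl; omega
  have eA : x1 + unit (some w) - unit v' = x - unit v' + unit v := by rw [hx1]; abel
  rw [eA] at hE
  have hA : key g (x - unit v' + unit v) ≤ key g x1 := by
    apply hb
    · intro a
      change l a ≤ x a - unit v' a + unit v a
      have h0 : 0 ≤ unit v a := unit_nonneg v a
      have h1 := lx1 a
      rw [ex1] at h1
      by_cases ha : v' = some a
      · subst ha
        have h2 := hv' a rfl
        have h3 := ly a
        have haw : a ≠ w := by rintro rfl; exact hvw' rfl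
        rw [ex1, if_neg haw] at h2
        rw [unit_apply_some a a, if_pos rfl]; omega
      · rw [unit_eq_zero ha]; have := lx a; omega
    · intro a
      change x a - unit v' a + unit v a ≤ h a
      have h0 : 0 ≤ unit v' a := unit_nonneg _ a
      have h1 := x1h a
      rw [ex1] at h1
      by_cases ha : a = w
      · subst ha
        rw [unit_eq_zero hvw]; have := xh a; omega
      · rw [if_neg ha] at h1; omega
  have hB := key_exchange (by rw [← eA]; abel : x1 + y = (x - unit v' + unit v) +
    (y - unit (some w) + unit v')) hg1 hy.1 (by
      rw [add_comm (g x1), add_comm (g (x - unit v' + unit v))]; exact hE) hA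
  have hBz : y - unit (some w) + unit v' ≤ z := by
    refine le_trans ?_ hhz
    intro a
    change y a - unit (some w) a + unit v' a ≤ h a
    have h0 : 0 ≤ unit (some w) a := unit_nonneg _ a
    have := yh a
    by_cases ha : v' = some a
    · subst ha
      have h2 := hv' a rfl
      have h3 := x1h a
      rw [unit_apply_some a a, if_pos rfl]; omega
    · rw [unit_eq_zero ha]; omega
  have heq := key_injective g (le_antisymm hB (hy.2.2 _ hBz))
  have := congrFun heq w
  change y w = y w - unit (some w) w + unit v' w at this
  rw [unit_apply_some, if_pos rfl, unit_eq_zero hvw'] at this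
  omega

end Pool.Agent.Helper250_Alloc
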