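import Mathlib

/-!
Stable allocations with M-natural-concave value functions: the definitions of the problem, and
adaptive comparison algorithms.
-/

set_option autoImplicit false

namespace Pool.Agent.Helper250_Alloc

/-- The unit vector `e_v` for `some v`, and `e_0 = 0` for `none`. -/
def unit {V : Type} [DecidableEq V] : Option V → (V → ℤ)
  | none => 0
  | some v => Pi.single v 1

/-- Condition (A): the effective domain of `g` is bounded, has `0` as its minimum element, and is
hereditary. (`⊥` stands for `-∞`.) -/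
structure CondA {V : Type} (g : (V → ℤ) → WithBot ℝ) : Prop where
  bounded : ∃ B : ℤ, ∀ y, g y ≠ ⊥ → ∀ v, |y v| ≤ B
  zero_mem : g 0 ≠ ⊥
  nonneg : ∀ y, g y ≠ ⊥ → 0 ≤ y
  hereditary : ∀ y y', g y ≠ ⊥ → 0 ≤ y' → y' ≤ y → g y' ≠ ⊥

/-- M-natural-concavity of `g : ℤ^V → ℝ ∪ {-∞}`: for all `x, y ∈ dom g` and all `u` with
`x(u) > y(u)` there is `v ∈ {w : x(w) < y(w)} ∪ {0}` with
`g(x) + g(y) ≤ g(x - e_u + e_v) + g(y + e_u - e_v)`. -/
def MNat {V : Type} [DecidableEq V] (g : (V → ℤ) → WithBot ℝ) : Prop :=
  ∀ x y, g x ≠ ⊥ → g y ≠ ⊥ → ∀ u, y u < x u →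
    ∃ v : Option V, (∀ w, v = some w → x w < y w) ∧
      g x + g y ≤ g (x - unit (some u) + unit v) + g (y + unit (some u) - unit v)

/-- Feasible allocations. -/
def Feasible {M W : Type} (fM : M → (W → ℤ) → WithBot ℝ) (fW : W → (M → ℤ) → WithBot ℝ)
    (x : M → W → ℤ) : Prop :=
  (∀ i, fM i (x i) ≠ ⊥) ∧ ∀ j, fW j (fun i => x i j) ≠ ⊥

/-- Unstable allocations: clause (a), for the two sides, and clause (b). -/
def Unstable {M W : Type} (fM : M → (W → ℤ) → WithBot ℝ) (fW : W → (M → ℤ) → WithBot ℝ)
    (x : M → W → ℤ) : Prop :=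
  (∃ i, ∃ y ≤ x i, fM i (x i) < fM i y) ∨
  (∃ j, ∃ y ≤ (fun i => x i j), fW j (fun i => x i j) < fW j y) ∨
  (∃ (i : M) (j : W) (y' : W → ℤ) (y'' : M → ℤ),
    fM i (x i) < fM i y' ∧ fW j (fun i' => x i' j) < fW j y'' ∧
    (∀ j', j' ≠ j → y' j' ≤ x i j') ∧ (∀ i', i' ≠ i → y'' i' ≤ x i' j) ∧ y' j = y'' i)

/-- Stable allocations: feasible and not unstable. -/
def Stable {M W : Type} (fM : M → (W → ℤ) → WithBot ℝ) (fW : W → (M → ℤ) → WithBot ℝ)
    (x : M → W → ℤ) : Prop :=
  Feasible fM fW x ∧ ¬ Unstable fM fW x

/-- A question to the instance: compare the values of one agent at two points. -/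
inductive Query (M W : Type) : Type
  | man (i : M) (y y' : W → ℤ) : Query M W
  | woman (j : W) (y y' : M → ℤ) : Query M W

open Classical in
/-- The true answer: is the value at the first point at most the value at the second one? -/
noncomputable def answer {M W : Type} (fM : M → (W → ℤ) → WithBot ℝ)
    (fW : W → (M → ℤ) → WithBot ℝ) : Query M W → Bool
  | .man i y y' => decide (fM i y ≤ fM i y')
  | .woman j y y' => decide (fW j y ≤ fW j y')

/-- An adaptive algorithm: given the list of all answers so far (latest first), it either asks the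
next question or outputs an allocation. -/
def Algorithm (M W : Type) : Type := List Bool → Query M W ⊕ (M → W → ℤ)

/-- Run the algorithm for at most `t` questions, starting with the list `h` of answers; the value
is `some x` if the algorithm outputs `x` and `none` if it has not finished after `t` questions. -/
def Algorithm.run {M W : Type} (A : Algorithm M W) (ans : Query M W → Bool) :
    ℕ → List Bool → Option (M → W → ℤ)
  | 0, h =>
    match A h with
    | .inl _ => none
    | .inr x => some x
  | t + 1, h =>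
    match A h with
    | .inl q => A.run ans t (ans q :: h)
    | .inr x => some x

end Pool.Agent.Helper250_Alloc
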