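import Pool.Agent.Helper250_Alloc.RM

/-!
Disposal at unit cost keeps M-natural-concavity; one-step improvements.
-/

set_option autoImplicit false
set_option linter.unusedVariables false
set_option linter.unusedSectionVars false

namespace Pool.Agent.Helper250_Alloc

section
variable {U : Type} [Fintype U] [DecidableEq U]

/-- total amount -/
noncomputable def tot (y : U → ℤ) : ℝ := ((∑ u, y u : ℤ) : ℝ)

theorem tot_add (x y : U → ℤ) : tot (x + y) = tot x + tot y := by
  simp only [tot, Pi.add_apply, Finset.sum_add_distrib]; push_cast; rfl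

theorem tot_sub (x y : U → ℤ) : tot (x - y) = tot x - tot y := by
  simp only [tot, Pi.sub_apply, Finset.sum_sub_distrib]; push_cast; rfl

theorem tot_unit (u : U) : tot (unit (some u)) = 1 := by
  simp [tot, unit_some]

theorem cost_eq (y x : U → ℤ) : ∑ u, ((y u - x u : ℤ) : ℝ) = tot y - tot x := by
  simp only [tot]; push_cast; rw [Finset.sum_sub_distrib]

theorem disp_le {g : (U → ℤ) → WithBot ℝ} {x y : U → ℤ} (h0 : 0 ≤ y) (h1 : y ≤ x) :
    g y + ((tot y - tot x : ℝ) : WithBot ℝ) ≤ disp g x := by
  rw [disp, ← cost_eq]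
  exact Finset.le_sup (f := fun y => g y + ((∑ u, ((y u - x u : ℤ) : ℝ) : ℝ) : WithBot ℝ))
    (Finset.mem_Icc.2 ⟨h0, h1⟩)

theorem disp_spec {g : (U → ℤ) → WithBot ℝ} (hg : CondA g) {x : U → ℤ} (hx : 0 ≤ x) :
    ∃ y, 0 ≤ y ∧ y ≤ x ∧ g y ≠ ⊥ ∧ disp g x = g y + ((tot y - tot x : ℝ) : WithBot ℝ) := by
  obtain ⟨y, hy, hmax⟩ := Finset.exists_mem_eq_sup (Finset.Icc 0 x)
    ⟨0, Finset.mem_Icc.2 ⟨le_rfl, hx⟩⟩
    (fun y => g y + ((∑ u, ((y u - x u : ℤ) : ℝ) : ℝ) : WithBot ℝ))
  rw [Finset.mem_Icc] at hy
  refine ⟨y, hy.1, hy.2, ?_, ?_⟩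
  · intro h0
    have h1 : disp g x = ⊥ := by
      rw [disp, hmax]; simp only [h0, WithBot.bot_add]
    have h2 := disp_le (g := g) (x := x) (y := 0) le_rfl hx
    rw [h1, ← coe_rv hg.zero_mem, ← WithBot.coe_add] at h2
    exact absurd (le_bot_iff.1 h2) WithBot.coe_ne_bot
  · rw [disp, hmax]
    simp only [cost_eq]

theorem disp_ne_bot {g : (U → ℤ) → WithBot ℝ} (hg : CondA g) {x : U → ℤ} :
    disp g x ≠ ⊥ ↔ 0 ≤ x := by
  constructor
  · intro h
    by_contra hx
    apply h
    rw [disp, Finset.Icc_eq_empty hx, Finset.sup_empty]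
  · intro hx
    obtain ⟨y, -, -, h1, h2⟩ := disp_spec hg hx
    rw [h2, ← coe_rv h1, ← WithBot.coe_add]
    exact WithBot.coe_ne_bot

theorem rv_disp_ge {g : (U → ℤ) → WithBot ℝ} (hg : CondA g) {x y : U → ℤ} (hy : g y ≠ ⊥)
    (h1 : y ≤ x) : rv g y + (tot y - tot x) ≤ rv (disp g) x := by
  have h0 := hg.nonneg y hy
  have h2 := disp_le (g := g) h0 h1
  rw [← coe_rv hy, ← coe_rv ((disp_ne_bot hg).2 (h0.trans h1)), ← WithBot.coe_add,
    WithBot.coe_le_coe] at h2
  exact h2

theorem rv_disp_spec {g : (U → ℤ) → WithBot ℝ} (hg : CondA g) {x : U → ℤ} (hx : 0 ≤ x) :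
    ∃ y, 0 ≤ y ∧ y ≤ x ∧ g y ≠ ⊥ ∧ rv (disp g) x = rv g y + (tot y - tot x) := by
  obtain ⟨y, h0, h1, h2, h3⟩ := disp_spec hg hx
  refine ⟨y, h0, h1, h2, ?_⟩
  rw [← coe_rv ((disp_ne_bot hg).2 hx), ← coe_rv h2, ← WithBot.coe_add, WithBot.coe_inj] at h3
  exact h3

/-- Disposal keeps M-natural-concavity. -/
theorem RM_disp {g : (U → ℤ) → WithBot ℝ} (hg : CondA g) (hM : MNat g) :
    RM (fun x => 0 ≤ x) (rv (disp g)) := by
  intro x x' hx hx' u hu
  obtain ⟨y, hy0, hyx, hyd, hyv⟩ := rv_disp_spec hg hx
  obtain ⟨y', hy0', hyx', hyd', hyv'⟩ := rv_disp_spec hg hx'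
  have hxu : 0 ≤ x' u := hx' u
  have hxe : 0 ≤ x - unit (some u) := by
    intro w
    change 0 ≤ x w - unit (some u) w
    have hw0 : 0 ≤ x w := hx w
    rw [unit_apply_some]
    split_ifs with hw
    · subst hw; omega
    · omega
  have hxe' : 0 ≤ x' + unit (some u) := add_nonneg hx' (unit_nonneg _)
  -- the candidates without an exchange partner
  have fin0 : ∀ p p' : U → ℤ, g p ≠ ⊥ → g p' ≠ ⊥ → p ≤ x - unit (some u) →
      p' ≤ x' + unit (some u) → rv g y + rv g y' ≤ rv g p + rv g p' →
      tot y + tot y' ≤ tot p + tot p' →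
      rv (disp g) x + rv (disp g) x' ≤ rv (disp g) (x - unit (some u) + unit none) +
        rv (disp g) (x' + unit (some u) - unit none) := by
    intro p p' hp hp' h1 h2 h3 h4
    rw [unit_none, add_zero, sub_zero]
    have q1 := rv_disp_ge hg hp h1
    have q2 := rv_disp_ge hg hp' h2
    rw [tot_sub, tot_unit] at q1
    rw [tot_add, tot_unit] at q2
    linarith
  have dom0 : (0 : U → ℤ) ≤ x - unit (some u) + unit none ∧
      (0 : U → ℤ) ≤ x' + unit (some u) - unit none := by
    rw [unit_none, add_zero, sub_zero]; exact ⟨hxe, hxe'⟩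
  by_cases hc : y u < x u
  · refine ⟨none, by simp, dom0.1, dom0.2, fin0 y y' hyd hyd' ?_ ?_ le_rfl le_rfl⟩
    · intro w
      change y w ≤ x w - unit (some u) w
      have hw0 : y w ≤ x w := hyx w
      rw [unit_apply_some]
      split_ifs with hw
      · subst hw; omega
      · omega
    · exact hyx'.trans (le_add_of_nonneg_right (unit_nonneg _))
  · have h1 : y u ≤ x u := hyx u
    have h2 : y' u ≤ x' u := hyx' u
    have hlt : y' u < y u := by omega
    obtain ⟨o, ho, ha, hb, hex⟩ := RM_of_MNat hM y y' hyd hyd' u hlt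
    cases o with
    | none =>
      rw [unit_none, add_zero] at ha hex
      rw [unit_none, sub_zero] at hb
      rw [sub_zero] at hex
      refine ⟨none, by simp, dom0.1, dom0.2, fin0 _ _ ha hb ?_ ?_ hex ?_⟩
      · exact sub_le_sub_right hyx _
      · exact add_le_add_left hyx' _
      · rw [tot_sub, tot_add]; linarith
    | some w =>
      have hw := ho w rfl
      have hwu : w ≠ u := by rintro rfl; omega
      by_cases hx2 : x w < x' w
      · refine ⟨some w, ?_, ?_, ?_, ?_⟩
        · intro w' hw'; cases hw'; exact hx2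
        · exact add_nonneg hxe (unit_nonneg _)
        · intro q
          change 0 ≤ x' q + unit (some u) q - unit (some w) q
          have hq0 : 0 ≤ x' q := hx' q
          have hq1 : 0 ≤ unit (some u) q := unit_nonneg (some u) q
          rw [unit_apply_some w]
          split_ifs with hq
          · subst hq
            have : 0 ≤ x q := hx q
            omega
          · omega
        · have q1 := rv_disp_ge hg ha (x := x - unit (some u) + unit (some w))
            (add_le_add_left (sub_le_sub_right hyx _) _)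
          have q2 := rv_disp_ge hg hb (x := x' + unit (some u) - unit (some w))
            (sub_le_sub_right (add_le_add_left hyx' _) _)
          rw [tot_add, tot_add, tot_sub, tot_sub] at q1
          rw [tot_sub, tot_sub, tot_add, tot_add] at q2
          linarith
      · refine ⟨none, by simp, dom0.1, dom0.2, fin0 _ _ ha hb ?_ ?_ hex ?_⟩
        · intro q
          change y q - unit (some u) q + unit (some w) q ≤ x q - unit (some u) q
          have hq0 : y q ≤ x q := hyx q
          rw [unit_apply_some w]
          split_ifs with hq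
          · subst hq
            have : y' q ≤ x' q := hyx' q
            omega
          · omega
        · intro q
          change y' q + unit (some u) q - unit (some w) q ≤ x' q + unit (some u) q
          have hq0 : y' q ≤ x' q := hyx' q
          have hq1 : 0 ≤ unit (some w) q := unit_nonneg (some w) q
          omega
        · rw [tot_add, tot_sub, tot_sub, tot_add]; linarith

/-- marginal values are at most the first ones -/
theorem marginal_le {g : (U → ℤ) → WithBot ℝ} (hg : CondA g) (hM : MNat g) {x : U → ℤ} {w : U}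
    (hx : g (x + unit (some w)) ≠ ⊥) (hx0 : g x ≠ ⊥) {K : ℝ}
    (hK : g (unit (some w)) ≤ g 0 + (K : WithBot ℝ)) : rv g (x + unit (some w)) ≤ rv g x + K := by
  have h1 : (0 : U → ℤ) w < (x + unit (some w)) w := by
    have : 0 ≤ x w := hg.nonneg x hx0 w
    rw [Pi.add_apply, unit_apply_some, if_pos rfl, Pi.zero_apply]; omega
  obtain ⟨o, ho, ha, hb, hex⟩ := RM_of_MNat hM _ _ hx hg.zero_mem w h1
  cases o with
  | none =>
    rw [unit_none, add_zero, add_sub_cancel_right] at hex
    rw [unit_none, sub_zero, zero_add] at hb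
    rw [zero_add, sub_zero] at hex
    rw [← coe_rv hb, ← coe_rv hg.zero_mem, ← WithBot.coe_add, WithBot.coe_le_coe] at hK
    linarith
  | some w' =>
    exfalso
    have h2 := ho w' rfl
    have h3 : 0 ≤ (x + unit (some w)) w' := hg.nonneg _ hx w'
    simp only [Pi.zero_apply] at h2
    omega

/-- If something below `z` is better than `z`, then so is some `z - e_u`. -/
theorem down_step {g : (U → ℤ) → WithBot ℝ} (hg : CondA g) (hM : MNat g) {z : U → ℤ}
    (hz : g z ≠ ⊥) : ∀ (N : ℕ) (y : U → ℤ), y ≤ z → g z < g y → ∑ u, (z u - y u) ≤ N →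
      ∃ u, 0 < z u ∧ rv g z < rv g (z - unit (some u)) := by
  intro N
  induction N with
  | zero =>
    intro y hy hlt hN
    exfalso
    have h1 : y = z := by
      funext u
      have h2 : ∑ u, (z u - y u) = 0 := by
        apply le_antisymm (by simpa using hN)
        exact Finset.sum_nonneg (fun u _ => by have : y u ≤ z u := hy u; omega)
      rw [Finset.sum_eq_zero_iff_of_nonneg (fun u _ => by have : y u ≤ z u := hy u; omega)] at h2
      have := h2 u (Finset.mem_univ u)
      omega
    rw [h1] at hlt
    exact lt_irrefl _ hlt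
  | succ N ih =>
    intro y hy hlt hN
    have hyd : g y ≠ ⊥ := by intro h0; rw [h0] at hlt; exact absurd hlt not_lt_bot
    have hex : ∃ u, y u < z u := by
      by_contra hcon
      push Not at hcon
      have : y = z := le_antisymm hy hcon
      rw [this] at hlt
      exact lt_irrefl _ hlt
    obtain ⟨u, hu⟩ := hex
    have hy0 : ∀ w, 0 ≤ y w := fun w => hg.nonneg y hyd w
    obtain ⟨o, ho, ha, hb, hexc⟩ := RM_of_MNat hM z y hz hyd u hu
    have ho' : o = none := by
      cases o with
      | none => rfl
      | some w =>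
        have h2 := ho w rfl
        have h3 : y w ≤ z w := hy w
        omega
    subst ho'
    rw [unit_none, add_zero] at ha hexc
    rw [unit_none, sub_zero] at hb
    rw [sub_zero] at hexc
    by_cases hc : g z < g (y + unit (some u))
    · apply ih (y + unit (some u)) _ hc
      · have h4 : ∑ w, (z w - (y + unit (some u)) w) = ∑ w, (z w - y w) - 1 := by
          have h5 : ∑ w, (unit (some u) w : ℤ) = 1 := by simp [unit_some]
          rw [← h5, ← Finset.sum_sub_distrib]
          refine Finset.sum_congr rfl (fun w _ => ?_)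
          rw [Pi.add_apply]; ring
        rw [h4]
        push_cast at hN
        omega
      · intro w
        change y w + unit (some u) w ≤ z w
        have h3 : y w ≤ z w := hy w
        rw [unit_apply_some]
        split_ifs with hw
        · subst hw; omega
        · omega
    · refine ⟨u, by have := hy0 u; omega, ?_⟩
      rw [← coe_rv hz, ← coe_rv hb, WithBot.coe_lt_coe, not_lt] at hc
      rw [← coe_rv hz, ← coe_rv hyd, WithBot.coe_lt_coe] at hlt
      linarith

/-- If nothing below `z` is better than `z`, and something which is below `z` off `e` is better,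
then some `z + e_e - e_v` is better. -/
theorem up_step {g : (U → ℤ) → WithBot ℝ} (hg : CondA g) (hM : MNat g) {z : U → ℤ}
    (hz : g z ≠ ⊥) (hbest : ∀ y ≤ z, g y ≤ g z) {e : U} :
    ∀ (N : ℕ) (y : U → ℤ), (∀ w, w ≠ e → y w ≤ z w) → g z < g y → y e - z e ≤ N →
      ∃ o : Option U, (∀ w, o = some w → w ≠ e ∧ 0 < z w) ∧ g (z + unit (some e) - unit o) ≠ ⊥ ∧
        rv g z < rv g (z + unit (some e) - unit o) := by
  intro N
  induction N with
  | zero =>
    intro y hy hlt hN
    exfalso
    apply absurd (hbest y _) (not_le.2 hlt)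
    intro w
    by_cases hw : w = e
    · subst hw; simpa using hN
    · exact hy w hw
  | succ N ih =>
    intro y hy hlt hN
    have hyd : g y ≠ ⊥ := by intro h0; rw [h0] at hlt; exact absurd hlt not_lt_bot
    have hu : z e < y e := by
      by_contra hcon
      apply absurd (hbest y _) (not_le.2 hlt)
      intro w
      by_cases hw : w = e
      · subst hw; exact not_lt.1 hcon
      · exact hy w hw
    obtain ⟨o, ho, ha, hb, hexc⟩ := RM_of_MNat hM y z hyd hz e hu
    have ho2 : ∀ w, o = some w → w ≠ e ∧ 0 < z w := by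
      intro w hw
      have h1 := ho w hw
      have h2 : 0 ≤ y w := hg.nonneg y hyd w
      refine ⟨?_, by omega⟩
      rintro rfl
      omega
    by_cases hc : g z < g (y - unit (some e) + unit o)
    · apply ih _ _ hc
      · have h3 : (y - unit (some e) + unit o) e = y e - 1 := by
          have h4 : o ≠ some e := by intro h; exact (ho2 e h).1 rfl
          rw [Pi.add_apply, Pi.sub_apply, unit_eq_zero h4, unit_apply_some, if_pos rfl, add_zero]
        rw [h3]
        push_cast at hN
        omega
      · intro w hw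
        change y w - unit (some e) w + unit o w ≤ z w
        rw [unit_apply_some, if_neg hw, sub_zero]
        by_cases how : o = some w
        · have := ho w how
          rw [how, unit_apply_some, if_pos rfl]; omega
        · rw [unit_eq_zero how, add_zero]; exact hy w hw
    · refine ⟨o, ho2, hb, ?_⟩
      rw [← coe_rv hz, ← coe_rv ha, WithBot.coe_lt_coe, not_lt] at hc
      rw [← coe_rv hz, ← coe_rv hyd, WithBot.coe_lt_coe] at hlt
      linarith

end

end Pool.Agent.Helper250_Alloc
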