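import Pool.Agent.Helper250_Alloc.Center

/-!
The piecewise linear extension of a monotone `l₁` nonexpansive map of an integer cube.
-/

set_option autoImplicit false
set_option linter.unusedVariables false
set_option linter.unusedSectionVars false

open MeasureTheory

namespace Pool.Agent.Helper250_Alloc

variable {ι : Type} [Fintype ι]

/-- membership in the integer cube -/
def InBox (B : ℤ) (x : ι → ℤ) : Prop := ∀ i, 0 ≤ x i ∧ x i ≤ B

/-- membership in the real cube -/
def InCube (B : ℤ) (x : ι → ℝ) : Prop := ∀ i, 0 ≤ x i ∧ x i ≤ B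

/-- `F` maps the integer cube to itself, and is nonexpansive for `x ↦ ∑ xᵢ⁺`. -/
structure AN (B : ℤ) (F : (ι → ℤ) → (ι → ℤ)) : Prop where
  maps : ∀ x, InBox B x → InBox B (F x)
  le : ∀ x y, InBox B x → InBox B y → ∑ i, max (F x i - F y i) 0 ≤ ∑ i, max (x i - y i) 0

/-- rounding with threshold `t` -/
noncomputable def pt (x : ι → ℝ) (t : ℝ) : ι → ℤ := fun i => ⌊x i + t⌋

/-- the piecewise linear extension -/
noncomputable def Fbar (F : (ι → ℤ) → (ι → ℤ)) (x : ι → ℝ) : ι → ℝ :=
  fun i => ∫ t in Set.Ico (0 : ℝ) 1, (F (pt x t) i : ℝ)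

theorem pt_mem {B : ℤ} {x : ι → ℝ} (hx : InCube B x) {t : ℝ} (ht : t ∈ Set.Ico (0 : ℝ) 1) :
    InBox B (pt x t) := by
  intro i
  obtain ⟨h1, h2⟩ := hx i
  obtain ⟨h3, h4⟩ := ht
  constructor
  · exact Int.floor_nonneg.2 (by linarith)
  · have : ⌊x i + t⌋ < B + 1 := by
      rw [Int.floor_lt]; push_cast; linarith
    simp only [pt]; omega

theorem measurable_pt (x : ι → ℝ) : Measurable (pt x) := by
  unfold pt
  exact measurable_pi_lambda _ (fun i => Int.measurable_floor.comp (measurable_const.add measurable_id))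

theorem measurable_comp_pt {β : Type} [MeasurableSpace β] (x : ι → ℝ) (G : (ι → ℤ) → β) :
    Measurable (fun t => G (pt x t)) :=
  (measurable_of_countable G).comp (measurable_pt x)

theorem floor_add {x t : ℝ} (ht : t ∈ Set.Ico (0 : ℝ) 1) :
    ⌊x + t⌋ = ⌊x⌋ + if 1 - Int.fract x ≤ t then 1 else 0 := by
  obtain ⟨h3, h4⟩ := ht
  have h1 := Int.fract_nonneg x
  have h2 := Int.fract_lt_one x
  have e : x = ⌊x⌋ + Int.fract x := (Int.floor_add_fract x).symm
  rw [Int.floor_eq_iff]
  split_ifs with h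
  · push_cast; constructor <;> linarith
  · push_cast; push Not at h; constructor <;> linarith

theorem integrable_floor (x : ℝ) :
    IntegrableOn (fun t : ℝ => ((⌊x + t⌋ : ℤ) : ℝ)) (Set.Ico (0 : ℝ) 1) := by
  apply Measure.integrableOn_of_bounded (M := |x| + 2) (by simp)
  · exact ((measurable_of_countable (fun z : ℤ => (z : ℝ))).comp
      (Int.measurable_floor.comp (measurable_const.add measurable_id))).aestronglyMeasurable
  · rw [ae_restrict_iff' measurableSet_Ico]
    refine Filter.Eventually.of_forall (fun t ht => ?_)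
    obtain ⟨h3, h4⟩ := ht
    have h1 := Int.floor_le (x + t)
    have h2 := Int.lt_floor_add_one (x + t)
    have h5 := le_abs_self x
    have h6 := neg_abs_le x
    rw [Real.norm_eq_abs, abs_le]
    constructor <;> linarith

theorem integral_floor (x : ℝ) : ∫ t in Set.Ico (0 : ℝ) 1, ((⌊x + t⌋ : ℤ) : ℝ) = x := by
  have h0 := Int.fract_nonneg x
  have h0' := Int.fract_lt_one x
  have h1 : ∫ t in Set.Ico (0 : ℝ) 1, ((⌊x + t⌋ : ℤ) : ℝ) =
      ∫ t in Set.Ico (0 : ℝ) 1, ((⌊x⌋ : ℝ) + Set.indicator (Set.Ici (1 - Int.fract x)) 1 t) := by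
    apply setIntegral_congr_fun measurableSet_Ico
    intro t ht
    simp only
    rw [floor_add ht, Set.indicator_apply]
    simp only [Set.mem_Ici, Pi.one_apply]
    split_ifs <;> simp
  rw [h1, integral_add]
  · rw [setIntegral_const, integral_indicator measurableSet_Ici]
    simp only [Pi.one_apply]
    rw [setIntegral_const]
    simp only [Measure.real, Real.volume_Ico]
    rw [Measure.restrict_apply measurableSet_Ici]
    have : Set.Ici (1 - Int.fract x) ∩ Set.Ico (0 : ℝ) 1 = Set.Ico (1 - Int.fract x) 1 := by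
      ext t
      simp only [Set.mem_inter_iff, Set.mem_Ici, Set.mem_Ico]
      constructor
      · rintro ⟨h1, h2, h3⟩; exact ⟨h1, h3⟩
      · rintro ⟨h1, h2⟩; exact ⟨h1, by linarith, h2⟩
    rw [this, Real.volume_Ico]
    simp only [sub_zero, ENNReal.toReal_ofReal zero_le_one, smul_eq_mul, one_mul, mul_one]
    rw [ENNReal.toReal_ofReal (by linarith)]
    have := Int.floor_add_fract x
    linarith
  · exact integrableOn_const (by simp)
  · apply Integrable.indicator _ measurableSet_Ici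
    exact integrableOn_const (by simp)

theorem integrable_F {B : ℤ} {F : (ι → ℤ) → (ι → ℤ)} (hF : AN B F) {x : ι → ℝ}
    (hx : InCube B x) (i : ι) :
    IntegrableOn (fun t : ℝ => (F (pt x t) i : ℝ)) (Set.Ico (0 : ℝ) 1) := by
  apply Measure.integrableOn_of_bounded (M := B) (by simp)
  · exact (measurable_comp_pt x (fun z => (F z i : ℝ))).aestronglyMeasurable
  · rw [ae_restrict_iff' measurableSet_Ico]
    refine Filter.Eventually.of_forall (fun t ht => ?_)
    obtain ⟨h1, h2⟩ := hF.maps _ (pt_mem hx ht) i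
    rw [Real.norm_eq_abs, abs_le]
    have h1' : (0 : ℝ) ≤ F (pt x t) i := by exact_mod_cast h1
    have h2' : (F (pt x t) i : ℝ) ≤ B := by exact_mod_cast h2
    constructor <;> linarith

theorem Fbar_congr {F F' : (ι → ℤ) → (ι → ℤ)} {x : ι → ℝ}
    (h : ∀ t ∈ Set.Ico (0 : ℝ) 1, F (pt x t) = F' (pt x t)) : Fbar F x = Fbar F' x := by
  funext i
  apply setIntegral_congr_fun measurableSet_Ico
  intro t ht
  simp only
  rw [h t ht]

theorem Fbar_int (F : (ι → ℤ) → (ι → ℤ)) (u : ι → ℤ) :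
    Fbar F (fun i => (u i : ℝ)) = fun i => (F u i : ℝ) := by
  funext i
  have h1 : ∫ t in Set.Ico (0 : ℝ) 1, (F (pt (fun i => (u i : ℝ)) t) i : ℝ) =
      ∫ t in Set.Ico (0 : ℝ) 1, (F u i : ℝ) := by
    apply setIntegral_congr_fun measurableSet_Ico
    intro t ht
    simp only
    congr 2
    have : pt (fun i => (u i : ℝ)) t = u := by
      funext j
      obtain ⟨h3, h4⟩ := ht
      simp only [pt]
      rw [Int.floor_eq_iff]
      constructor <;> linarith
    rw [this]
  simp only [Fbar]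
  rw [h1, setIntegral_const]
  simp [Measure.real]

theorem Fbar_mem {B : ℤ} {F : (ι → ℤ) → (ι → ℤ)} (hF : AN B F) {x : ι → ℝ}
    (hx : InCube B x) : InCube B (Fbar F x) := by
  intro i
  constructor
  · apply setIntegral_nonneg measurableSet_Ico
    intro t ht
    exact_mod_cast (hF.maps _ (pt_mem hx ht) i).1
  · have h1 : Fbar F x i ≤ ∫ t in Set.Ico (0 : ℝ) 1, (B : ℝ) := by
      apply setIntegral_mono_on (integrable_F hF hx i) (integrableOn_const (by simp))
        measurableSet_Ico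
      intro t ht
      exact_mod_cast (hF.maps _ (pt_mem hx ht) i).2
    rw [setIntegral_const] at h1
    simpa [Measure.real] using h1

theorem integral_floor_pos (x y : ℝ) :
    ∫ t in Set.Ico (0 : ℝ) 1, (max (((⌊x + t⌋ : ℤ) : ℝ) - ((⌊y + t⌋ : ℤ) : ℝ)) 0) =
      max (x - y) 0 := by
  rcases le_total y x with h | h
  · rw [max_eq_left (by linarith : (0 : ℝ) ≤ x - y)]
    rw [← integral_floor x, ← integral_floor y, ← integral_sub (integrable_floor _)
      (integrable_floor _)]
    apply setIntegral_congr_fun measurableSet_Ico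
    intro t ht
    simp only
    rw [integral_floor, integral_floor]
    apply max_eq_left
    have : (⌊y + t⌋ : ℤ) ≤ ⌊x + t⌋ := Int.floor_le_floor (by linarith)
    have : ((⌊y + t⌋ : ℤ) : ℝ) ≤ ((⌊x + t⌋ : ℤ) : ℝ) := by exact_mod_cast this
    linarith
  · rw [max_eq_right (by linarith : x - y ≤ (0 : ℝ))]
    have h1 : ∫ t in Set.Ico (0 : ℝ) 1, (max (((⌊x + t⌋ : ℤ) : ℝ) - ((⌊y + t⌋ : ℤ) : ℝ)) 0) =
        ∫ t in Set.Ico (0 : ℝ) 1, (0 : ℝ) := by
      apply setIntegral_congr_fun measurableSet_Ico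
      intro t ht
      simp only
      apply max_eq_right
      have : (⌊x + t⌋ : ℤ) ≤ ⌊y + t⌋ := Int.floor_le_floor (by linarith)
      have : ((⌊x + t⌋ : ℤ) : ℝ) ≤ ((⌊y + t⌋ : ℤ) : ℝ) := by exact_mod_cast this
      linarith
    rw [h1]; simp

/-- The extension is nonexpansive for `x ↦ ∑ xᵢ⁺`. -/
theorem Fbar_le {B : ℤ} {F : (ι → ℤ) → (ι → ℤ)} (hF : AN B F) {x y : ι → ℝ}
    (hx : InCube B x) (hy : InCube B y) :
    ∑ i, max (Fbar F x i - Fbar F y i) 0 ≤ ∑ i, max (x i - y i) 0 := by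
  have hint : ∀ i, IntegrableOn (fun t => (F (pt x t) i : ℝ) - (F (pt y t) i : ℝ))
      (Set.Ico (0 : ℝ) 1) := fun i => (integrable_F hF hx i).sub (integrable_F hF hy i)
  have hint' : ∀ i, IntegrableOn (fun t => max ((F (pt x t) i : ℝ) - (F (pt y t) i : ℝ)) 0)
      (Set.Ico (0 : ℝ) 1) := fun i => (hint i).pos_part
  have hintf : ∀ i, IntegrableOn
      (fun t => max (((⌊x i + t⌋ : ℤ) : ℝ) - ((⌊y i + t⌋ : ℤ) : ℝ)) 0)
      (Set.Ico (0 : ℝ) 1) := fun i => ((integrable_floor _).sub (integrable_floor _)).pos_part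
  calc ∑ i, max (Fbar F x i - Fbar F y i) 0
      ≤ ∑ i, ∫ t in Set.Ico (0 : ℝ) 1, max ((F (pt x t) i : ℝ) - (F (pt y t) i : ℝ)) 0 := by
        apply Finset.sum_le_sum
        intro i _
        apply max_le
        · simp only [Fbar]
          rw [← integral_sub (integrable_F hF hx i) (integrable_F hF hy i)]
          exact integral_mono (hint i) (hint' i) (fun t => le_max_left _ _)
        · exact integral_nonneg (fun t => le_max_right _ _)
    _ = ∫ t in Set.Ico (0 : ℝ) 1, ∑ i, max ((F (pt x t) i : ℝ) - (F (pt y t) i : ℝ)) 0 :=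
        (integral_finsetSum _ (fun i _ => hint' i)).symm
    _ ≤ ∫ t in Set.Ico (0 : ℝ) 1,
          ∑ i, max (((⌊x i + t⌋ : ℤ) : ℝ) - ((⌊y i + t⌋ : ℤ) : ℝ)) 0 := by
        apply setIntegral_mono_on (integrable_finsetSum _ (fun i _ => hint' i))
          (integrable_finsetSum _ (fun i _ => hintf i)) measurableSet_Ico
        intro t ht
        have := hF.le _ _ (pt_mem hx ht) (pt_mem hy ht)
        exact_mod_cast this
    _ = ∑ i, ∫ t in Set.Ico (0 : ℝ) 1,
          max (((⌊x i + t⌋ : ℤ) : ℝ) - ((⌊y i + t⌋ : ℤ) : ℝ)) 0 :=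
        integral_finsetSum _ (fun i _ => hintf i)
    _ = _ := by
        refine Finset.sum_congr rfl (fun i _ => integral_floor_pos _ _)

theorem abs_eq_max_add (a : ℝ) : |a| = max a 0 + max (-a) 0 := by
  rcases le_total 0 a with h | h
  · rw [abs_of_nonneg h, max_eq_left h, max_eq_right (by linarith)]; ring
  · rw [abs_of_nonpos h, max_eq_right h, max_eq_left (by linarith)]; ring

theorem d1_eq (x y : ι → ℝ) :
    d1 x y = ∑ i, max (x i - y i) 0 + ∑ i, max (y i - x i) 0 := by
  rw [← Finset.sum_add_distrib]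
  refine Finset.sum_congr rfl (fun i _ => ?_)
  rw [abs_eq_max_add, neg_sub]

/-- The extension is nonexpansive for the `l₁` distance. -/
theorem Fbar_d1 {B : ℤ} {F : (ι → ℤ) → (ι → ℤ)} (hF : AN B F) {x y : ι → ℝ}
    (hx : InCube B x) (hy : InCube B y) : d1 (Fbar F x) (Fbar F y) ≤ d1 x y := by
  rw [d1_eq, d1_eq]
  exact add_le_add (Fbar_le hF hx hy) (Fbar_le hF hy hx)

open Classical in
/-- the nodes of the simplex of `x` -/
noncomputable def node (x : ι → ℝ) : Option ι → (ι → ℤ)
  | none => fun k => ⌊x k⌋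
  | some i => fun k => ⌊x k⌋ +
      if Int.fract (x i) ≤ Int.fract (x k) ∧ 0 < Int.fract (x k) then 1 else 0

theorem node_mem {B : ℤ} {x : ι → ℝ} (hx : InCube B x) (j : Option ι) : InBox B (node x j) := by
  intro k
  obtain ⟨h1, h2⟩ := hx k
  have h3 : 0 ≤ ⌊x k⌋ := Int.floor_nonneg.2 h1
  have h4 : ⌊x k⌋ ≤ B := by
    have := Int.floor_le_floor h2
    rwa [Int.floor_intCast] at this
  cases j with
  | none => exact ⟨h3, h4⟩
  | some i =>
    simp only [node]
    split_ifs with h
    · refine ⟨by omega, ?_⟩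
      have h5 : ⌊x k⌋ ≠ B := by
        intro h6
        have h7 := Int.floor_add_fract (x k)
        rw [h6] at h7
        linarith [h.2]
      omega
    · exact ⟨by omega, by omega⟩

theorem pt_eq_node (x : ι → ℝ) {t : ℝ} (ht : t ∈ Set.Ico (0 : ℝ) 1) :
    ∃ j, pt x t = node x j := by
  classical
  by_cases hex : ∃ i, 1 - Int.fract (x i) ≤ t
  · have hne : (Finset.univ.filter (fun i => 1 - Int.fract (x i) ≤ t)).Nonempty := by
      obtain ⟨i, hi⟩ := hex; exact ⟨i, Finset.mem_filter.2 ⟨Finset.mem_univ _, hi⟩⟩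
    obtain ⟨i, hi, hmin⟩ := Finset.exists_min_image _ (fun i => Int.fract (x i)) hne
    rw [Finset.mem_filter] at hi
    refine ⟨some i, ?_⟩
    funext k
    simp only [pt, node]
    rw [floor_add ht]
    congr 1
    have h1 := ht.2
    by_cases hk : 1 - Int.fract (x k) ≤ t
    · rw [if_pos hk, if_pos]
      exact ⟨hmin k (Finset.mem_filter.2 ⟨Finset.mem_univ _, hk⟩), by linarith⟩
    · rw [if_neg hk, if_neg]
      rintro ⟨h2, -⟩
      exact hk (by linarith [hi.2])
  · push Not at hex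
    refine ⟨none, ?_⟩
    funext k
    simp only [pt, node]
    rw [floor_add ht, if_neg (not_le.2 (hex k)), add_zero]

/-- **Rounding**: an approximate fixed point of the extension gives a fixed point nearby. -/
theorem rounding {B : ℤ} {F : (ι → ℤ) → (ι → ℤ)} (hF : AN B F) {x : ι → ℝ}
    (hx : InCube B x) (hres : d1 (Fbar F x) x < 1) {u : ι → ℤ}
    (hu : ∀ i, u i = min (max (F u i) ⌊x i⌋) ⌈x i⌉) : F u = u := by
  classical
  have hbox : InBox B u := by
    intro i
    obtain ⟨h1, h2⟩ := hx i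
    have h3 : 0 ≤ ⌊x i⌋ := Int.floor_nonneg.2 h1
    have h4 : ⌈x i⌉ ≤ B := Int.ceil_le.2 h2
    have h5 : ⌊x i⌋ ≤ ⌈x i⌉ := Int.floor_le_ceil _
    have := hu i
    omega
  have hucube : InCube B (fun i => (u i : ℝ)) := by
    intro i
    obtain ⟨h1, h2⟩ := hbox i
    change (0 : ℝ) ≤ (u i : ℝ) ∧ (u i : ℝ) ≤ (B : ℝ)
    exact ⟨by exact_mod_cast h1, by exact_mod_cast h2⟩
  have h1 := Fbar_d1 hF hx hucube
  rw [Fbar_int] at h1
  -- sign information
  have hs : ∀ i, (u i < F u i → x i ≤ u i) ∧ (F u i < u i → (u i : ℝ) ≤ x i) := by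
    intro i
    have h3 : ⌊x i⌋ ≤ ⌈x i⌉ := Int.floor_le_ceil _
    have h5 := Int.floor_le (x i)
    have h6 := Int.le_ceil (x i)
    have h7 := hu i
    refine ⟨fun h => ?_, fun h => ?_⟩
    · have h8 : u i = ⌈x i⌉ := by omega
      rw [h8]; exact h6
    · have h8 : u i = ⌊x i⌋ := by omega
      rw [h8]; exact h5
  have key : ∀ i, |(F u i : ℝ) - u i| + |x i - u i| ≤
      |Fbar F x i - x i| + |Fbar F x i - F u i| := by
    intro i
    obtain ⟨a3, a4⟩ := hs i
    have b1 := neg_abs_le (Fbar F x i - x i)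
    have b2 := le_abs_self (Fbar F x i - x i)
    have b3 := neg_abs_le (Fbar F x i - F u i)
    have b4 := le_abs_self (Fbar F x i - F u i)
    rcases lt_trichotomy (u i) (F u i) with h | h | h
    · have h' : (u i : ℝ) < F u i := by exact_mod_cast h
      have := a3 h
      rw [abs_of_pos (by linarith : (0 : ℝ) < (F u i : ℝ) - u i),
        abs_of_nonpos (by linarith : x i - u i ≤ 0)]
      linarith
    · rw [← h]
      rw [← h] at b3 b4
      rw [sub_self, abs_zero, zero_add]
      rcases abs_cases (x i - (u i : ℝ)) with ⟨h2, _⟩ | ⟨h2, _⟩ <;> rw [h2] <;> linarith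
    · have h' : (F u i : ℝ) < u i := by exact_mod_cast h
      have := a4 h
      rw [abs_of_neg (by linarith : (F u i : ℝ) - u i < 0),
        abs_of_nonneg (by linarith : 0 ≤ x i - u i)]
      linarith
  have hsum : ∑ i, |(F u i : ℝ) - u i| + d1 x (fun i => (u i : ℝ)) ≤
      d1 (Fbar F x) x + d1 (Fbar F x) (fun i => (F u i : ℝ)) := by
    simp only [d1]
    rw [← Finset.sum_add_distrib, ← Finset.sum_add_distrib]
    exact Finset.sum_le_sum (fun i _ => key i)
  have hlt : ∑ i, |(F u i : ℝ) - u i| < 1 := by linarith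
  funext i
  by_contra hne
  have h2 : (1 : ℤ) ≤ |F u i - u i| := Int.one_le_abs (sub_ne_zero.2 hne)
  have h3 : (1 : ℝ) ≤ |(F u i : ℝ) - u i| := by exact_mod_cast h2
  have h4 : |(F u i : ℝ) - u i| ≤ ∑ i, |(F u i : ℝ) - u i| :=
    Finset.single_le_sum (f := fun i => |(F u i : ℝ) - u i|) (fun i _ => abs_nonneg _)
      (Finset.mem_univ i)
  linarith

theorem AN.mono {B : ℤ} {F : (ι → ℤ) → (ι → ℤ)} (hF : AN B F) {x y : ι → ℤ}
    (hx : InBox B x) (hy : InBox B y) (h : x ≤ y) : F x ≤ F y := by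
  have h1 := hF.le x y hx hy
  have h2 : ∑ i, max (x i - y i) 0 = 0 := by
    apply Finset.sum_eq_zero
    intro i _
    have : x i ≤ y i := h i
    omega
  rw [h2] at h1
  have h3 : ∑ i, max (F x i - F y i) 0 = 0 :=
    le_antisymm h1 (Finset.sum_nonneg (fun i _ => le_max_right _ _))
  rw [Finset.sum_eq_zero_iff_of_nonneg (fun i _ => le_max_right _ _)] at h3
  intro i
  have h4 := h3 i (Finset.mem_univ i)
  change F x i ≤ F y i
  omega

end Pool.Agent.Helper250_Alloc
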