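import Pool.Agent.Helper250_Alloc.Search

/-!
The monotone `l₁` nonexpansive map whose fixed points give stable allocations.
-/

set_option autoImplicit false
set_option linter.unusedVariables false
set_option linter.unusedSectionVars false

namespace Pool.Agent.Helper250_Alloc

section AN
variable {ι : Type} [Fintype ι] [DecidableEq ι]

theorem step_mono {B : ℤ} {F : (ι → ℤ) → (ι → ℤ)}
    (hstep : ∀ z e, InBox B z → InBox B (z + unit (some e)) →
      ∃ v, F (z + unit (some e)) = F z + unit v) :
    ∀ (N : ℕ) (x y : ι → ℤ), InBox B x → InBox B y → (∀ i, x i ≤ y i) → ∑ i, (y i - x i) = N →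
      (∀ i, F x i ≤ F y i) ∧ ∑ i, (F y i - F x i) ≤ N := by
  intro N
  induction N with
  | zero =>
    intro x y hx hy hxy hN
    have h1 : x = y := by
      funext i
      simp only [Nat.cast_zero] at hN
      rw [Finset.sum_eq_zero_iff_of_nonneg (fun i _ => by have := hxy i; omega)] at hN
      have := hN i (Finset.mem_univ i)
      omega
    subst h1
    simp
  | succ N ih =>
    intro x y hx hy hxy hN
    have hex : ∃ e, x e < y e := by
      by_contra hcon
      push Not at hcon
      have : ∑ i, (y i - x i) ≤ 0 := Finset.sum_nonpos (fun i _ => by have := hcon i; omega)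
      push_cast at hN
      omega
    obtain ⟨e, he⟩ := hex
    set y' : ι → ℤ := fun i => y i - unit (some e) i with hy'
    have hyy : y = y' + unit (some e) := by
      funext i; simp only [hy', Pi.add_apply]; ring
    have hxy' : ∀ i, x i ≤ y' i := by
      intro i
      simp only [hy', unit_apply_some]
      have := hxy i
      by_cases hi : i = e
      · subst hi; rw [if_pos rfl]; omega
      · rw [if_neg hi]; omega
    have hbox : InBox B y' := by
      intro i
      have h1 := hxy' i
      have h2 := hx i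
      have h3 := hy i
      have h4 : 0 ≤ unit (some e) i := unit_nonneg _ i
      simp only [hy'] at h1 ⊢
      omega
    have hsum : ∑ i, (y' i - x i) = N := by
      have h1 : ∑ i, (y i - x i) = ∑ i, (y' i - x i) + ∑ i, (unit (some e) i : ℤ) := by
        rw [← Finset.sum_add_distrib]
        refine Finset.sum_congr rfl (fun i _ => ?_)
        simp only [hy']; ring
      have h2 : ∑ i, (unit (some e) i : ℤ) = 1 := by simp [unit_some]
      rw [h2, hN] at h1
      push_cast at h1
      omega
    obtain ⟨h1, h2⟩ := ih x y' hx hbox hxy' hsum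
    obtain ⟨v, hv⟩ := hstep y' e hbox (by rw [← hyy]; exact hy)
    rw [← hyy] at hv
    constructor
    · intro i
      have := h1 i
      have h3 : 0 ≤ unit v i := unit_nonneg v i
      rw [hv, Pi.add_apply]; omega
    · have h3 : ∑ i, (F y i - F x i) = ∑ i, (F y' i - F x i) + ∑ i, (unit v i : ℤ) := by
        rw [← Finset.sum_add_distrib]
        refine Finset.sum_congr rfl (fun i _ => ?_)
        rw [hv, Pi.add_apply]; ring
      have h4 := sum_unit_le v
      push_cast
      omega

theorem AN_of_step {B : ℤ} {F : (ι → ℤ) → (ι → ℤ)} (hmaps : ∀ x, InBox B x → InBox B (F x))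
    (hstep : ∀ z e, InBox B z → InBox B (z + unit (some e)) →
      ∃ v, F (z + unit (some e)) = F z + unit v) : AN B F := by
  refine ⟨hmaps, fun x y hx hy => ?_⟩
  set m : ι → ℤ := fun i => min (x i) (y i) with hm
  have hmbox : InBox B m := by
    intro i; have := hx i; have := hy i; simp only [hm]; omega
  have hmx : ∀ i, m i ≤ x i := fun i => min_le_left _ _
  have hmy : ∀ i, m i ≤ y i := fun i => min_le_right _ _
  have hs1 : ∑ i, (x i - m i) = ((∑ i, (x i - m i)).toNat : ℤ) :=
    (Int.toNat_of_nonneg (Finset.sum_nonneg (fun i _ => by have := hmx i; omega))).symm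
  have hs2 : ∑ i, (y i - m i) = ((∑ i, (y i - m i)).toNat : ℤ) :=
    (Int.toNat_of_nonneg (Finset.sum_nonneg (fun i _ => by have := hmy i; omega))).symm
  obtain ⟨h1, h2⟩ := step_mono hstep _ m x hmbox hx hmx hs1
  obtain ⟨h3, h4⟩ := step_mono hstep _ m y hmbox hy hmy hs2
  calc ∑ i, max (F x i - F y i) 0 ≤ ∑ i, (F x i - F m i) :=
        Finset.sum_le_sum (fun i _ => by have := h1 i; have := h3 i; omega)
    _ ≤ ∑ i, (x i - m i) := by rw [hs1]; exact h2
    _ = ∑ i, max (x i - y i) 0 := Finset.sum_congr rfl (fun i _ => by simp only [hm]; omega)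

theorem AN.comp {B : ℤ} {F G : (ι → ℤ) → (ι → ℤ)} (hF : AN B F) (hG : AN B G) :
    AN B (fun z => G (F z)) :=
  ⟨fun x hx => hG.maps _ (hF.maps x hx),
   fun x y hx hy => (hG.le _ _ (hF.maps x hx) (hF.maps y hy)).trans (hF.le x y hx hy)⟩

theorem InBox.compl {B : ℤ} {x : ι → ℤ} (hx : InBox B x) : InBox B (fun i => B - x i) := by
  intro i; have := hx i; dsimp only; omega

theorem AN.compl {B : ℤ} {F : (ι → ℤ) → (ι → ℤ)} (hF : AN B F) :
    AN B (fun z i => B - F (fun i => B - z i) i) := by
  refine ⟨fun x hx => (hF.maps _ hx.compl).compl, fun x y hx hy => ?_⟩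
  have := hF.le _ _ hy.compl hx.compl
  refine le_trans (le_of_eq ?_) (this.trans (le_of_eq ?_))
  · exact Finset.sum_congr rfl (fun i _ => by congr 1; ring)
  · exact Finset.sum_congr rfl (fun i _ => by congr 1; ring)

theorem AN.conj {κ : Type} [Fintype κ] {B : ℤ} {F : (ι → ℤ) → (ι → ℤ)} (hF : AN B F)
    (e : κ ≃ ι) : AN B (fun (z : κ → ℤ) k => F (fun i => z (e.symm i)) (e k)) := by
  refine ⟨fun x hx k => hF.maps _ (fun i => hx (e.symm i)) (e k), fun x y hx hy => ?_⟩
  have h1 := hF.le (fun i => x (e.symm i)) (fun i => y (e.symm i)) (fun i => hx (e.symm i))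
    (fun i => hy (e.symm i))
  have h2 : ∑ k, max (F (fun i => x (e.symm i)) (e k) - F (fun i => y (e.symm i)) (e k)) 0 =
      ∑ i, max (F (fun i => x (e.symm i)) i - F (fun i => y (e.symm i)) i) 0 :=
    Equiv.sum_comp e (fun i => max (F (fun i => x (e.symm i)) i - F (fun i => y (e.symm i)) i) 0)
  have h3 : ∑ k, max (x k - y k) 0 = ∑ i, max (x (e.symm i) - y (e.symm i)) 0 :=
    (Equiv.sum_comp e.symm (fun k => max (x k - y k) 0)).symm
  rw [h2, h3]
  exact h1

end AN

section choice
variable {V : Type} [Fintype V] [DecidableEq V]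

open Classical in
/-- the choice function -/
noncomputable def choice (g : (V → ℤ) → WithBot ℝ) (z : V → ℤ) : V → ℤ :=
  if h : ∃ y, IsChoice g z y then h.choose else 0

theorem choice_spec {g : (V → ℤ) → WithBot ℝ} (hA : CondA g) {z : V → ℤ} (hz : 0 ≤ z) :
    IsChoice g z (choice g z) := by
  have h := exists_choice hA hz
  rw [choice, dif_pos h]
  exact h.choose_spec

end choice

section rej
variable {A C : Type} [Fintype A] [DecidableEq A] [Fintype C] [DecidableEq C]

/-- what the agents of one side reject -/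
noncomputable def rej (f : A → (C → ℤ) → WithBot ℝ) (z : A × C → ℤ) : A × C → ℤ :=
  fun p => z p - choice (f p.1) (fun c => z (p.1, c)) p.2

theorem rej_AN {f : A → (C → ℤ) → WithBot ℝ} (hA : ∀ a, CondA (f a)) (hM : ∀ a, MNat (f a))
    (B : ℤ) : AN B (rej f) := by
  apply AN_of_step
  · intro z hz p
    have h1 := choice_spec (hA p.1) (z := fun c => z (p.1, c)) (fun c => (hz (p.1, c)).1)
    have h2 : choice (f p.1) (fun c => z (p.1, c)) p.2 ≤ z (p.1, p.2) := h1.2.1 p.2
    have h3 : 0 ≤ choice (f p.1) (fun c => z (p.1, c)) p.2 := (hA p.1).nonneg _ h1.1 p.2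
    have h4 := hz p
    simp only [rej]
    have h5 : z (p.1, p.2) = z p := rfl
    omega
  · intro z e hz hz'
    obtain ⟨a, c⟩ := e
    have h1 := choice_spec (hA a) (z := fun c => z (a, c)) (fun c => (hz (a, c)).1)
    have h2 := choice_spec (hA a) (z := fun c' => (z + unit (some (a, c))) (a, c'))
      (fun c' => (hz' (a, c')).1)
    have e1 : (fun c' => (z + unit (some (a, c))) (a, c')) =
        (fun c => z (a, c)) + unit (some c) := by
      funext c'
      simp only [Pi.add_apply, unit_apply_some, Prod.mk.injEq, true_and]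
    rw [e1] at h2
    obtain ⟨v, hv⟩ := choice_step (hM a) h1 h2
    refine ⟨v.map (fun c => (a, c)), ?_⟩
    funext p
    obtain ⟨a', c'⟩ := p
    simp only [rej, Pi.add_apply]
    by_cases haa : a' = a
    · subst haa
      have e2 : (fun c_1 => z (a', c_1) + unit (some (a', c)) (a', c_1)) =
          (fun c => z (a', c)) + unit (some c) := by
        funext c'
        simp only [Pi.add_apply, unit_apply_some, Prod.mk.injEq, true_and]
      rw [e2]
      have h3 := congrFun hv c'
      simp only [Pi.add_apply, Pi.sub_apply] at h3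
      have e3 : unit (some (a', c)) (a', c') = unit (some c) c' := by
        simp only [unit_apply_some, Prod.mk.injEq, true_and]
      have e4 : unit (Option.map (fun c => (a', c)) v) (a', c') = unit v c' := by
        cases v with
        | none => rfl
        | some w => simp only [Option.map_some, unit_apply_some, Prod.mk.injEq, true_and]
      rw [e3, e4]
      exact h3
    · have e2 : (fun c_1 => z (a', c_1) + unit (some (a, c)) (a', c_1)) =
          (fun c => z (a', c)) := by
        funext c'
        rw [unit_apply_some, if_neg (by simp [haa]), add_zero]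
      have e3 : unit (some (a, c)) (a', c') = 0 := by
        rw [unit_apply_some, if_neg (by simp [haa])]
      have e4 : unit (Option.map (fun c => (a, c)) v) (a', c') = 0 := by
        cases v with
        | none => rfl
        | some w => rw [Option.map_some, unit_apply_some, if_neg (by simp [haa])]
      rw [e2, e3, e4, add_zero, add_zero]

end rej

section Phi
variable {M W : Type} [Fintype M] [DecidableEq M] [Fintype W] [DecidableEq W]

/-- what the women reject, indexed by `M × W` -/
noncomputable def rejW (fW : W → (M → ℤ) → WithBot ℝ) (z : M × W → ℤ) : M × W → ℤ :=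
  fun p => rej fW (fun q => z (q.2, q.1)) (p.2, p.1)

/-- the monotone map -/
noncomputable def Phi (B : ℤ) (fM : M → (W → ℤ) → WithBot ℝ) (fW : W → (M → ℤ) → WithBot ℝ)
    (z : M × W → ℤ) : M × W → ℤ :=
  fun p => B - rejW fW (fun q => B - rej fM z q) p

theorem Phi_AN {fM : M → (W → ℤ) → WithBot ℝ} {fW : W → (M → ℤ) → WithBot ℝ}
    (hAM : ∀ i, CondA (fM i)) (hAW : ∀ j, CondA (fW j))
    (hMM : ∀ i, MNat (fM i)) (hMW : ∀ j, MNat (fW j)) (B : ℤ) : AN B (Phi B fM fW) := by
  have h1 := rej_AN hAM hMM B
  have h2 := (rej_AN hAW hMW B).conj (Equiv.prodComm M W)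
  exact h1.comp h2.compl

/-- **Fixed points give stable allocations.** -/
theorem stable_of_fix {fM : M → (W → ℤ) → WithBot ℝ} {fW : W → (M → ℤ) → WithBot ℝ}
    (hAM : ∀ i, CondA (fM i)) (hAW : ∀ j, CondA (fW j))
    (hMM : ∀ i, MNat (fM i)) (hMW : ∀ j, MNat (fW j)) {B : ℤ}
    (hB : ∀ i y, fM i y ≠ ⊥ → ∀ j, y j ≤ B) {u : M × W → ℤ} (hu : InBox B u)
    (hfix : Phi B fM fW u = u) :
    Stable fM fW (fun i j => choice (fM i) (fun j => u (i, j)) j) := by
  set x : M → W → ℤ := fun i j => choice (fM i) (fun j => u (i, j)) j with hx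
  set zW : M × W → ℤ := fun q => B - rej fM u q with hzW
  have hzWbox : InBox B zW := ((rej_AN hAM hMM B).maps u hu).compl
  have hzWe : ∀ i j, zW (i, j) = B - u (i, j) + x i j := by
    intro i j
    simp only [hzW, rej, hx]; ring
  have hcM : ∀ i, IsChoice (fM i) (fun j => u (i, j)) (x i) := fun i =>
    choice_spec (hAM i) (fun j => (hu (i, j)).1)
  have hcW : ∀ j, IsChoice (fW j) (fun i => zW (i, j)) (fun i => x i j) := by
    intro j
    have h1 := choice_spec (hAW j) (z := fun i => zW (i, j)) (fun i => (hzWbox (i, j)).1)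
    have h2 : choice (fW j) (fun i => zW (i, j)) = fun i => x i j := by
      funext i
      have h3 : B - (zW (i, j) - choice (fW j) (fun i => zW (i, j)) i) = u (i, j) :=
        congrFun hfix (i, j)
      have h4 := hzWe i j
      have h5 : choice (fW j) (fun i => zW (i, j)) i = u (i, j) - B + zW (i, j) := by
        linarith
      rw [h5, h4]; ring
    rw [h2] at h1
    exact h1
  refine ⟨⟨fun i => (hcM i).1, fun j => (hcW j).1⟩, ?_⟩
  rintro (⟨i, y, hy, hlt⟩ | ⟨j, y, hy, hlt⟩ | ⟨i, j, y', y'', h1, h2, h3, h4, h5⟩)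
  · exact absurd ((hcM i).val_le (hy.trans (hcM i).2.1)) (not_le.2 hlt)
  · exact absurd ((hcW j).val_le (hy.trans (hcW j).2.1)) (not_le.2 hlt)
  · -- no slack for `i` at `j`
    have a1 : u (i, j) ≤ x i j := by
      by_contra hcon
      push Not at hcon
      have := choice_slack (hAM i) (hMM i) (e := j) (fun j => (hu (i, j)).1) (hcM i) hcon
        (y' := y') (fun w hw => (h3 w hw).trans ((hcM i).2.1 w))
      exact absurd this (not_le.2 h1)
    have a2 : zW (i, j) ≤ x i j := by
      by_contra hcon
      push Not at hcon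
      have := choice_slack (hAW j) (hMW j) (e := i) (fun i => (hzWbox (i, j)).1) (hcW j) hcon
        (y' := y'') (fun w hw => (h4 w hw).trans ((hcW j).2.1 w))
      exact absurd this (not_le.2 h2)
    have a3 := hzWe i j
    -- so `x i j = B`
    have a4 : y' ≤ fun j => u (i, j) := by
      intro w
      change y' w ≤ u (i, w)
      by_cases hw : w = j
      · subst hw
        have h6 : fM i y' ≠ ⊥ := by
          intro h0; rw [h0] at h1; exact absurd h1 not_lt_bot
        have h7 := hB i y' h6 w
        have h8 : x i w ≤ u (i, w) := (hcM i).2.1 w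
        omega
      · exact (h3 w hw).trans ((hcM i).2.1 w)
    exact absurd ((hcM i).val_le a4) (not_le.2 h1)

/-- an instance -/
abbrev World (M W : Type) : Type := (M → (W → ℤ) → WithBot ℝ) × (W → (M → ℤ) → WithBot ℝ)

/-- the true answers -/
noncomputable def ansW (ω : World M W) : Query M W → Bool := answer ω.1 ω.2

/-- valid instances whose men have domains below `B` -/
def Valid (B : ℕ) (ω : World M W) : Prop :=
  ((∀ i, CondA (ω.1 i)) ∧ (∀ i, MNat (ω.1 i)) ∧ (∀ j, CondA (ω.2 j)) ∧ ∀ j, MNat (ω.2 j)) ∧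
    ∀ i y, ω.1 i y ≠ ⊥ → ∀ j, y j ≤ (B : ℤ)

theorem cmpM {P : World M W → Prop} (i : M) (y y' : W → ℤ) :
    Can (ansW (M := M) (W := W)) P 1 (fun ω b => (b = true ↔ ω.1 i y ≤ ω.1 i y')) :=
  (Can.ask (Query.man i y y')).mono (fun _ h => h) le_rfl (fun ω b _ hb => by
    rw [← hb]; simp [ansW, answer])

theorem cmpW {P : World M W → Prop} (j : W) (y y' : M → ℤ) :
    Can (ansW (M := M) (W := W)) P 1 (fun ω b => (b = true ↔ ω.2 j y ≤ ω.2 j y')) :=
  (Can.ask (Query.woman j y y')).mono (fun _ h => h) le_rfl (fun ω b _ hb => by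
    rw [← hb]; simp [ansW, answer])

variable [Nonempty M] [Nonempty W]

theorem can_choiceM {B : ℕ} (i : M) (z : W → ℤ) (hz : ∀ j, 0 ≤ z j ∧ z j ≤ (B : ℤ)) :
    Can (ansW (M := M) (W := W)) (Valid B) (choiceCost (Fintype.card W) B)
      (fun ω y => y = choice (ω.1 i) z) := by
  refine (can_choice (g := fun ω : World M W => ω.1 i) (cmpM i) (fun ω h => h.1.1 i)
    (fun ω h => h.1.2.1 i) B z (fun j => (hz j).1) (fun j => (hz j).2)).mono
    (fun _ h => h) le_rfl (fun ω y hV hy => ?_)
  exact hy.unique (choice_spec (hV.1.1 i) (fun j => (hz j).1))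

theorem can_choiceW {B : ℕ} (j : W) (z : M → ℤ) (hz : ∀ i, 0 ≤ z i ∧ z i ≤ (B : ℤ)) :
    Can (ansW (M := M) (W := W)) (Valid B) (choiceCost (Fintype.card M) B)
      (fun ω y => y = choice (ω.2 j) z) := by
  refine (can_choice (g := fun ω : World M W => ω.2 j) (cmpW j) (fun ω h => h.1.2.2.1 j)
    (fun ω h => h.1.2.2.2 j) B z (fun i => (hz i).1) (fun i => (hz i).2)).mono
    (fun _ h => h) le_rfl (fun ω y hV hy => ?_)
  exact hy.unique (choice_spec (hV.1.2.2.1 j) (fun i => (hz i).1))

/-- the number of comparisons for one evaluation of the monotone map -/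
def evalCost (m w B : ℕ) : ℕ := m * choiceCost w B + w * choiceCost m B

theorem can_Phi {B : ℕ} (u : M × W → ℤ) (hu : InBox (B : ℤ) u) :
    Can (ansW (M := M) (W := W)) (Valid B) (evalCost (Fintype.card M) (Fintype.card W) B)
      (fun ω r => r = Phi B ω.1 ω.2 u) := by
  refine Can.bind (Can.all (ι := M) (S := fun i ω y => y = choice (ω.1 i) (fun j => u (i, j)))
    (fun i => can_choiceM i _ (fun j => hu (i, j)))) (fun r => ?_)
  set zW : M × W → ℤ := fun q => B - (u q - r q.1 q.2) with hzW
  by_cases hbox : InBox (B : ℤ) zW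
  swap
  · refine Can.absurd (fun ω hω => hbox ?_)
    obtain ⟨hV, hr⟩ := hω
    have := ((rej_AN hV.1.1 hV.1.2.1 B).maps u hu).compl
    have e1 : zW = fun q => B - rej ω.1 u q := by
      funext q
      simp only [hzW, rej]
      rw [hr q.1]
    rw [e1]; exact this
  refine Can.map (fun s : W → (M → ℤ) => fun p : M × W => (B : ℤ) - (zW p - s p.2 p.1))
    ((Can.all (ι := W) (S := fun j ω y => y = choice (ω.2 j) (fun i => zW (i, j)))
      (fun j => can_choiceW j _ (fun i => hbox (i, j)))).pre (fun ω h => h.1)) ?_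
  rintro ω s ⟨hV, hr⟩ hs
  funext p
  have e1 : zW = fun q => B - rej ω.1 u q := by
    funext q
    simp only [hzW, rej]
    rw [hr q.1]
  have e2 : Phi B ω.1 ω.2 u p = B - (zW p - choice (ω.2 p.2) (fun i => zW (i, p.2)) p.1) := by
    rw [e1]; rfl
  rw [e2, hs p.2]

/-- the number of comparisons for a given bound `B` on the domains -/
def stageCost (m w B : ℕ) : ℕ := fixCost (m * w) B (evalCost m w B) + m * choiceCost w B

theorem can_stable {B : ℕ} (hB : 0 < B) :
    Can (ansW (M := M) (W := W)) (Valid B) (stageCost (Fintype.card M) (Fintype.card W) B)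
      (fun ω x => Stable ω.1 ω.2 x) := by
  have h1 := can_fix (F := fun ω : World M W => Phi B ω.1 ω.2) hB
    (fun ω hV => Phi_AN hV.1.1 hV.1.2.2.1 hV.1.2.1 hV.1.2.2.2 B) (fun u hu => can_Phi u hu)
  rw [Fintype.card_prod] at h1
  refine Can.bind h1 (fun u => ?_)
  by_cases hu : InBox (B : ℤ) u
  swap
  · exact Can.absurd (fun ω hω => hu hω.2.1)
  refine Can.map (fun r : M → (W → ℤ) => r) ((Can.all (ι := M)
    (S := fun i ω y => y = choice (ω.1 i) (fun j => u (i, j)))
    (fun i => can_choiceM i _ (fun j => hu (i, j)))).pre (fun ω h => h.1)) ?_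
  rintro ω r ⟨hV, -, hfix⟩ hr
  have h2 := stable_of_fix hV.1.1 hV.1.2.2.1 hV.1.2.1 hV.1.2.2.2 hV.2 hu hfix
  have h3 : r = fun i j => choice (ω.1 i) (fun j => u (i, j)) j := by
    funext i j; rw [hr i]
  rw [h3]; exact h2

end Phi

end Pool.Agent.Helper250_Alloc
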