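import Pool.Agent.Helper250_Alloc.Defs

/-!
Choice functions of M-natural-concave functions: uniqueness after a lexicographic perturbation,
the one-step lemma, the slack lemma.
-/

set_option autoImplicit false
set_option linter.unusedVariables false
set_option linter.unusedSectionVars false

namespace Pool.Agent.Helper250_Alloc

variable {V : Type} [Fintype V] [DecidableEq V]

/-- a translation invariant linear order on `ℤ^V`, used to break ties -/
noncomputable def lexKey (y : V → ℤ) : Lex (Fin (Fintype.card V) → ℤ) :=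
  toLex (fun i => y ((Fintype.equivFin V).symm i))

theorem lexKey_injective : Function.Injective (lexKey (V := V)) := by
  intro x y h
  have h' : (fun i => x ((Fintype.equivFin V).symm i)) =
      fun i => y ((Fintype.equivFin V).symm i) := toLex.injective h
  funext v
  have := congrFun h' (Fintype.equivFin V v)
  simpa using this

theorem lexKey_add (x y : V → ℤ) : lexKey (x + y) = lexKey x + lexKey y := rfl

/-- value, then the tie breaking order -/
noncomputable def key (g : (V → ℤ) → WithBot ℝ) (y : V → ℤ) :
    WithBot ℝ ×ₗ Lex (Fin (Fintype.card V) → ℤ) :=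
  toLex (g y, lexKey y)

theorem key_le_iff (g : (V → ℤ) → WithBot ℝ) (a b : V → ℤ) :
    key g a ≤ key g b ↔ g a < g b ∨ (g a = g b ∧ lexKey a ≤ lexKey b) := by
  simp [key, Prod.Lex.toLex_le_toLex]

theorem key_lt_iff (g : (V → ℤ) → WithBot ℝ) (a b : V → ℤ) :
    key g a < key g b ↔ g a < g b ∨ (g a = g b ∧ lexKey a < lexKey b) := by
  simp [key, Prod.Lex.toLex_lt_toLex]

theorem key_injective (g : (V → ℤ) → WithBot ℝ) : Function.Injective (key g) := by
  intro x y h
  apply lexKey_injective
  have := congrArg (fun p => (ofLex p).2) h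
  simpa [key] using this

theorem val_le_of_key_le {g : (V → ℤ) → WithBot ℝ} {a b : V → ℤ} (h : key g a ≤ key g b) :
    g a ≤ g b := by
  rcases (key_le_iff g a b).1 h with h | h
  · exact h.le
  · exact h.1.le

/-- The combinatorial content of the exchange inequality. -/
theorem key_exchange {g : (V → ℤ) → WithBot ℝ} {p q r s : V → ℤ} (hsum : p + q = r + s)
    (hp : g p ≠ ⊥) (hq : g q ≠ ⊥) (h : g p + g q ≤ g r + g s) (hr : key g r ≤ key g p) :
    key g q ≤ key g s := by
  obtain ⟨P, hP⟩ := WithBot.ne_bot_iff_exists.1 hp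
  obtain ⟨Q, hQ⟩ := WithBot.ne_bot_iff_exists.1 hq
  have hrs : g r + g s ≠ ⊥ := by
    intro h0
    rw [h0, ← hP, ← hQ, ← WithBot.coe_add] at h
    exact absurd (le_bot_iff.1 h) (WithBot.coe_ne_bot)
  have hr0 : g r ≠ ⊥ := by
    intro h0; rw [h0, WithBot.bot_add] at hrs; exact hrs rfl
  have hs0 : g s ≠ ⊥ := by
    intro h0; rw [h0, WithBot.add_bot] at hrs; exact hrs rfl
  obtain ⟨R, hR⟩ := WithBot.ne_bot_iff_exists.1 hr0
  obtain ⟨S, hS⟩ := WithBot.ne_bot_iff_exists.1 hs0
  rw [key_le_iff] at hr ⊢
  rw [← hP, ← hQ, ← hR, ← hS, ← WithBot.coe_add, ← WithBot.coe_add, WithBot.coe_le_coe] at h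
  rw [← hR, ← hP, WithBot.coe_lt_coe, WithBot.coe_inj] at hr
  rw [← hQ, ← hS, WithBot.coe_lt_coe, WithBot.coe_inj]
  rcases hr with hr | ⟨hr, hl⟩
  · left; linarith
  · rcases lt_or_eq_of_le (show Q ≤ S by linarith) with h1 | h1
    · left; exact h1
    · right
      refine ⟨h1, ?_⟩
      have h2 : lexKey p + lexKey q = lexKey r + lexKey s := by
        rw [← lexKey_add, ← lexKey_add, hsum]
      by_contra hcon
      push Not at hcon
      have : lexKey r + lexKey s < lexKey p + lexKey q := add_lt_add_of_le_of_lt hl hcon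
      exact absurd h2 this.ne'

/-- `y` is the choice of `g` from the box below `z`. -/
def IsChoice (g : (V → ℤ) → WithBot ℝ) (z y : V → ℤ) : Prop :=
  g y ≠ ⊥ ∧ y ≤ z ∧ ∀ y' ≤ z, key g y' ≤ key g y

theorem IsChoice.unique {g : (V → ℤ) → WithBot ℝ} {z y y' : V → ℤ} (h : IsChoice g z y)
    (h' : IsChoice g z y') : y = y' :=
  key_injective g (le_antisymm (h'.2.2 y h.2.1) (h.2.2 y' h'.2.1))

theorem IsChoice.val_le {g : (V → ℤ) → WithBot ℝ} {z y y' : V → ℤ} (h : IsChoice g z y)
    (h' : y' ≤ z) : g y' ≤ g y := val_le_of_key_le (h.2.2 y' h')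

theorem exists_choice {g : (V → ℤ) → WithBot ℝ} (hA : CondA g) {z : V → ℤ} (hz : 0 ≤ z) :
    ∃ y, IsChoice g z y := by
  have hfin : ({y | g y ≠ ⊥ ∧ y ≤ z} : Set (V → ℤ)).Finite :=
    (Set.finite_Icc (0 : V → ℤ) z).subset (fun y hy => ⟨hA.nonneg y hy.1, hy.2⟩)
  obtain ⟨y, hy, hmax⟩ := Set.exists_max_image _ (key g) hfin ⟨0, hA.zero_mem, hz⟩
  refine ⟨y, hy.1, hy.2, fun y' hy' => ?_⟩
  by_cases h : g y' = ⊥
  · rw [key_le_iff]
    left
    rw [h]
    exact bot_lt_iff_ne_bot.2 hy.1
  · exact hmax y' ⟨h, hy'⟩

theorem unit_some (v : V) : unit (some v) = (Pi.single v 1 : V → ℤ) := rfl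

theorem unit_none : (unit none : V → ℤ) = 0 := rfl

theorem unit_nonneg (v : Option V) : (0 : V → ℤ) ≤ unit v := by
  cases v with
  | none => exact le_rfl
  | some v => rw [unit_some]; exact Pi.single_nonneg.2 zero_le_one

theorem unit_apply_some (v w : V) : unit (some v) w = if w = v then (1 : ℤ) else 0 := by
  rw [unit_some, Pi.single_apply]

theorem unit_le_one (v : Option V) (w : V) : unit v w ≤ 1 := by
  cases v with
  | none => simp [unit_none]
  | some v => rw [unit_apply_some]; split_ifs <;> simp

theorem unit_eq_zero {v : Option V} {w : V} (h : v ≠ some w) : unit v w = 0 := by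
  cases v with
  | none => rfl
  | some v =>
    rw [unit_apply_some, if_neg]
    rintro rfl
    exact h rfl

theorem sum_unit_le (v : Option V) : ∑ w, unit v w ≤ 1 := by
  cases v with
  | none => simp [unit_none]
  | some v => simp [unit_some]

/-- If `x w < y w` for `v = some w`, then `x + e_v ≤ x ⊔ y`. -/
theorem add_unit_le {x y z : V → ℤ} {v : Option V} (hv : ∀ w, v = some w → x w < y w)
    (hx : x ≤ z) (hy : y ≤ z) : x + unit v ≤ z := by
  intro w
  by_cases h : v = some w
  · subst h
    have h1 : x w < y w := hv w rfl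
    have h2 : y w ≤ z w := hy w
    simp only [Pi.add_apply, unit_apply_some, if_true]
    omega
  · simp only [Pi.add_apply, unit_eq_zero h, add_zero]
    exact hx w

/-- **The one-step lemma**, general form. -/
theorem choice_step' {g : (V → ℤ) → WithBot ℝ} (hM : MNat g) {z y y' : V → ℤ}
    {e : V} (hy : IsChoice g z y) (hy' : IsChoice g (z + unit (some e)) y') :
    y' = y ∨ (y' e = z e + 1 ∧ ∃ v : Option V, y' = y + unit (some e) - unit v) := by
  by_cases hle : y' ≤ z
  · left
    have h1 : IsChoice g z y' := ⟨hy'.1, hle, fun w hw => hy'.2.2 w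
      (hw.trans (le_add_of_nonneg_right (unit_nonneg _)))⟩
    exact h1.unique hy
  · right
    have hoff : ∀ w, w ≠ e → y' w ≤ z w := by
      intro w hw
      have h1 : y' w ≤ (z + unit (some e)) w := hy'.2.1 w
      rwa [Pi.add_apply, unit_apply_some, if_neg hw, add_zero] at h1
    have he1 : y' e = z e + 1 := by
      have h1 : y' e ≤ (z + unit (some e)) e := hy'.2.1 e
      rw [Pi.add_apply, unit_apply_some, if_pos rfl] at h1
      by_contra hne
      apply hle
      intro w
      change y' w ≤ z w
      by_cases hw : w = e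
      · subst hw; omega
      · exact hoff w hw
    have hyz : ∀ w, y w ≤ z w := fun w => hy.2.1 w
    have hlt : y e < y' e := by have := hyz e; omega
    obtain ⟨v, hv, hex⟩ := hM y' y hy'.1 hy.1 e hlt
    -- `y' - e + v ≤ z`
    have hle1 : y' - unit (some e) + unit v ≤ z := by
      intro w
      by_cases hw : w = e
      · subst hw
        have : v ≠ some w := by
          intro h; have := hv w h; omega
        simp only [Pi.add_apply, Pi.sub_apply, unit_apply_some, if_true, unit_eq_zero this]
        omega
      · by_cases hvw : v = some w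
        · subst hvw
          have := hv w rfl
          have := hyz w
          simp only [Pi.add_apply, Pi.sub_apply, unit_apply_some, if_true, if_neg hw]
          omega
        · have h1 := hoff w hw
          have h2 : unit v w = 0 := unit_eq_zero hvw
          have h3 : unit (some e) w = 0 := by rw [unit_apply_some, if_neg hw]
          change y' w - unit (some e) w + unit v w ≤ z w
          omega
    have h2 := hy.2.2 _ hle1
    have hsum : y + y' = (y' - unit (some e) + unit v) + (y + unit (some e) - unit v) := by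
      abel
    have h3 : key g y' ≤ key g (y + unit (some e) - unit v) :=
      key_exchange hsum hy.1 hy'.1 (by rw [add_comm (g y)]; exact hex) h2
    have hle2 : y + unit (some e) - unit v ≤ z + unit (some e) := by
      intro w
      have h4 := hyz w
      have h5 : 0 ≤ unit v w := unit_nonneg v w
      simp only [Pi.add_apply, Pi.sub_apply]
      omega
    have h4 := hy'.2.2 _ hle2
    exact ⟨he1, v, key_injective g (le_antisymm h3 h4)⟩

/-- **The one-step lemma** for rejections. -/
theorem choice_step {g : (V → ℤ) → WithBot ℝ} (hM : MNat g) {z y y' : V → ℤ}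
    {e : V} (hy : IsChoice g z y) (hy' : IsChoice g (z + unit (some e)) y') :
    ∃ v : Option V, (z + unit (some e)) - y' = (z - y) + unit v := by
  rcases choice_step' hM hy hy' with h | ⟨-, v, h⟩
  · exact ⟨some e, by rw [h]; abel⟩
  · exact ⟨v, by rw [h]; abel⟩

/-- **Slack lemma**: if the choice does not use up the bound at `e`, then nothing which respects
the other bounds is better. -/
theorem choice_slack {g : (V → ℤ) → WithBot ℝ} (hA : CondA g) (hM : MNat g) {z y : V → ℤ}
    {e : V} (hz : 0 ≤ z) (hy : IsChoice g z y) (hs : y e < z e) {y' : V → ℤ}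
    (h : ∀ w, w ≠ e → y' w ≤ z w) : g y' ≤ g y := by
  have key1 : ∀ k : ℕ, IsChoice g (z + (k : ℤ) • unit (some e)) y := by
    intro k
    induction k with
    | zero => simpa using hy
    | succ k ih =>
      have hz' : 0 ≤ z + ((k + 1 : ℕ) : ℤ) • unit (some e) :=
        add_nonneg hz (smul_nonneg (by positivity) (unit_nonneg _))
      obtain ⟨y1, hy1⟩ := exists_choice hA hz'
      have e1 : z + ((k + 1 : ℕ) : ℤ) • unit (some e) =
          (z + (k : ℤ) • unit (some e)) + unit (some e) := by
        push_cast
        rw [add_smul, one_smul, add_assoc]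
      rw [e1] at hy1 ⊢
      rcases choice_step' hM ih hy1 with h1 | ⟨h1, v, h2⟩
      · rw [← h1]; exact hy1
      · exfalso
        have h3 := congrFun h2 e
        have h4 : 0 ≤ unit v e := unit_nonneg v e
        simp only [Pi.add_apply, Pi.sub_apply, Pi.smul_apply, unit_apply_some, if_true,
          smul_eq_mul, mul_one] at h1 h3
        omega
  have h2 := key1 (y' e - z e).toNat
  apply h2.val_le
  intro w
  by_cases hw : w = e
  · subst hw
    simp only [Pi.add_apply, Pi.smul_apply, unit_apply_some, if_true, smul_eq_mul, mul_one]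
    omega
  · simp only [Pi.add_apply, Pi.smul_apply, unit_apply_some, if_neg hw, smul_eq_mul, mul_zero,
      add_zero]
    exact h w hw

end Pool.Agent.Helper250_Alloc
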