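import Mathlib

/-!
Finite comparison trees, and a small calculus of what can be found out with how many questions.
-/

set_option autoImplicit false
set_option linter.unusedVariables false

namespace Pool.Agent.Helper250_Alloc

/-- Finite adaptive question trees with yes/no answers. -/
inductive Tree (Q R : Type) : Type
  | ret : R → Tree Q R
  | ask : Q → (Bool → Tree Q R) → Tree Q R

namespace Tree
variable {Q R R' : Type}

/-- the output when the answers are given by `o` -/
def eval (o : Q → Bool) : Tree Q R → R
  | ret r => r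
  | ask q k => (k (o q)).eval o

/-- the number of questions asked when the answers are given by `o` -/
def cost (o : Q → Bool) : Tree Q R → ℕ
  | ret _ => 0
  | ask q k => (k (o q)).cost o + 1

/-- sequential composition -/
def bind : Tree Q R → (R → Tree Q R') → Tree Q R'
  | ret r, f => f r
  | ask q k, f => ask q (fun b => (k b).bind f)

theorem eval_bind (o : Q → Bool) (T : Tree Q R) (f : R → Tree Q R') :
    (T.bind f).eval o = (f (T.eval o)).eval o := by
  induction T with
  | ret r => rfl
  | ask q k ih => simp only [bind, eval]; exact ih _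

theorem cost_bind (o : Q → Bool) (T : Tree Q R) (f : R → Tree Q R') :
    (T.bind f).cost o = T.cost o + (f (T.eval o)).cost o := by
  induction T with
  | ret r => simp [bind, cost, eval]
  | ask q k ih => simp only [bind, cost, eval]; rw [ih]; ring

end Tree

/-- With at most `c` questions one can find, for every world `ω` satisfying `P`, a result `r`
with `S ω r`. -/
def Can {Ω Q R : Type} (ans : Ω → Q → Bool) (P : Ω → Prop) (c : ℕ) (S : Ω → R → Prop) : Prop :=
  ∃ T : Tree Q R, ∀ ω, P ω → S ω (T.eval (ans ω)) ∧ T.cost (ans ω) ≤ c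

namespace Can
variable {Ω Q R R' : Type} {ans : Ω → Q → Bool} {P P' : Ω → Prop} {c c' : ℕ}

theorem ret {S : Ω → R → Prop} (r : R) (h : ∀ ω, P ω → S ω r) : Can ans P 0 S :=
  ⟨.ret r, fun ω hω => ⟨h ω hω, le_rfl⟩⟩

theorem ask (q : Q) : Can ans P 1 (fun ω b => ans ω q = b) :=
  ⟨.ask q .ret, fun ω _ => ⟨rfl, le_rfl⟩⟩

theorem bind {S : Ω → R → Prop} {S' : Ω → R' → Prop} (h : Can ans P c S)
    (h' : ∀ r, Can ans (fun ω => P ω ∧ S ω r) c' S') : Can ans P (c + c') S' := by
  obtain ⟨T, hT⟩ := h
  choose T' hT' using h'
  refine ⟨T.bind T', fun ω hω => ?_⟩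
  obtain ⟨h1, h2⟩ := hT ω hω
  obtain ⟨h3, h4⟩ := hT' (T.eval (ans ω)) ω ⟨hω, h1⟩
  rw [Tree.eval_bind, Tree.cost_bind]
  exact ⟨h3, by omega⟩

theorem mono {S S' : Ω → R → Prop} (h : Can ans P c S) (hP : ∀ ω, P' ω → P ω) (hc : c ≤ c')
    (hS : ∀ ω r, P' ω → S ω r → S' ω r) : Can ans P' c' S' := by
  obtain ⟨T, hT⟩ := h
  refine ⟨T, fun ω hω => ?_⟩
  obtain ⟨h1, h2⟩ := hT ω (hP ω hω)
  exact ⟨hS ω _ hω h1, h2.trans hc⟩

theorem le {S : Ω → R → Prop} (h : Can ans P c S) (hc : c ≤ c') : Can ans P c' S :=
  h.mono (fun _ h => h) hc (fun _ _ _ h => h)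

theorem pre {S : Ω → R → Prop} (h : Can ans P c S) (hP : ∀ ω, P' ω → P ω) : Can ans P' c S :=
  h.mono hP le_rfl (fun _ _ _ h => h)

/-- If no world satisfies the precondition, anything can be done for free. -/
theorem absurd [Inhabited R] {S : Ω → R → Prop} (h : ∀ ω, ¬ P ω) : Can ans P c S :=
  ⟨.ret default, fun ω hω => (h ω hω).elim⟩

/-- post-processing without questions -/
theorem map {S : Ω → R → Prop} {S' : Ω → R' → Prop} (f : R → R') (h : Can ans P c S)
    (hf : ∀ ω r, P ω → S ω r → S' ω (f r)) : Can ans P c S' := by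
  have := h.bind (c' := 0) (S' := S') (fun r => Can.ret (f r) (fun ω hω => hf ω r hω.1 hω.2))
  simpa using this

/-- find a family of results, indexed by the members of a list -/
theorem list {ι : Type} [DecidableEq ι] [Inhabited R] {S : ι → Ω → R → Prop} (l : List ι)
    (h : ∀ i ∈ l, Can ans P c (S i)) :
    Can ans P (l.length * c) (fun ω (r : ι → R) => ∀ i ∈ l, S i ω (r i)) := by
  induction l with
  | nil => exact (Can.ret (fun _ => default) (by simp)).le (Nat.zero_le _)
  | cons a l ih =>
    have h1 := h a (by simp)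
    have h2 := ih (fun i hi => h i (by simp [hi]))
    have := h1.bind (c' := l.length * c)
      (S' := fun ω (r : ι → R) => ∀ i ∈ a :: l, S i ω (r i)) (fun ra => by
        refine Can.map (fun r i => if i = a then ra else r i)
          (h2.pre (P' := fun ω => P ω ∧ S a ω ra) (fun ω h => h.1)) ?_
        intro ω r hω hr i hi
        by_cases hia : i = a
        · simp only [hia, if_true]; exact hω.2
        · simp only [hia, if_false]
          exact hr i (by simpa [hia] using hi))
    exact this.le (by simp only [List.length_cons]; linarith [Nat.succ_mul l.length c])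

/-- find a family of results, indexed by a finite type -/
theorem all {ι : Type} [Fintype ι] [Inhabited R] {S : ι → Ω → R → Prop}
    (h : ∀ i, Can ans P c (S i)) :
    Can ans P (Fintype.card ι * c) (fun ω (r : ι → R) => ∀ i, S i ω (r i)) := by
  classical
  have := Can.list (Finset.univ.toList : List ι) (S := S) (fun i _ => h i)
  refine this.mono (fun _ h => h) (by simp) (fun ω r _ hr i => hr i (by simp))

/-- case distinction on a condition that does not depend on the world -/
theorem ite {S : Ω → R → Prop} (p : Prop) (h1 : p → Can ans P c S) (h2 : ¬ p → Can ans P c S) :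
    Can ans P c S := by
  by_cases h : p
  · exact h1 h
  · exact h2 h

end Can

end Pool.Agent.Helper250_Alloc
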