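import Pool.Agent.Helper250_Alloc.Cut
import Pool.Agent.Helper250_Alloc.Tree

/-!
The choice of an M-natural-concave function from a box, with polynomially many comparisons.
-/

set_option autoImplicit false
set_option linter.unusedVariables false
set_option linter.unusedSectionVars false

namespace Pool.Agent.Helper250_Alloc

theorem two_mul_pow_le (m : ℕ) : 2 * m ^ (m + 1) ≤ (m + 1) ^ (m + 1) := by
  have h : m ^ (m + 1) + (m + 1) * m ^ m ≤ (m + 1) ^ (m + 1) := by
    rw [add_pow]
    rw [Finset.sum_range_succ, Finset.sum_range_succ]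
    simp only [one_pow, mul_one, Nat.choose_succ_self_right]
    simp
    have : 0 ≤ ∑ x ∈ Finset.range m, m ^ x * (m + 1).choose x := Nat.zero_le _
    linarith [mul_comm (m + 1) (m ^ m)]
  have h2 : m ^ (m + 1) ≤ (m + 1) * m ^ m := by
    rw [pow_succ, mul_comm]
    exact Nat.mul_le_mul_right _ (Nat.le_succ _)
  omega

theorem pot_bound (m k X : ℕ) (hX : X < 2 ^ k) :
    X * m ^ ((m + 1) * k) < (m + 1) ^ ((m + 1) * k) := by
  have h1 : 2 ^ k * m ^ ((m + 1) * k) ≤ (m + 1) ^ ((m + 1) * k) := by
    rw [pow_mul, pow_mul, ← mul_pow]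
    exact Nat.pow_le_pow_left (two_mul_pow_le m) k
  rcases Nat.eq_zero_or_pos (m ^ ((m + 1) * k)) with h0 | h0
  · rw [h0, mul_zero]; positivity
  · exact lt_of_lt_of_le (Nat.mul_lt_mul_of_pos_right hX h0) h1

theorem prod_cut {V : Type} [Fintype V] [DecidableEq V] (s s' : V → ℕ) (w : V) (K m : ℕ)
    (hoff : ∀ v, v ≠ w → s' v = s v) (hw : s' w * K ≤ s w * m) :
    (∏ v, s' v) * K ≤ (∏ v, s v) * m := by
  rw [← Finset.mul_prod_erase _ s (Finset.mem_univ w),
    ← Finset.mul_prod_erase _ s' (Finset.mem_univ w)]
  have : ∏ x ∈ Finset.univ.erase w, s' x = ∏ x ∈ Finset.univ.erase w, s x :=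
    Finset.prod_congr rfl (fun x hx => hoff x (Finset.ne_of_mem_erase hx))
  rw [this]
  calc s' w * (∏ x ∈ Finset.univ.erase w, s x) * K
      = (s' w * K) * (∏ x ∈ Finset.univ.erase w, s x) := by ring
    _ ≤ (s w * m) * (∏ x ∈ Finset.univ.erase w, s x) := Nat.mul_le_mul_right _ hw
    _ = _ := by ring

section
variable {Ω Q : Type} {ans : Ω → Q → Bool} {P : Ω → Prop}
variable {V : Type} [Fintype V] [DecidableEq V] {g : Ω → (V → ℤ) → WithBot ℝ}

/-- compare two points, with tie breaking -/
theorem can_key (hcmp : ∀ y y', Can ans P 1 (fun ω b => (b = true ↔ g ω y ≤ g ω y')))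
    (y y' : V → ℤ) : Can ans P 2 (fun ω b => (b = true ↔ key (g ω) y ≤ key (g ω) y')) := by
  refine (hcmp y y').bind (c' := 1) (fun b => ?_)
  refine Can.bind (c := 1) (c' := 0) ((hcmp y' y).pre (fun ω h => h.1)) (fun b' => ?_)
  classical
  refine Can.ret (b && (!b' || decide (lexKey y ≤ lexKey y'))) (fun ω hω => ?_)
  obtain ⟨⟨-, h1⟩, h2⟩ := hω
  rw [key_le_iff]
  cases b with
  | false =>
    have h3 : ¬ g ω y ≤ g ω y' := by
      intro h; exact absurd (h1.2 h) (by simp)
    simp only [Bool.false_and, Bool.false_eq_true, false_iff, not_or, not_and]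
    exact ⟨fun h => h3 h.le, fun h _ => h3 h.le⟩
  | true =>
    have h3 : g ω y ≤ g ω y' := h1.1 rfl
    cases b' with
    | false =>
      have h4 : ¬ g ω y' ≤ g ω y := by
        intro h; exact absurd (h2.2 h) (by simp)
      simp only [Bool.not_false, Bool.true_or, Bool.and_true, true_iff]
      exact Or.inl (lt_of_not_ge h4)
    | true =>
      have h4 : g ω y' ≤ g ω y := h2.1 rfl
      have h5 := le_antisymm h3 h4
      simp [h5]

/-- the best point of a list -/
theorem can_best (hcmp : ∀ y y', Can ans P 1 (fun ω b => (b = true ↔ g ω y ≤ g ω y')))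
    (l : List (V → ℤ)) : ∀ a : V → ℤ, Can ans P (2 * l.length)
      (fun ω r => r ∈ a :: l ∧ ∀ y ∈ a :: l, key (g ω) y ≤ key (g ω) r) := by
  induction l with
  | nil =>
    intro a
    refine Can.ret a (fun ω _ => ⟨by simp, ?_⟩)
    intro y hy
    simp only [List.mem_singleton] at hy
    rw [hy]
  | cons b l ih =>
    intro a
    refine ((can_key hcmp a b).bind (c' := 2 * l.length) (fun r => ?_)).le
      (by simp only [List.length_cons]; omega)
    cases r with
    | true =>
      refine (ih b).mono (fun ω h => h.1) le_rfl ?_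
      rintro ω r ⟨hP, hab⟩ ⟨h1, h2⟩
      refine ⟨by simp only [List.mem_cons] at h1 ⊢; tauto, ?_⟩
      intro y hy
      rw [List.mem_cons] at hy
      rcases hy with rfl | hy
      · exact (hab.1 rfl).trans (h2 b (by simp))
      · exact h2 y hy
    | false =>
      refine (ih a).mono (fun ω h => h.1) le_rfl ?_
      rintro ω r ⟨hP, hab⟩ ⟨h1, h2⟩
      refine ⟨by simp only [List.mem_cons] at h1 ⊢; tauto, ?_⟩
      intro y hy
      rw [List.mem_cons, List.mem_cons] at hy
      rcases hy with rfl | rfl | hy
      · exact h2 y (by simp)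
      · have h3 : ¬ key (g ω) a ≤ key (g ω) y := by
          intro h; exact absurd (hab.2 h) (by simp)
        exact (le_of_not_ge h3).trans (h2 a (by simp))
      · exact h2 y (by simp [hy])

variable [Nonempty V]

/-- membership in the domain -/
theorem can_mem (hcmp : ∀ y y', Can ans P 1 (fun ω b => (b = true ↔ g ω y ≤ g ω y')))
    (hA : ∀ ω, P ω → CondA (g ω)) (y : V → ℤ) :
    Can ans P 1 (fun ω b => (b = true ↔ g ω y = ⊥)) := by
  refine (hcmp y (fun _ => -1)).mono (fun _ h => h) le_rfl ?_
  intro ω b hP hb
  rw [hb]
  have : g ω (fun _ => -1) = ⊥ := by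
    by_contra h
    have := (hA ω hP).nonneg _ h (Classical.arbitrary V)
    simp at this
  rw [this, le_bot_iff]

/-- the number of comparisons of one round -/
def roundCost (n : ℕ) : ℕ := n + 2 * (n + 1) ^ 2

theorem can_choice_aux (hcmp : ∀ y y', Can ans P 1 (fun ω b => (b = true ↔ g ω y ≤ g ω y')))
    (hA : ∀ ω, P ω → CondA (g ω)) (hM : ∀ ω, P ω → MNat (g ω)) (z : V → ℤ) :
    ∀ (t : ℕ) (l h : V → ℤ), 0 ≤ l → h ≤ z →
      (∏ v, (h v - l v + 1).toNat) * (2 * Fintype.card V - 1) ^ t < (2 * Fintype.card V) ^ t →
      Can ans (fun ω => P ω ∧ ∃ y, IsChoice (g ω) z y ∧ l ≤ y ∧ y ≤ h)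
        (t * roundCost (Fintype.card V)) (fun ω y => IsChoice (g ω) z y) := by
  classical
  have hn : 0 < Fintype.card V := Fintype.card_pos
  set n := Fintype.card V with hnn
  intro t
  induction t with
  | zero =>
    intro l h hl hz hpot
    refine Can.absurd (fun ω hω => ?_)
    obtain ⟨-, y, -, h1, h2⟩ := hω
    simp only [pow_zero, mul_one, Nat.lt_one_iff, Finset.prod_eq_zero_iff, Finset.mem_univ,
      true_and] at hpot
    obtain ⟨v, hv⟩ := hpot
    have h3 : l v ≤ y v := h1 v
    have h4 : y v ≤ h v := h2 v
    omega
  | succ t ih =>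
    intro l h hl hz hpot
    by_cases hlh : l ≤ h
    swap
    · exact Can.absurd (fun ω ⟨_, y, _, h1, h2⟩ => hlh (h1.trans h2))
    have hlh' : ∀ v, l v ≤ h v := fun v => hlh v
    set s : V → ℕ := fun v => (h v - l v + 1).toNat with hs
    set a : V → ℤ := fun v => (h v - l v + 1) / 2 with ha
    have ha0 : 0 ≤ a := by
      intro v
      have := hlh' v
      change 0 ≤ (h v - l v + 1) / 2
      omega
    have ha1 : ∀ v, 2 * a v ≤ h v - l v + 1 := by intro v; simp only [ha]; omega
    have ha2 : ∀ v, h v - l v ≤ 2 * a v := by intro v; simp only [ha]; omega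
    -- potential bookkeeping
    have hpot' : ∀ (l' h' : V → ℤ) (w : V), (∀ v, v ≠ w → l' v = l v ∧ h' v = h v) →
        (h' w - l' w + 1).toNat * (2 * n) ≤ s w * (2 * n - 1) →
        (∏ v, (h' v - l' v + 1).toNat) * (2 * n - 1) ^ t < (2 * n) ^ t := by
      intro l' h' w hoff hw
      have h1 := prod_cut s (fun v => (h' v - l' v + 1).toNat) w (2 * n) (2 * n - 1)
        (fun v hv => by simp only [hs]; rw [(hoff v hv).1, (hoff v hv).2]) hw
      have h2 : ((∏ v, (h' v - l' v + 1).toNat) * (2 * n - 1) ^ t) * (2 * n) <
          (2 * n) ^ t * (2 * n) := by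
        calc ((∏ v, (h' v - l' v + 1).toNat) * (2 * n - 1) ^ t) * (2 * n)
            = ((∏ v, (h' v - l' v + 1).toNat) * (2 * n)) * (2 * n - 1) ^ t := by ring
          _ ≤ ((∏ v, s v) * (2 * n - 1)) * (2 * n - 1) ^ t := Nat.mul_le_mul_right _ h1
          _ = (∏ v, s v) * (2 * n - 1) ^ (t + 1) := by ring
          _ < (2 * n) ^ (t + 1) := hpot
          _ = _ := by ring
      exact lt_of_mul_lt_mul_right h2 (Nat.zero_le _)
    -- first the membership tests
    have hc : (t + 1) * roundCost n = n + (2 * (n + 1) ^ 2 + t * roundCost n) := by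
      simp only [roundCost]; ring
    rw [hc]
    refine Can.bind (c := n) (S := fun ω (r : V → Bool) => ∀ v, (r v = true ↔
      g ω (l + a v • unit (some v)) = ⊥)) ?_ (fun r => ?_)
    · have := Can.all (ans := ans) (P := P) (c := 1) (ι := V)
        (S := fun v ω b => (b = true ↔ g ω (l + a v • unit (some v)) = ⊥))
        (fun v => can_mem hcmp hA _)
      exact this.mono (fun ω h => h.1) (by simp [hnn]) (fun ω r _ h => h)
    by_cases hr : ∃ v, r v = true
    · obtain ⟨w, hw⟩ := hr
      -- the upper bound at `w` can be lowered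
      set h' : V → ℤ := Function.update h w (l w + a w - 1) with hh'
      have hh'w : h' w = l w + a w - 1 := by rw [hh']; simp
      have hh'o : ∀ v, v ≠ w → h' v = h v := by
        intro v hv; rw [hh']; simp [hv]
      refine (ih l h' hl ?_ ?_).mono ?_ (by omega) (fun _ _ _ h => h)
      · intro v
        change h' v ≤ z v
        have h1 : h v ≤ z v := hz v
        by_cases hv : v = w
        · subst hv; rw [hh'w]; have := ha1 v; have := hlh' v; omega
        · rw [hh'o v hv]; exact h1
      · apply hpot' l h' w (fun v hv => ⟨rfl, hh'o v hv⟩)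
        rw [hh'w]
        have h1 := ha1 w
        have h2 := hlh' w
        have h3 : 0 ≤ a w := ha0 w
        have e1 : (l w + a w - 1 - l w + 1).toNat = (a w).toNat := by congr 1; ring
        rw [e1]
        have h4 : 2 * (a w).toNat ≤ s w := by simp only [hs]; omega
        calc (a w).toNat * (2 * n) = (2 * (a w).toNat) * n := by ring
          _ ≤ s w * n := Nat.mul_le_mul_right _ h4
          _ ≤ s w * (2 * n - 1) := Nat.mul_le_mul_left _ (by omega)
      · rintro ω ⟨⟨hP, y, hy, h1, h2⟩, h3⟩
        refine ⟨hP, y, hy, h1, ?_⟩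
        intro v
        change y v ≤ h' v
        have h2' : ∀ v, y v ≤ h v := fun v => h2 v
        have h1' : ∀ v, l v ≤ y v := fun v => h1 v
        by_cases hv : v = w
        · subst hv
          rw [hh'w]
          by_contra hcon
          have h4 := (h3 v).1 hw
          refine (hA ω hP).hereditary y _ hy.1 ?_ ?_ h4
          · exact add_nonneg hl (smul_nonneg (ha0 v) (unit_nonneg _))
          · intro u
            change l u + a v • unit (some v) u ≤ y u
            have := h1' u
            rw [unit_apply_some]
            by_cases hu : u = v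
            · subst hu; simp only [if_true, smul_eq_mul, mul_one]; omega
            · simp only [if_neg hu, smul_zero]; omega
        · rw [hh'o v hv]; exact h2' v
    · push Not at hr
      -- the central point
      set x : V → ℤ := fun v => l v + a v / (n : ℤ) with hx
      have hn' : (0 : ℤ) < n := by exact_mod_cast hn
      have han0 : ∀ v, 0 ≤ a v / (n : ℤ) := fun v => Int.ediv_nonneg (ha0 v) hn'.le
      have hane : ∀ v, a v / (n : ℤ) ≤ a v := fun v =>
        Int.ediv_le_self _ (ha0 v)
      have han1 : ∀ v, n * (a v / (n : ℤ)) ≤ a v := fun v => Int.mul_ediv_self_le hn'.ne'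
      have han2 : ∀ v, a v < n * (a v / (n : ℤ) + 1) := by
        intro v
        have := Int.lt_ediv_add_one_mul_self (a v) hn'
        linarith [mul_comm (a v / (n : ℤ) + 1) (n : ℤ)]
      have hlx : l ≤ x := by
        intro v
        change l v ≤ l v + a v / (n : ℤ)
        have := han0 v; omega
      have hxh : x ≤ h := by
        intro v
        change l v + a v / (n : ℤ) ≤ h v
        have := hane v; have := ha1 v; have := hlh' v
        by_cases h0 : a v = 0
        · rw [h0]; simp; omega
        · omega
      have hgx : ∀ ω, ((P ω ∧ ∃ y, IsChoice (g ω) z y ∧ l ≤ y ∧ y ≤ h) ∧ ∀ v, (r v = true ↔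
          g ω (l + a v • unit (some v)) = ⊥)) → g ω x ≠ ⊥ := by
        rintro ω ⟨⟨hP, y, hy, h1, h2⟩, h3⟩
        have hgl : g ω l ≠ ⊥ := (hA ω hP).hereditary y l hy.1 hl h1
        have := center_mem (hM ω hP) hgl ha0 (fun v h4 => by
          have := (h3 v).2 h4
          exact absurd this (hr v)) Finset.univ
        simpa [hx, hnn] using this
      -- the candidates
      set cand : List (V → ℤ) := ((Finset.univ : Finset (Option V × Option V)).toList.map
        (fun p => x - unit p.1 + unit p.2)).filter (fun y => decide (l ≤ y ∧ y ≤ h)) with hcand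
      have hclen : cand.length ≤ (n + 1) ^ 2 := by
        refine (List.length_filter_le _ _).trans ?_
        rw [List.length_map, Finset.length_toList, Finset.card_univ, Fintype.card_prod,
          Fintype.card_option, ← hnn, sq]
      have hcm : ∀ y, y ∈ cand ↔ (∃ u v : Option V, x - unit u + unit v = y) ∧ l ≤ y ∧ y ≤ h := by
        intro y
        rw [hcand, List.mem_filter, List.mem_map]
        simp only [Finset.mem_toList, Finset.mem_univ, true_and, Prod.exists, decide_eq_true_eq]
      refine Can.bind (c := 2 * (n + 1) ^ 2) (((can_best hcmp cand x).pre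
        (fun ω h => h.1.1)).le (by omega)) (fun x1 => ?_)
      by_cases hx1 : x1 = x
      · refine (Can.ret x ?_).le (Nat.zero_le _)
        rintro ω ⟨hω, hmem, hbest⟩
        have hgx' := hgx ω hω
        obtain ⟨⟨hP, y, hy, h1, h2⟩, h3⟩ := hω
        rw [hx1] at hbest
        have hb : LocalBest (g ω) l h x x := by
          intro u v h4 h5
          apply hbest
          rw [List.mem_cons]
          right
          rw [hcm]
          exact ⟨⟨u, v, rfl⟩, h4, h5⟩
        rw [opt_of_local (hM ω hP) hz hy h1 h2 hlx hxh hgx' hb]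
        exact hy
      · by_cases hx1c : x1 ∈ cand
        swap
        · refine Can.absurd (fun ω hω => ?_)
          have := hω.2.1
          rw [List.mem_cons] at this
          exact this.elim hx1 hx1c
        obtain ⟨⟨u, v, huv⟩, hl1, hh1⟩ := (hcm x1).1 hx1c
        subst huv
        have hne : u ≠ v := by
          rintro rfl; apply hx1; abel
        have hfacts : ∀ ω, (((P ω ∧ ∃ y, IsChoice (g ω) z y ∧ l ≤ y ∧ y ≤ h) ∧
            ∀ v, (r v = true ↔ g ω (l + a v • unit (some v)) = ⊥)) ∧
            (x - unit u + unit v ∈ x :: cand ∧ ∀ y ∈ x :: cand,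
              key (g ω) y ≤ key (g ω) (x - unit u + unit v))) →
            g ω (x - unit u + unit v) ≠ ⊥ ∧ LocalBest (g ω) l h x (x - unit u + unit v) := by
          rintro ω ⟨hω, hmem, hbest⟩
          have hgx' := hgx ω hω
          constructor
          · intro h0
            have h4 := val_le_of_key_le (hbest x (by simp))
            rw [h0, le_bot_iff] at h4
            exact hgx' h4
          · intro u' v' h4 h5
            apply hbest
            rw [List.mem_cons]
            right
            rw [hcm]
            exact ⟨⟨u', v', rfl⟩, h4, h5⟩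
        cases v with
        | some w =>
          set l' : V → ℤ := Function.update l w (x w + 1) with hl'
          have hl'w : l' w = x w + 1 := by rw [hl']; simp
          have hl'o : ∀ v, v ≠ w → l' v = l v := by
            intro v hv; rw [hl']; simp [hv]
          refine (ih l' h ?_ hz ?_).mono ?_ le_rfl (fun _ _ _ h => h)
          · intro v
            change 0 ≤ l' v
            have h1 : 0 ≤ l v := hl v
            by_cases hv : v = w
            · subst hv; rw [hl'w]
              have h2 : l v ≤ x v := hlx v
              omega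
            · rw [hl'o v hv]; exact h1
          · apply hpot' l' h w (fun v hv => ⟨hl'o v hv, rfl⟩)
            rw [hl'w]
            have e1 : h w - (x w + 1) + 1 = h w - l w - a w / (n : ℤ) := by
              simp only [hx]; ring
            rw [e1]
            have h1 := han2 w
            have h2 := ha2 w
            have h3 := hlh' w
            have h4 := han0 w
            -- `s ≤ 2 n (1 + a / n)`
            have h5 : ((s w : ℕ) : ℤ) = h w - l w + 1 := by simp only [hs]; omega
            have h6 : h w - l w + 1 ≤ 2 * n * (1 + a w / (n : ℤ)) := by nlinarith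
            have h7 : ((h w - l w - a w / (n : ℤ)).toNat : ℤ) ≤ h w - l w - a w / (n : ℤ) ∨
                (h w - l w - a w / (n : ℤ)).toNat = 0 := by omega
            rcases h7 with h7 | h7
            · have h8 : (((h w - l w - a w / (n : ℤ)).toNat * (2 * n) : ℕ) : ℤ) ≤
                  ((s w * (2 * n - 1) : ℕ) : ℤ) := by
                push_cast [Nat.cast_sub (show 1 ≤ 2 * n by omega)]
                rw [h5]
                nlinarith
              exact_mod_cast h8
            · rw [h7, zero_mul]; exact Nat.zero_le _
          · rintro ω hω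
            obtain ⟨hg1, hb⟩ := hfacts ω hω
            obtain ⟨⟨⟨hP, y, hy, h1, h2⟩, h3⟩, hmem, hbest⟩ := hω
            refine ⟨hP, y, hy, ?_, h2⟩
            have hcut := cut_lower (hM ω hP) hz hy h1 h2 hlx hxh hne hg1 hl1 hh1 hb
            intro v
            change l' v ≤ y v
            by_cases hv : v = w
            · subst hv; rw [hl'w]; omega
            · rw [hl'o v hv]; exact h1 v
        | none =>
          cases u with
          | none => exact absurd rfl hne
          | some w =>
            set h' : V → ℤ := Function.update h w (x w - 1) with hh'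
            have hh'w : h' w = x w - 1 := by rw [hh']; simp
            have hh'o : ∀ v, v ≠ w → h' v = h v := by
              intro v hv; rw [hh']; simp [hv]
            refine (ih l h' hl ?_ ?_).mono ?_ le_rfl (fun _ _ _ h => h)
            · intro v
              change h' v ≤ z v
              have h1 : h v ≤ z v := hz v
              by_cases hv : v = w
              · subst hv; rw [hh'w]
                have h2 : x v ≤ h v := hxh v
                omega
              · rw [hh'o v hv]; exact h1
            · apply hpot' l h' w (fun v hv => ⟨rfl, hh'o v hv⟩)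
              rw [hh'w]
              have e1 : x w - 1 - l w + 1 = a w / (n : ℤ) := by
                simp only [hx]; ring
              rw [e1]
              have h1 := han1 w
              have h2 := ha1 w
              have h3 := hlh' w
              have h4 := han0 w
              have h5 : ((s w : ℕ) : ℤ) = h w - l w + 1 := by simp only [hs]; omega
              have h8 : (((a w / (n : ℤ)).toNat * (2 * n) : ℕ) : ℤ) ≤
                  ((s w * (2 * n - 1) : ℕ) : ℤ) := by
                push_cast [Nat.cast_sub (show 1 ≤ 2 * n by omega), Int.toNat_of_nonneg h4]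
                rw [h5]
                have h6 : (1 : ℤ) ≤ n := by exact_mod_cast hn
                nlinarith
              exact_mod_cast h8
            · rintro ω hω
              obtain ⟨hg1, hb⟩ := hfacts ω hω
              obtain ⟨⟨⟨hP, y, hy, h1, h2⟩, h3⟩, hmem, hbest⟩ := hω
              refine ⟨hP, y, hy, h1, ?_⟩
              have hcut := cut_upper (hM ω hP) hz hy h1 h2 hlx hxh (Ne.symm hne) hg1 hl1 hh1 hb
              intro v
              change y v ≤ h' v
              by_cases hv : v = w
              · subst hv; rw [hh'w]; omega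
              · rw [hh'o v hv]; exact h2 v

/-- the number of comparisons for one choice from a box of side at most `B` -/
def choiceCost (n B : ℕ) : ℕ := (2 * n * (n * (Nat.log 2 (B + 1) + 1))) * roundCost n

/-- **Maximization**: the choice from a box can be found with polynomially many comparisons. -/
theorem can_choice (hcmp : ∀ y y', Can ans P 1 (fun ω b => (b = true ↔ g ω y ≤ g ω y')))
    (hA : ∀ ω, P ω → CondA (g ω)) (hM : ∀ ω, P ω → MNat (g ω)) (B : ℕ) (z : V → ℤ)
    (hz0 : 0 ≤ z) (hzB : ∀ v, z v ≤ B) :
    Can ans P (choiceCost (Fintype.card V) B) (fun ω y => IsChoice (g ω) z y) := by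
  have hn : 0 < Fintype.card V := Fintype.card_pos
  refine (can_choice_aux hcmp hA hM z _ 0 z le_rfl le_rfl ?_).pre (fun ω hP => ?_)
  · have h1 : ∏ v, (z v - (0 : V → ℤ) v + 1).toNat ≤ (B + 1) ^ (Fintype.card V) := by
      rw [← Finset.card_univ, ← Finset.prod_const]
      apply Finset.prod_le_prod' 
      intro v _
      have h2 := hzB v
      have h3 : 0 ≤ z v := hz0 v
      simp only [Pi.zero_apply]
      omega
    have h2 : (B + 1) ^ (Fintype.card V) <
        2 ^ (Fintype.card V * (Nat.log 2 (B + 1) + 1)) := by
      rw [mul_comm, pow_mul]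
      exact Nat.pow_lt_pow_left (Nat.lt_pow_succ_log_self (by norm_num) _) hn.ne'
    have h3 := pot_bound (2 * Fintype.card V - 1) _ _ (lt_of_le_of_lt h1 h2)
    have e1 : 2 * Fintype.card V - 1 + 1 = 2 * Fintype.card V := by omega
    rw [e1] at h3
    exact h3
  · obtain ⟨y, hy⟩ := exists_choice (hA ω hP) hz0
    exact ⟨hP, y, hy, (hA ω hP).nonneg y hy.1, hy.2.1⟩

end

end Pool.Agent.Helper250_Alloc
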