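import Pool.Agent.Helper250_Alloc.OneVal

/-!
Stable allocations of the instance with one nonlinear agent give stable allocations of the original
instance.
-/

set_option autoImplicit false
set_option linter.unusedVariables false
set_option linter.unusedSectionVars false

namespace Pool.Agent.Helper250_Alloc

section
variable {M W : Type} [Fintype M] [DecidableEq M] [Fintype W] [DecidableEq W]
variable {B : ℤ} {K K' : ℝ} {fM : M → (W → ℤ) → WithBot ℝ} {fW : W → (M → ℤ) → WithBot ℝ}

/-- the output port of a wire -/
def out (c : Bool × (M × W)) : Port M W := (c.1, (c.2, false))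

/-- the input port of a wire -/
def inn (c : Bool × (M × W)) : Port M W := (!c.1, (c.2, true))

theorem wire_out (c : Bool × (M × W)) : wire (out c) = c := rfl

theorem wire_inn (c : Bool × (M × W)) : wire (inn c) = c := by
  obtain ⟨k, e⟩ := c
  simp [inn, wire]

theorem out_ne_inn (c : Bool × (M × W)) : out c ≠ inn c := by
  obtain ⟨k, e⟩ := c
  simp [out, inn]

theorem port_cases {c : Bool × (M × W)} {p : Port M W} (h : wire p = c) :
    p = out c ∨ p = inn c := by
  obtain ⟨k, e, κ⟩ := p
  subst h
  cases κ
  · left; rfl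
  · right; simp [wire, inn]

theorem oneM_condA (hB : 0 ≤ B) (hAM : ∀ i, CondA (fM i)) (hAW : ∀ j, CondA (fW j))
    (m : Man M W) : CondA (oneM B K K' fM fW m) := by
  cases m with
  | none => exact bigMan_condA hB hAM hAW
  | some c => exact linq_condA (fun p => by split_ifs <;> omega) hB

theorem oneM_mnat (hAM : ∀ i, CondA (fM i)) (hMM : ∀ i, MNat (fM i))
    (hAW : ∀ j, CondA (fW j)) (hMW : ∀ j, MNat (fW j))
    (hK : ∀ i w, fM i (unit (some w)) ≤ fM i 0 + (K : WithBot ℝ)) (m : Man M W) :
    MNat (oneM B K K' fM fW m) := by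
  cases m with
  | none => exact bigMan_mnat hAM hMM hAW hMW hK
  | some c => exact linq_mnat

theorem oneW_condA (hB : 0 ≤ B) (p : Port M W) : CondA (oneW B p) := by
  refine linq_condA (fun m => ?_) hB
  split_ifs <;> omega

theorem oneW_mnat (p : Port M W) : MNat (oneW B p) := linq_mnat

theorem oneM_bound (hB : 0 ≤ B) (hAW : ∀ j, CondA (fW j)) (m : Man M W) (y : Port M W → ℤ)
    (hy : oneM B K K' fM fW m y ≠ ⊥) (p : Port M W) : y p ≤ B := by
  cases m with
  | none =>
    obtain ⟨h1, h2⟩ := (bigMan_ne_bot (K := K) (K' := K') hAW).1 hy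
    obtain ⟨k, q⟩ := p
    cases k
    · exact (h1.1 q).2
    · exact (h2.1 q).2
  | some c =>
    have h := ((linq_dom hy).1 p).2
    refine h.trans ?_
    split_ifs <;> omega

/-! ### The wires -/

section stab
variable {x : Man M W → Port M W → ℤ} (hx : Stable (oneM B K K' fM fW) (oneW B) x)

include hx

theorem wire_zero {c : Bool × (M × W)} {p : Port M W} (h : wire p ≠ c) : x (some c) p = 0 := by
  have h1 := (linq_dom (hx.1.1 (some c))).1 p
  rw [if_neg h] at h1
  omega

theorem wire_bounds (c : Bool × (M × W)) {p : Port M W} (h : wire p = c) :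
    0 ≤ x (some c) p ∧ x (some c) p ≤ B := by
  have h1 := (linq_dom (hx.1.1 (some c))).1 p
  rw [if_pos h] at h1
  exact h1

theorem wire_sum (c : Bool × (M × W)) : ∑ p, x (some c) p = x (some c) (out c) + x (some c) (inn c) := by
  apply Fintype.sum_eq_add _ _ (out_ne_inn c)
  rintro p ⟨h1, h2⟩
  apply wire_zero hx
  intro h
  rcases port_cases h with h | h
  · exact h1 h
  · exact h2 h

theorem wire_tot (c : Bool × (M × W)) : x (some c) (out c) + x (some c) (inn c) ≤ B := by
  have h := (linq_dom (hx.1.1 (some c))).2
  rwa [wire_sum hx c] at h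

theorem woman_sum (p : Port M W) : ∑ m, x m p = x none p + x (some (wire p)) p := by
  apply Fintype.sum_eq_add _ _ (by simp)
  rintro m ⟨h1, h2⟩
  cases m with
  | none => exact absurd rfl h1
  | some c =>
    apply wire_zero hx
    intro h
    apply h2
    rw [h]

theorem woman_tot (p : Port M W) : x none p + x (some (wire p)) p ≤ B := by
  have h := (linq_dom (hx.1.2 p)).2
  rwa [woman_sum hx p] at h

theorem man_bounds (p : Port M W) : 0 ≤ x none p ∧ x none p ≤ B := by
  have h := (linq_dom (hx.1.2 p)).1 none
  simp only [reduceCtorEq, false_imp_iff, implies_true, if_true] at h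
  exact h

theorem wire_val_out (c : Bool × (M × W)) : x (some c) (out c) = B - x none (out c) := by
  have h1 := woman_tot hx (out c)
  rw [wire_out] at h1
  by_contra hcon
  have hlt : x (some c) (out c) + x none (out c) < B := by omega
  have hy := man_bounds hx (out c)
  have hP := wire_bounds hx c (wire_out c)
  have hQ := wire_bounds hx c (wire_inn c)
  have ht := wire_tot hx c
  refine no_block hx (i := some c) (j := out c) ?_ ?_
  · by_cases hc : x (some c) (out c) + x (some c) (inn c) < B
    · refine linq_add (hx.1.1 (some c)) ?_ ?_ ?_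
      · rw [if_pos (wire_out c)]; omega
      · rw [wire_sum hx c]; omega
      · simp [out]
    · refine linq_swap (hx.1.1 (some c)) (out_ne_inn c) ?_ ?_ ?_
      · rw [if_pos (wire_out c)]; omega
      · omega
      · simp [out, inn]
  · refine linq_add (hx.1.2 (out c)) ?_ ?_ ?_
    · have : ∀ c', some c = some c' → wire (out c) = c' := by
        intro c' hc'; cases hc'; rfl
      rw [if_pos this]; omega
    · rw [woman_sum hx (out c), wire_out]; omega
    · simp [out]

theorem wire_val_inn (c : Bool × (M × W)) : x (some c) (inn c) = x none (out c) := by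
  have h0 := wire_val_out hx c
  have h1 := woman_tot hx (inn c)
  rw [wire_inn] at h1
  have hy := man_bounds hx (out c)
  have hy2 := man_bounds hx (inn c)
  have hP := wire_bounds hx c (wire_out c)
  have hQ := wire_bounds hx c (wire_inn c)
  have ht := wire_tot hx c
  by_contra hcon
  have hcap : ∀ c', some c = some c' → wire (inn c) = c' := by
    intro c' hc'; cases hc'; exact wire_inn c
  refine no_block hx (i := some c) (j := inn c) ?_ ?_
  · refine linq_add (hx.1.1 (some c)) ?_ ?_ ?_
    · rw [if_pos (wire_inn c)]; omega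
    · rw [wire_sum hx c]; omega
    · simp [inn]
  · by_cases hc : x none (inn c) + x (some c) (inn c) < B
    · refine linq_add (hx.1.2 (inn c)) ?_ ?_ ?_
      · rw [if_pos hcap]; omega
      · rw [woman_sum hx (inn c), wire_inn]; omega
      · simp [inn]
    · refine linq_swap (v := none) (hx.1.2 (inn c)) (by simp) ?_ ?_ ?_
      · rw [if_pos hcap]; omega
      · omega
      · simp [inn]

theorem inn_le (c : Bool × (M × W)) : x none (inn c) ≤ B - x none (out c) := by
  have h1 := woman_tot hx (inn c)
  rw [wire_inn, wire_val_inn hx c] at h1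
  omega

theorem woman_out {c : Bool × (M × W)} (h : x none (out c) < B) :
    Improves (oneW B (out c)) (fun m => x m (out c)) none := by
  have h0 := wire_val_out hx c
  have hcap : ∀ c', (none : Man M W) = some c' → wire (out c) = c' := by
    intro c' hc'; simp at hc'
  refine linq_swap (v := some c) (hx.1.2 (out c)) (by simp) ?_ ?_ ?_
  · rw [if_pos hcap]; omega
  · omega
  · simp [out]

theorem woman_inn {c : Bool × (M × W)} (h : x none (inn c) < B - x none (out c)) :
    Improves (oneW B (inn c)) (fun m => x m (inn c)) none := by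
  have h0 := wire_val_inn hx c
  have hy := man_bounds hx (out c)
  have hcap : ∀ c', (none : Man M W) = some c' → wire (inn c) = c' := by
    intro c' hc'; simp at hc'
  refine linq_add (hx.1.2 (inn c)) ?_ ?_ ?_
  · rw [if_pos hcap]; omega
  · rw [woman_sum hx (inn c), wire_inn]; omega
  · simp [inn]

end stab

/-! ### The nonlinear man -/

/-- replace one block -/
def upd (k : Bool) (z : (M × W) × Bool → ℤ) (y : Port M W → ℤ) : Port M W → ℤ :=
  fun p => if p.1 = k then z p.2 else y p

theorem upd_same (k : Bool) (z : (M × W) × Bool → ℤ) (y : Port M W → ℤ) :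
    (fun q => upd k z y (k, q)) = z := by
  funext q; simp [upd]

theorem upd_false (z : (M × W) × Bool → ℤ) (y : Port M W → ℤ) :
    (fun q => upd false z y (true, q)) = fun q => y (true, q) := by
  funext q; simp [upd]

theorem upd_true (z : (M × W) × Bool → ℤ) (y : Port M W → ℤ) :
    (fun q => upd true z y (false, q)) = fun q => y (false, q) := by
  funext q; simp [upd]

theorem big_lt_M (hAW : ∀ j, CondA (fW j)) {y : Port M W → ℤ} {z : (M × W) × Bool → ℤ}
    (hy : bigMan B K K' fM fW y ≠ ⊥) (hz : domM B fM z)
    (hlt : valM B K fM (fun q => y (false, q)) < valM B K fM z) :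
    bigMan B K K' fM fW y < bigMan B K K' fM fW (upd false z y) := by
  obtain ⟨h1, h2⟩ := (bigMan_ne_bot hAW).1 hy
  rw [bigMan_of_dom hAW h1 h2, bigMan_of_dom hAW (by rw [upd_same]; exact hz)
    (by rw [upd_false]; exact h2), WithBot.coe_lt_coe, upd_same, upd_false]
  linarith

theorem big_lt_W (hAW : ∀ j, CondA (fW j)) {y : Port M W → ℤ} {z : (M × W) × Bool → ℤ}
    (hy : bigMan B K K' fM fW y ≠ ⊥) (hz : domW B z)
    (hlt : valW B K' fW (fun q => y (true, q)) < valW B K' fW z) :
    bigMan B K K' fM fW y < bigMan B K K' fM fW (upd true z y) := by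
  obtain ⟨h1, h2⟩ := (bigMan_ne_bot hAW).1 hy
  rw [bigMan_of_dom hAW h1 h2, bigMan_of_dom hAW (by rw [upd_true]; exact h1)
    (by rw [upd_same]; exact hz), WithBot.coe_lt_coe, upd_same, upd_true]
  linarith

theorem upd_improves {k : Bool} {y : Port M W → ℤ} {z : (M × W) × Bool → ℤ}
    (hlt : bigMan B K K' fM fW y < bigMan B K K' fM fW (upd k z y))
    {q : (M × W) × Bool} (h1 : z q = y (k, q) + 1) (h2 : ∀ w, w ≠ q → z w ≤ y (k, w)) :
    Improves (bigMan B K K' fM fW) y (k, q) := by
  refine ⟨upd k z y, hlt, ?_, ?_⟩
  · simp only [upd, if_true]; exact h1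
  · rintro ⟨k', w⟩ hw
    simp only [upd]
    split_ifs with hk
    · subst hk
      exact h2 w (fun h => hw (by rw [h]))
    · exact le_rfl

theorem upd_le {k : Bool} {y : Port M W → ℤ} {z : (M × W) × Bool → ℤ}
    (h : ∀ w, z w ≤ y (k, w)) : upd k z y ≤ y := by
  rintro ⟨k', w⟩
  simp only [upd]
  split_ifs with hk
  · subst hk; exact h w
  · exact le_rfl

/-- moving units inside one group of the first block, above `B` -/
theorem valM_group {y z : (M × W) × Bool → ℤ} (i : M)
    (h1 : ∀ e : M × W, e.1 ≠ i → both z e = both y e)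
    (h2 : ∀ j, B ≤ both y (i, j)) (h3 : ∀ j, B ≤ both z (i, j))
    (h4 : ∀ e, z (e, true) = y (e, true)) :
    valM B K fM z - valM B K fM y = rv (fM i) (fun j => both z (i, j) - B) -
      rv (fM i) (fun j => both y (i, j) - B) := by
  have e1 : ∑ e, (K * ((min (both z e) B : ℤ) : ℝ) + (z (e, true) : ℝ)) =
      ∑ e, (K * ((min (both y e) B : ℤ) : ℝ) + (y (e, true) : ℝ)) := by
    refine Finset.sum_congr rfl (fun e _ => ?_)
    rw [h4 e]
    by_cases he : e.1 = i
    · obtain ⟨i', j⟩ := e
      simp only at he
      subst he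
      rw [min_eq_right (h2 j), min_eq_right (h3 j)]
    · rw [h1 e he]
  have e2 : ∀ i', i' ≠ i → (fun j => above B (both z) (i', j)) =
      fun j => above B (both y) (i', j) := by
    intro i' hi'
    funext j
    simp only [above]
    rw [h1 (i', j) hi']
  have e3 : (fun j => above B (both z) (i, j)) = fun j => both z (i, j) - B := by
    funext j; have := h3 j; simp only [above]; omega
  have e4 : (fun j => above B (both y) (i, j)) = fun j => both y (i, j) - B := by
    funext j; have := h2 j; simp only [above]; omega
  rw [valM, valM, e1, add_sub_add_right_eq_sub, ← Finset.sum_sub_distrib,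
    Finset.sum_eq_single i]
  · rw [e3, e4]
  · intro i' _ hi'; rw [e2 i' hi', sub_self]
  · intro h; exact absurd (Finset.mem_univ i) h

theorem domM_group {y z : (M × W) × Bool → ℤ} (hy : domM B fM y) (i : M)
    (h0 : ∀ q, 0 ≤ z q ∧ z q ≤ B)
    (h1 : ∀ e : M × W, e.1 ≠ i → both z e = both y e)
    (h3 : ∀ j, B ≤ both z (i, j))
    (h4 : fM i (fun j => both z (i, j) - B) ≠ ⊥) : domM B fM z := by
  refine ⟨h0, fun i' => ?_⟩
  by_cases hi : i' = i
  · subst hi
    have e3 : (fun j => above B (both z) (i', j)) = fun j => both z (i', j) - B := by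
      funext j; have := h3 j; simp only [above]; omega
    rw [e3]; exact h4
  · have : (fun j => above B (both z) (i', j)) = fun j => above B (both y) (i', j) := by
      funext j
      simp only [above]
      rw [h1 (i', j) hi]
    rw [this]; exact hy.2 i'

/-- moving units inside one group of the second block -/
theorem valW_group {y z : (M × W) × Bool → ℤ} (j : W)
    (h1 : ∀ e : M × W, e.2 ≠ j → both z e = both y e) :
    valW B K fW z - valW B K fW y = rv (disp (fW j)) (fun i => B - both z (i, j)) -
      rv (disp (fW j)) (fun i => B - both y (i, j)) + K * ∑ e, ((z (e, true) - y (e, true) : ℤ) : ℝ) := by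
  have e2 : ∀ j', j' ≠ j → (fun i => B - both z (i, j')) = fun i => B - both y (i, j') := by
    intro j' hj'
    funext i
    rw [h1 (i, j') hj']
  have e3 : ∑ e, K * (z (e, true) : ℝ) = ∑ e, K * (y (e, true) : ℝ) +
      K * ∑ e, ((z (e, true) - y (e, true) : ℤ) : ℝ) := by
    rw [Finset.mul_sum, ← Finset.sum_add_distrib]
    refine Finset.sum_congr rfl (fun e _ => ?_)
    push_cast; ring
  have e4 : ∑ j, rv (disp (fW j)) (fun i => B - both z (i, j)) -
      ∑ j, rv (disp (fW j)) (fun i => B - both y (i, j)) =
      rv (disp (fW j)) (fun i => B - both z (i, j)) -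
      rv (disp (fW j)) (fun i => B - both y (i, j)) := by
    rw [← Finset.sum_sub_distrib, Finset.sum_eq_single j]
    · intro j' _ hj'; rw [e2 j' hj', sub_self]
    · intro h; exact absurd (Finset.mem_univ j) h
  rw [valW, valW, e3]
  linarith

end

end Pool.Agent.Helper250_Alloc
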