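import Pool.Agent.Helper250_Alloc.One

/-!
Stable allocations of the instance with one nonlinear agent give stable allocations of the original
instance: the analysis of the nonlinear man.
-/

set_option autoImplicit false
set_option linter.unusedVariables false
set_option linter.unusedSectionVars false

namespace Pool.Agent.Helper250_Alloc

theorem disp_marginal {U : Type} [Fintype U] [DecidableEq U] {g : (U → ℤ) → WithBot ℝ}
    (hg : CondA g) (hM : MNat g) {X : U → ℤ} {i : U} (hX : 0 ≤ X) (hi : 0 < X i) {K : ℝ}
    (hK0 : 0 < K) (hK : g (unit (some i)) < g 0 + (K : WithBot ℝ)) :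
    rv (disp g) X < rv (disp g) (X - unit (some i)) + K := by
  obtain ⟨y, hy0, hyx, hyd, hyv⟩ := rv_disp_spec hg hX
  by_cases hc : y i < X i
  · have h1 : y ≤ X - unit (some i) := by
      intro w
      change y w ≤ X w - unit (some i) w
      have hw0 : y w ≤ X w := hyx w
      rw [unit_apply_some]
      split_ifs with hw
      · subst hw; omega
      · omega
    have h2 := rv_disp_ge hg hyd h1
    rw [tot_sub, tot_unit] at h2
    linarith
  · have h0 : 0 < y i := by omega
    have h1 : y - unit (some i) ≤ X - unit (some i) := sub_le_sub_right hyx _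
    have h3 : (0 : U → ℤ) ≤ y - unit (some i) := by
      intro w
      change 0 ≤ y w - unit (some i) w
      have hw0 : 0 ≤ y w := hy0 w
      rw [unit_apply_some]
      split_ifs with hw
      · subst hw; omega
      · omega
    have h4 : g (y - unit (some i)) ≠ ⊥ := hg.hereditary _ _ hyd h3
      (sub_le_self _ (unit_nonneg _))
    have h2 := rv_disp_ge hg h4 h1
    rw [tot_sub, tot_sub, tot_unit] at h2
    have h5 : g (unit (some i)) ≠ ⊥ := by
      refine hg.hereditary _ _ hyd (unit_nonneg _) ?_
      intro w
      change unit (some i) w ≤ y w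
      rw [unit_apply_some]
      have hw0 : 0 ≤ y w := hy0 w
      split_ifs with hw
      · subst hw; omega
      · omega
    rw [← coe_rv h5, ← coe_rv hg.zero_mem, ← WithBot.coe_add, WithBot.coe_lt_coe] at hK
    have h6 := marginal_le hg hM (x := y - unit (some i)) (w := i) (K := rv g (unit (some i)) - rv g 0)
      (by rw [sub_add_cancel]; exact hyd) h4 (by
        rw [← coe_rv h5, ← coe_rv hg.zero_mem, ← WithBot.coe_add, WithBot.coe_le_coe]; linarith)
    rw [sub_add_cancel] at h6
    linarith

theorem exists_lt_of_ne {U : Type} {y X : U → ℤ} (h : y ≤ X) (hne : y ≠ X) : ∃ i, y i < X i := by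
  by_contra hcon
  push Not at hcon
  exact hne (le_antisymm h hcon)

section
variable {M W : Type} [Fintype M] [DecidableEq M] [Fintype W] [DecidableEq W]
variable {B : ℤ} {K K' : ℝ} {fM : M → (W → ℤ) → WithBot ℝ} {fW : W → (M → ℤ) → WithBot ℝ}

theorem box_swap {V : Type} [Fintype V] [DecidableEq V] {y : V → ℤ} (hy : ∀ q, 0 ≤ y q ∧ y q ≤ B) {p : V}
    {o : Option V} (h1 : y p + 1 ≤ B) (h2 : ∀ w, o = some w → w ≠ p ∧ 0 < y w) :
    ∀ q, 0 ≤ (y + unit (some p) - unit o) q ∧ (y + unit (some p) - unit o) q ≤ B := by
  intro q
  have hq := hy q
  change 0 ≤ y q + unit (some p) q - unit o q ∧ y q + unit (some p) q - unit o q ≤ B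
  by_cases ho : o = some q
  · obtain ⟨h3, h4⟩ := h2 q ho
    rw [ho, unit_apply_some, unit_apply_some, if_pos rfl, if_neg h3]
    omega
  · rw [unit_eq_zero ho, unit_apply_some]
    split_ifs with h
    · subst h; omega
    · omega

theorem box_down {V : Type} [Fintype V] [DecidableEq V] {y : V → ℤ} (hy : ∀ q, 0 ≤ y q ∧ y q ≤ B) {p : V}
    (h1 : 0 < y p) : ∀ q, 0 ≤ (y - unit (some p)) q ∧ (y - unit (some p)) q ≤ B := by
  intro q
  have hq := hy q
  change 0 ≤ y q - unit (some p) q ∧ y q - unit (some p) q ≤ B
  rw [unit_apply_some]
  split_ifs with h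
  · subst h; omega
  · omega

theorem swap_apply_self {V : Type} [Fintype V] [DecidableEq V] {y : V → ℤ} {p : V} {o : Option V}
    (h2 : ∀ w, o = some w → w ≠ p) : (y + unit (some p) - unit o) p = y p + 1 := by
  have : o ≠ some p := fun h => h2 p h rfl
  rw [Pi.sub_apply, Pi.add_apply, unit_eq_zero this, unit_apply_some, if_pos rfl, sub_zero]

theorem swap_apply_ne {V : Type} [Fintype V] [DecidableEq V] {y : V → ℤ} {p : V} {o : Option V} {w : V}
    (hw : w ≠ p) : (y + unit (some p) - unit o) w ≤ y w := by
  have h0 : 0 ≤ unit o w := unit_nonneg o w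
  rw [Pi.sub_apply, Pi.add_apply, unit_apply_some, if_neg hw]
  omega

/-- the value of the first block when the sums do not change -/
theorem valM_swap {y z : (M × W) × Bool → ℤ} (h : both z = both y) :
    valM B K fM z - valM B K fM y = ∑ e, ((z (e, true) - y (e, true) : ℤ) : ℝ) := by
  rw [valM, valM, h, add_sub_add_left_eq_sub, ← Finset.sum_sub_distrib]
  refine Finset.sum_congr rfl (fun e _ => ?_)
  push_cast; ring

/-- the value of the first block when one sum below `B` grows -/
theorem valM_low {y z : (M × W) × Bool → ℤ} {e : M × W} (h : both z = both y + unit (some e))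
    (hlt : both y e < B) :
    valM B K fM z - valM B K fM y = K + ∑ e, ((z (e, true) - y (e, true) : ℤ) : ℝ) := by
  have h1 : above B (both z) = above B (both y) := by
    funext w
    rw [h]
    simp only [above, Pi.add_apply, unit_apply_some]
    split_ifs with hw
    · subst hw; omega
    · simp
  have h2 : ∑ w, (K * ((min (both z w) B : ℤ) : ℝ) + (z (w, true) : ℝ)) -
      ∑ w, (K * ((min (both y w) B : ℤ) : ℝ) + (y (w, true) : ℝ)) =
      ∑ w, (if w = e then K else 0) + ∑ w, ((z (w, true) - y (w, true) : ℤ) : ℝ) := by
    rw [← Finset.sum_sub_distrib, ← Finset.sum_add_distrib]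
    refine Finset.sum_congr rfl (fun w _ => ?_)
    rw [h, Pi.add_apply, unit_apply_some]
    split_ifs with hw
    · subst hw
      rw [min_eq_left (by omega), min_eq_left (by omega)]
      push_cast; ring
    · rw [add_zero]; push_cast; ring
  rw [valM, valM, h1, add_sub_add_left_eq_sub, h2, Finset.sum_ite_eq' Finset.univ e,
    if_pos (Finset.mem_univ e)]

theorem sum_true_one (y : (M × W) × Bool → ℤ) (e : M × W) :
    ∑ w, (((y + unit (some (e, true))) (w, true) - y (w, true) : ℤ) : ℝ) = 1 := by
  rw [Finset.sum_eq_single e]
  · rw [Pi.add_apply, unit_apply_some, if_pos rfl]; push_cast; ring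
  · intro w _ hw
    rw [Pi.add_apply, unit_apply_some, if_neg (by simpa using hw)]; simp
  · intro h; exact absurd (Finset.mem_univ e) h

theorem sum_true_one' (y : (M × W) × Bool → ℤ) (e : M × W) :
    ∑ w, (((y + unit (some (e, true)) - unit (some (e, false))) (w, true) - y (w, true) : ℤ) : ℝ)
      = 1 := by
  rw [Finset.sum_eq_single e]
  · rw [Pi.sub_apply, Pi.add_apply, unit_apply_some, unit_apply_some, if_pos rfl,
      if_neg (by simp)]; push_cast; ring
  · intro w _ hw
    rw [Pi.sub_apply, Pi.add_apply, unit_apply_some, unit_apply_some,
      if_neg (by simpa using hw), if_neg (by simp)]; simp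
  · intro h; exact absurd (Finset.mem_univ e) h

section stab
variable {x : Man M W → Port M W → ℤ} (hx : Stable (oneM B K K' fM fW) (oneW B) x)
variable (hAW : ∀ j, CondA (fW j))

include hx hAW

theorem dom_one : domM B fM (fun q => x none (false, q)) ∧ domW B (fun q => x none (true, q)) :=
  (bigMan_ne_bot (K := K) (K' := K') hAW).1 (hx.1.1 none)

theorem no_improve_M {z : (M × W) × Bool → ℤ} (hz : domM B fM z)
    (hlt : valM B K fM (fun q => x none (false, q)) < valM B K fM z)
    {q : (M × W) × Bool} (h1 : z q = x none (false, q) + 1)
    (h2 : ∀ w, w ≠ q → z w ≤ x none (false, w))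
    (h3 : Improves (oneW B (false, q)) (fun m => x m (false, q)) none) : False :=
  no_block hx (i := none) (j := (false, q))
    (upd_improves (big_lt_M hAW (hx.1.1 none) hz hlt) h1 h2) h3

theorem no_improve_W {z : (M × W) × Bool → ℤ} (hz : domW B z)
    (hlt : valW B K' fW (fun q => x none (true, q)) < valW B K' fW z)
    {q : (M × W) × Bool} (h1 : z q = x none (true, q) + 1)
    (h2 : ∀ w, w ≠ q → z w ≤ x none (true, w))
    (h3 : Improves (oneW B (true, q)) (fun m => x m (true, q)) none) : False :=
  no_block hx (i := none) (j := (true, q))
    (upd_improves (big_lt_W hAW (hx.1.1 none) hz hlt) h1 h2) h3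

theorem full_M (hK0 : 0 < K) (e : M × W) :
    x none (false, (e, true)) = B - x none (true, (e, false)) := by
  have hle : x none (false, (e, true)) ≤ B - x none (true, (e, false)) := inn_le hx (true, e)
  by_contra hcon
  have hlt : x none (inn (true, e)) < B - x none (out (true, e)) := by
    change x none (false, (e, true)) < B - x none (true, (e, false))
    omega
  have hw := woman_inn hx hlt
  have hlt' : x none (false, (e, true)) < B - x none (true, (e, false)) := hlt
  have hb := man_bounds hx (true, (e, false))
  obtain ⟨d1, d2⟩ := dom_one hx hAW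
  set y1 : (M × W) × Bool → ℤ := fun q => x none (false, q) with hy1
  have hb1 : y1 (e, true) + 1 ≤ B := by simp only [hy1]; omega
  by_cases hc : 0 < y1 (e, false)
  · refine no_improve_M hx hAW (z := y1 + unit (some (e, true)) - unit (some (e, false)))
      (q := (e, true)) ?_ ?_ ?_ ?_ hw
    · refine ⟨box_swap d1.1 hb1 (fun w hw => ?_), ?_⟩
      · cases hw; exact ⟨by simp, hc⟩
      · rw [both_sub_unit, both_add_unit, add_sub_cancel_right]; exact d1.2
    · have := valM_swap (B := B) (K := K) (fM := fM) (y := y1)
        (z := y1 + unit (some (e, true)) - unit (some (e, false)))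
        (by rw [both_sub_unit, both_add_unit, add_sub_cancel_right])
      rw [sum_true_one'] at this
      linarith
    · exact swap_apply_self (fun w hw => by cases hw; simp)
    · intro w hw; exact swap_apply_ne hw
  · have h0 : 0 ≤ y1 (e, false) := (d1.1 _).1
    have hboth : both y1 e < B := by simp only [both]; omega
    refine no_improve_M hx hAW (z := y1 + unit (some (e, true)))
      (q := (e, true)) ?_ ?_ ?_ ?_ hw
    · refine ⟨?_, ?_⟩
      · have := box_swap d1.1 hb1 (o := none) (by simp)
        rwa [unit_none, sub_zero] at this
      · intro i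
        have h1 : above B (both (y1 + unit (some (e, true)))) = above B (both y1) := by
          funext w
          rw [both_add_unit]
          simp only [above, Pi.add_apply, unit_apply_some]
          split_ifs with hw
          · subst hw; omega
          · simp
        rw [h1]; exact d1.2 i
    · have := valM_low (B := B) (K := K) (fM := fM) (y := y1) (z := y1 + unit (some (e, true)))
        (both_add_unit _ _ _) hboth
      rw [sum_true_one] at this
      linarith
    · have := swap_apply_self (y := y1) (p := (e, true)) (o := none) (by simp)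
      rwa [unit_none, sub_zero] at this
    · intro w hw
      have := swap_apply_ne (y := y1) (p := (e, true)) (o := none) hw
      rwa [unit_none, sub_zero] at this

theorem both_ge (hK0 : 0 < K) (e : M × W) : B ≤ both (fun q => x none (false, q)) e := by
  by_contra hcon
  obtain ⟨d1, d2⟩ := dom_one hx hAW
  set y1 : (M × W) × Bool → ℤ := fun q => x none (false, q) with hy1
  have hboth : both y1 e < B := by omega
  have h0 : 0 ≤ y1 (e, true) := (d1.1 _).1
  have hb1 : y1 (e, false) + 1 ≤ B := by
    have : both y1 e = y1 (e, false) + y1 (e, true) := rfl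
    omega
  refine no_improve_M hx hAW (z := y1 + unit (some (e, false)))
      (q := (e, false)) ?_ ?_ ?_ ?_ (woman_out hx (c := (false, e)) ?_)
  · refine ⟨?_, ?_⟩
    · have := box_swap d1.1 hb1 (o := none) (by simp)
      rwa [unit_none, sub_zero] at this
    · intro i
      have h1 : above B (both (y1 + unit (some (e, false)))) = above B (both y1) := by
        funext w
        rw [both_add_unit]
        simp only [above, Pi.add_apply, unit_apply_some]
        split_ifs with hw
        · subst hw; omega
        · simp
      rw [h1]; exact d1.2 i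
  · have := valM_low (B := B) (K := K) (fM := fM) (y := y1) (z := y1 + unit (some (e, false)))
      (both_add_unit _ _ _) hboth
    have h2 : ∑ w, (((y1 + unit (some (e, false))) (w, true) - y1 (w, true) : ℤ) : ℝ) = 0 := by
      apply Finset.sum_eq_zero
      intro w _
      rw [Pi.add_apply, unit_apply_some, if_neg (by simp)]; simp
    rw [h2] at this
    linarith
  · have := swap_apply_self (y := y1) (p := (e, false)) (o := none) (by simp)
    rwa [unit_none, sub_zero] at this
  · intro w hw
    have := swap_apply_ne (y := y1) (p := (e, false)) (o := none) hw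
    rwa [unit_none, sub_zero] at this
  · change y1 (e, false) < B
    omega

variable (hMW : ∀ j, MNat (fW j))

include hMW

theorem full_W (hK0' : 0 < K')
    (hK' : ∀ j i, fW j (unit (some i)) < fW j 0 + (K' : WithBot ℝ)) (e : M × W) :
    x none (true, (e, true)) = B - x none (false, (e, false)) := by
  have hle : x none (true, (e, true)) ≤ B - x none (false, (e, false)) := inn_le hx (false, e)
  by_contra hcon
  have hlt : x none (inn (false, e)) < B - x none (out (false, e)) := by
    change x none (true, (e, true)) < B - x none (false, (e, false))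
    omega
  have hw := woman_inn hx hlt
  have hlt' : x none (true, (e, true)) < B - x none (false, (e, false)) := hlt
  have hb := man_bounds hx (false, (e, false))
  obtain ⟨d1, d2⟩ := dom_one hx hAW
  set y2 : (M × W) × Bool → ℤ := fun q => x none (true, q) with hy2
  have hb1 : y2 (e, true) + 1 ≤ B := by simp only [hy2]; omega
  by_cases hc : 0 < y2 (e, false)
  · have hboth : both (y2 + unit (some (e, true)) - unit (some (e, false))) = both y2 := by
      rw [both_sub_unit, both_add_unit, add_sub_cancel_right]
    refine no_improve_W hx hAW (z := y2 + unit (some (e, true)) - unit (some (e, false)))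
      (q := (e, true)) ?_ ?_ ?_ ?_ hw
    · refine ⟨box_swap d2.1 hb1 (fun w hw => ?_), ?_⟩
      · cases hw; exact ⟨by simp, hc⟩
      · rw [hboth]; exact d2.2
    · have := valW_group (B := B) (K := K') (fW := fW) (y := y2)
        (z := y2 + unit (some (e, true)) - unit (some (e, false))) e.2
        (fun _ _ => by rw [hboth])
      rw [sum_true_one', hboth] at this
      linarith
    · exact swap_apply_self (fun w hw => by cases hw; simp)
    · intro w hw; exact swap_apply_ne hw
  · have h0 : 0 ≤ y2 (e, false) := (d2.1 _).1
    have hboth : both y2 e < B := by simp only [both]; omega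
    refine no_improve_W hx hAW (z := y2 + unit (some (e, true)))
      (q := (e, true)) ?_ ?_ ?_ ?_ hw
    · refine ⟨?_, ?_⟩
      · have := box_swap d2.1 hb1 (o := none) (by simp)
        rwa [unit_none, sub_zero] at this
      · intro w
        rw [both_add_unit, Pi.add_apply, unit_apply_some]
        have := d2.2 w
        split_ifs with hw
        · subst hw; omega
        · omega
    · obtain ⟨i, j⟩ := e
      have := valW_group (B := B) (K := K') (fW := fW) (y := y2)
        (z := y2 + unit (some ((i, j), true))) j
        (fun w hw => by
          rw [both_add_unit, Pi.add_apply, unit_apply_some, if_neg, add_zero]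
          rintro rfl; exact hw rfl)
      rw [sum_true_one] at this
      have h1 : (fun i' => B - both (y2 + unit (some ((i, j), true))) (i', j)) =
          (fun i' => B - both y2 (i', j)) - unit (some i) := by
        funext i'
        rw [both_add_unit, Pi.add_apply, Pi.sub_apply, unit_apply_some, unit_apply_some]
        simp only [Prod.mk.injEq, and_true]
        ring
      rw [h1] at this
      have h2 := disp_marginal (hAW j) (hMW j) (X := fun i' => B - both y2 (i', j)) (i := i)
        (fun i' => by have := d2.2 (i', j); change 0 ≤ B - both y2 (i', j); omega)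
        (by omega) hK0' (hK' j i)
      linarith
    · have := swap_apply_self (y := y2) (p := (e, true)) (o := none) (by simp)
      rwa [unit_none, sub_zero] at this
    · intro w hw
      have := swap_apply_ne (y := y2) (p := (e, true)) (o := none) hw
      rwa [unit_none, sub_zero] at this

end stab

end

end Pool.Agent.Helper250_Alloc
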