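import Pool.Agent.Helper250_Alloc.One2

/-!
Stable allocations of the instance with one nonlinear agent give stable allocations of the original
instance: conclusion.
-/

set_option autoImplicit false
set_option linter.unusedVariables false
set_option linter.unusedSectionVars false

namespace Pool.Agent.Helper250_Alloc

section
variable {M W : Type} [Fintype M] [DecidableEq M] [Fintype W] [DecidableEq W]
variable {B : ℤ} {K K' : ℝ} {fM : M → (W → ℤ) → WithBot ℝ} {fW : W → (M → ℤ) → WithBot ℝ}

theorem unit_fst (i w : M) (j : W) : unit (some (i, j)) (w, j) = unit (some i) w := by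
  rw [unit_apply_some, unit_apply_some]
  simp only [Prod.mk.injEq, and_true]

theorem unit_snd (i : M) (j w : W) : unit (some (i, j)) (i, w) = unit (some j) w := by
  rw [unit_apply_some, unit_apply_some]
  simp only [Prod.mk.injEq, true_and]

theorem unit_off_fst {i : M} {j : W} {e : M × W} (h : e.1 ≠ i) : unit (some (i, j)) e = 0 := by
  rw [unit_apply_some, if_neg]
  rintro rfl; exact h rfl

theorem unit_off_snd {i : M} {j : W} {e : M × W} (h : e.2 ≠ j) : unit (some (i, j)) e = 0 := by
  rw [unit_apply_some, if_neg]
  rintro rfl; exact h rfl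

theorem unit_true (e w : M × W) : unit (some (e, false)) (w, true) = 0 := by
  rw [unit_apply_some, if_neg (by simp)]

/-- the recovered allocation -/
def rec' (x : Man M W → Port M W → ℤ) (e : M × W) : ℤ :=
  x none (false, (e, false)) - x none (true, (e, false))

section stab
variable {x : Man M W → Port M W → ℤ} (hx : Stable (oneM B K K' fM fW) (oneW B) x)
variable (hAM : ∀ i, CondA (fM i)) (hMM : ∀ i, MNat (fM i))
variable (hAW : ∀ j, CondA (fW j)) (hMW : ∀ j, MNat (fW j))
variable (hK0 : 0 < K) (hK0' : 0 < K')
variable (hK' : ∀ j i, fW j (unit (some i)) < fW j 0 + (K' : WithBot ℝ))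

include hx hAW

theorem both1 (hK0 : 0 < K) (e : M × W) : both (fun q => x none (false, q)) e = B + rec' x e := by
  have h1 := full_M hx hAW hK0 e
  simp only [both, rec', h1]; ring

theorem rec_nonneg (hK0 : 0 < K) (e : M × W) : 0 ≤ rec' x e := by
  have h1 := both1 hx hAW hK0 e
  have h2 := both_ge hx hAW hK0 e
  omega

include hMW hK0' hK'

theorem both2 (e : M × W) : both (fun q => x none (true, q)) e = B - rec' x e := by
  have h1 := full_W hx hAW hMW hK0' hK' e
  simp only [both, rec', h1]; ring

theorem slice_both2 (j : W) : (fun i => B - both (fun q => x none (true, q)) (i, j)) =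
    fun i => rec' x (i, j) := by
  funext i
  rw [both2 hx hAW hMW hK0' hK' (i, j)]; ring

/-- the second block cannot gain by giving up a unit -/
theorem U1 {i : M} {j : W} (h : 0 < rec' x (i, j)) :
    rv (disp (fW j)) ((fun i => rec' x (i, j)) - unit (some i)) ≤
      rv (disp (fW j)) (fun i => rec' x (i, j)) := by
  by_contra hcon
  push Not at hcon
  obtain ⟨d1, d2⟩ := dom_one hx hAW
  have hb2 := both2 hx hAW hMW hK0' hK'
  have hs := slice_both2 hx hAW hMW hK0' hK' j
  have ha := man_bounds hx (false, ((i, j), false))
  have hlt : x none (true, ((i, j), false)) < B := by simp only [rec'] at h; omega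
  set y2 : (M × W) × Bool → ℤ := fun q => x none (true, q) with hy2
  have hb1 : y2 ((i, j), false) + 1 ≤ B := by simp only [hy2]; omega
  refine no_improve_W hx hAW (z := y2 + unit (some ((i, j), false)))
    (q := ((i, j), false)) ?_ ?_ ?_ ?_ (woman_out hx (c := (true, (i, j))) hlt)
  · refine ⟨?_, ?_⟩
    · have := box_swap d2.1 hb1 (o := none) (by simp)
      rwa [unit_none, sub_zero] at this
    · intro w
      rw [both_add_unit, Pi.add_apply, unit_apply_some]
      have h1 := d2.2 w
      have h2 := hb2 w
      split_ifs with hw
      · subst hw; omega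
      · omega
  · have := valW_group (B := B) (K := K') (fW := fW) (y := y2)
      (z := y2 + unit (some ((i, j), false))) j
      (fun w hw => by rw [both_add_unit, Pi.add_apply, unit_off_snd hw, add_zero])
    have h1 : (fun i' => B - both (y2 + unit (some ((i, j), false))) (i', j)) =
        (fun i => rec' x (i, j)) - unit (some i) := by
      rw [← hs]
      funext i'
      rw [both_add_unit, Pi.add_apply, unit_fst, Pi.sub_apply]
      ring
    have h2 : ∑ e, (((y2 + unit (some ((i, j), false))) (e, true) - y2 (e, true) : ℤ) : ℝ) = 0 := by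
      apply Finset.sum_eq_zero
      intro e _
      rw [Pi.add_apply, unit_true]; simp
    rw [h1, h2, hs] at this
    linarith
  · have := swap_apply_self (y := y2) (p := ((i, j), false)) (o := none) (by simp)
    rwa [unit_none, sub_zero] at this
  · intro w hw
    have := swap_apply_ne (y := y2) (p := ((i, j), false)) (o := none) hw
    rwa [unit_none, sub_zero] at this

/-- the second block cannot gain by a swap -/
theorem U2 {i w : M} {j : W} (hi : 0 < x none (true, ((i, j), false))) (hwi : w ≠ i)
    (hw : 0 < rec' x (w, j)) :
    rv (disp (fW j)) ((fun i => rec' x (i, j)) + unit (some i) - unit (some w)) ≤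
      rv (disp (fW j)) (fun i => rec' x (i, j)) := by
  by_contra hcon
  push Not at hcon
  obtain ⟨d1, d2⟩ := dom_one hx hAW
  have hb2 := both2 hx hAW hMW hK0' hK'
  have hs := slice_both2 hx hAW hMW hK0' hK' j
  have ha := man_bounds hx (false, ((w, j), false))
  have hlt : x none (true, ((w, j), false)) < B := by simp only [rec'] at hw; omega
  set y2 : (M × W) × Bool → ℤ := fun q => x none (true, q) with hy2
  have hb1 : y2 ((w, j), false) + 1 ≤ B := by simp only [hy2]; omega
  refine no_improve_W hx hAW
    (z := y2 + unit (some ((w, j), false)) - unit (some ((i, j), false)))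
    (q := ((w, j), false)) ?_ ?_ ?_ ?_ (woman_out hx (c := (true, (w, j))) hlt)
  · refine ⟨box_swap d2.1 hb1 (fun q hq => ?_), ?_⟩
    · cases hq; exact ⟨by simp [hwi.symm], hi⟩
    · intro e
      rw [both_sub_unit, both_add_unit, Pi.sub_apply, Pi.add_apply, unit_apply_some (w, j)]
      have h1 := d2.2 e
      have h2 := hb2 e
      have h3 : 0 ≤ unit (some (i, j)) e := unit_nonneg _ e
      split_ifs with he
      · subst he; omega
      · omega
  · have := valW_group (B := B) (K := K') (fW := fW) (y := y2)
      (z := y2 + unit (some ((w, j), false)) - unit (some ((i, j), false))) j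
      (fun e he => by rw [both_sub_unit, both_add_unit, Pi.sub_apply, Pi.add_apply,
        unit_off_snd he, unit_off_snd he, add_zero, sub_zero])
    have h1 : (fun i' => B - both (y2 + unit (some ((w, j), false)) - unit (some ((i, j), false)))
        (i', j)) = (fun i => rec' x (i, j)) + unit (some i) - unit (some w) := by
      rw [← hs]
      funext i'
      rw [both_sub_unit, both_add_unit, Pi.sub_apply, Pi.add_apply, unit_fst, unit_fst,
        Pi.sub_apply, Pi.add_apply]
      ring
    have h2 : ∑ e, (((y2 + unit (some ((w, j), false)) - unit (some ((i, j), false))) (e, true) -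
        y2 (e, true) : ℤ) : ℝ) = 0 := by
      apply Finset.sum_eq_zero
      intro e _
      rw [Pi.sub_apply, Pi.add_apply, unit_true, unit_true]; simp
    rw [h1, h2, hs] at this
    linarith
  · exact swap_apply_self (fun q hq => by cases hq; simp [hwi.symm])
  · intro q hq; exact swap_apply_ne hq

/-- the second block cannot gain by taking an additional unit -/
theorem U3 {i : M} {j : W} (hi : 0 < x none (true, ((i, j), false))) :
    rv (disp (fW j)) ((fun i => rec' x (i, j)) + unit (some i)) ≤
      rv (disp (fW j)) (fun i => rec' x (i, j)) := by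
  by_contra hcon
  push Not at hcon
  obtain ⟨d1, d2⟩ := dom_one hx hAW
  have hb2 := both2 hx hAW hMW hK0' hK'
  have hs := slice_both2 hx hAW hMW hK0' hK' j
  set y2 : (M × W) × Bool → ℤ := fun q => x none (true, q) with hy2
  have hle : ∀ w, (y2 - unit (some ((i, j), false))) w ≤ x none (true, w) := by
    intro w
    have h0 : 0 ≤ unit (some ((i, j), false)) w := unit_nonneg _ w
    rw [Pi.sub_apply]
    simp only [hy2]
    omega
  refine hx.2 (Or.inl ⟨none, upd true (y2 - unit (some ((i, j), false))) (x none), upd_le hle,
    big_lt_W hAW (hx.1.1 none) ?_ ?_⟩)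
  · refine ⟨box_down d2.1 hi, ?_⟩
    intro e
    rw [both_sub_unit, Pi.sub_apply]
    have h1 := d2.2 e
    have h3 : 0 ≤ unit (some (i, j)) e := unit_nonneg _ e
    omega
  · have := valW_group (B := B) (K := K') (fW := fW) (y := y2)
      (z := y2 - unit (some ((i, j), false))) j
      (fun e he => by rw [both_sub_unit, Pi.sub_apply, unit_off_snd he, sub_zero])
    have h1 : (fun i' => B - both (y2 - unit (some ((i, j), false))) (i', j)) =
        (fun i => rec' x (i, j)) + unit (some i) := by
      rw [← hs]
      funext i'
      rw [both_sub_unit, Pi.sub_apply, unit_fst, Pi.add_apply]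
      ring
    have h2 : ∑ e, (((y2 - unit (some ((i, j), false))) (e, true) - y2 (e, true) : ℤ) : ℝ) = 0 := by
      apply Finset.sum_eq_zero
      intro e _
      rw [Pi.sub_apply, unit_true]; simp
    rw [h1, h2, hs] at this
    linarith

omit hMW hK0' hK'

theorem slice_both1 (hK0 : 0 < K) (i : M) :
    (fun j => both (fun q => x none (false, q)) (i, j) - B) = fun j => rec' x (i, j) := by
  funext j
  rw [both1 hx hAW hK0 (i, j)]; ring

/-- the first block cannot gain by giving up a unit -/
theorem V1 (hK0 : 0 < K) {i : M} {j : W} (h : 0 < rec' x (i, j))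
    (hd : fM i ((fun j => rec' x (i, j)) - unit (some j)) ≠ ⊥) :
    rv (fM i) ((fun j => rec' x (i, j)) - unit (some j)) ≤
      rv (fM i) (fun j => rec' x (i, j)) := by
  by_contra hcon
  push Not at hcon
  obtain ⟨d1, d2⟩ := dom_one hx hAW
  have hb1 := both1 hx hAW hK0
  have hbg := both_ge hx hAW hK0
  have hs := slice_both1 hx hAW hK0 i
  have ha := man_bounds hx (true, ((i, j), false))
  have hpos : 0 < x none (false, ((i, j), false)) := by simp only [rec'] at h; omega
  set y1 : (M × W) × Bool → ℤ := fun q => x none (false, q) with hy1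
  have hle : ∀ w, (y1 - unit (some ((i, j), false))) w ≤ x none (false, w) := by
    intro w
    have h0 : 0 ≤ unit (some ((i, j), false)) w := unit_nonneg _ w
    rw [Pi.sub_apply]
    simp only [hy1]
    omega
  have off : ∀ e : M × W, e.1 ≠ i → both (y1 - unit (some ((i, j), false))) e = both y1 e := by
    intro e he
    rw [both_sub_unit, Pi.sub_apply, unit_off_fst he, sub_zero]
  have hz : ∀ j', B ≤ both (y1 - unit (some ((i, j), false))) (i, j') := by
    intro j'
    rw [both_sub_unit, Pi.sub_apply, unit_snd, unit_apply_some]
    have h1 := hbg (i, j')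
    have h2 := hb1 (i, j')
    split_ifs with hj
    · subst hj; omega
    · omega
  have h1 : (fun j' => both (y1 - unit (some ((i, j), false))) (i, j') - B) =
      (fun j => rec' x (i, j)) - unit (some j) := by
    rw [← hs]
    funext j'
    rw [both_sub_unit, Pi.sub_apply, unit_snd, Pi.sub_apply]
    ring
  refine hx.2 (Or.inl ⟨none, upd false (y1 - unit (some ((i, j), false))) (x none), upd_le hle,
    big_lt_M hAW (hx.1.1 none) ?_ ?_⟩)
  · refine domM_group d1 i (box_down d1.1 hpos) off hz ?_
    rw [h1]; exact hd
  · have := valM_group (K := K) (fM := fM) i off (fun j' => hbg (i, j')) hz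
      (fun e => by rw [Pi.sub_apply, unit_true, sub_zero])
    rw [h1, hs] at this
    linarith

/-- the first block cannot gain by one more unit -/
theorem V2 (hK0 : 0 < K) {i : M} {j : W} (hlt : x none (false, ((i, j), false)) < B)
    {o : Option W} (ho : ∀ w, o = some w → w ≠ j ∧ 0 < rec' x (i, w))
    (hd : fM i ((fun j => rec' x (i, j)) + unit (some j) - unit o) ≠ ⊥) :
    rv (fM i) ((fun j => rec' x (i, j)) + unit (some j) - unit o) ≤
      rv (fM i) (fun j => rec' x (i, j)) := by
  by_contra hcon
  push Not at hcon
  obtain ⟨d1, d2⟩ := dom_one hx hAW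
  have hb1 := both1 hx hAW hK0
  have hbg := both_ge hx hAW hK0
  have hs := slice_both1 hx hAW hK0 i
  have hmb := man_bounds hx
  set y1 : (M × W) × Bool → ℤ := fun q => x none (false, q) with hy1
  set oo : Option ((M × W) × Bool) := o.map (fun w => ((i, w), false)) with hoo
  have hb : y1 ((i, j), false) + 1 ≤ B := by simp only [hy1]; omega
  have hoo1 : ∀ q, oo = some q → q ≠ ((i, j), false) ∧ 0 < y1 q := by
    intro q hq
    cases o with
    | none => simp [hoo] at hq
    | some w =>
      obtain ⟨h1, h2⟩ := ho w rfl
      simp only [hoo, Option.map_some, Option.some.injEq] at hq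
      subst hq
      refine ⟨by simp [h1], ?_⟩
      have h3 := hmb (true, ((i, w), false))
      simp only [rec'] at h2
      simp only [hy1]
      omega
  have hbo : ∀ e : M × W, both (y1 + unit (some ((i, j), false)) - unit oo) e =
      both y1 e + unit (some (i, j)) e - unit (o.map (fun w => (i, w))) e := by
    intro e
    cases o with
    | none =>
      simp only [hoo, Option.map_none, unit_none, sub_zero]
      rw [both_add_unit, Pi.add_apply]
      simp
    | some w =>
      simp only [hoo, Option.map_some]
      rw [both_sub_unit, both_add_unit, Pi.sub_apply, Pi.add_apply]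
  have hoff : ∀ e : M × W, e.1 ≠ i → unit (o.map (fun w => (i, w))) e = 0 := by
    intro e he
    cases o with
    | none => rfl
    | some w => exact unit_off_fst he
  have hon : ∀ j', unit (o.map (fun w => (i, w))) (i, j') = unit o j' := by
    intro j'
    cases o with
    | none => rfl
    | some w => exact unit_snd _ _ _
  have off : ∀ e : M × W, e.1 ≠ i →
      both (y1 + unit (some ((i, j), false)) - unit oo) e = both y1 e := by
    intro e he
    rw [hbo e, unit_off_fst he, hoff e he, add_zero, sub_zero]
  have hz : ∀ j', B ≤ both (y1 + unit (some ((i, j), false)) - unit oo) (i, j') := by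
    intro j'
    rw [hbo, unit_snd, hon]
    have h1 := hbg (i, j')
    have h2 := hb1 (i, j')
    have h3 : 0 ≤ unit (some j) j' := unit_nonneg _ j'
    by_cases hj : o = some j'
    · have := (ho j' hj).2
      rw [hj, unit_apply_some j', if_pos rfl]
      omega
    · rw [unit_eq_zero hj]; omega
  have h1 : (fun j' => both (y1 + unit (some ((i, j), false)) - unit oo) (i, j') - B) =
      (fun j => rec' x (i, j)) + unit (some j) - unit o := by
    rw [← hs]
    funext j'
    rw [hbo, unit_snd, hon, Pi.sub_apply, Pi.add_apply]
    ring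
  refine no_improve_M hx hAW (z := y1 + unit (some ((i, j), false)) - unit oo)
    (q := ((i, j), false)) ?_ ?_ ?_ ?_ (woman_out hx (c := (false, (i, j))) hlt)
  · refine domM_group d1 i (box_swap d1.1 hb hoo1) off hz ?_
    rw [h1]; exact hd
  · have h4 : ∀ e, (y1 + unit (some ((i, j), false)) - unit oo) (e, true) = y1 (e, true) := by
      intro e
      have : unit oo (e, true) = 0 := by
        apply unit_eq_zero
        cases o with
        | none => simp [hoo]
        | some w => simp [hoo]
      rw [Pi.sub_apply, Pi.add_apply, unit_true, this, add_zero, sub_zero]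
    have := valM_group (K := K) (fM := fM) i off (fun j' => hbg (i, j')) hz h4
    rw [h1, hs] at this
    linarith
  · exact swap_apply_self (fun w hw => (hoo1 w hw).1)
  · intro w hw; exact swap_apply_ne hw

include hAM hMM hMW hK0 hK0' hK'

/-- **The recovered allocation is stable.** -/
theorem stable_rec (hB : ∀ i y, fM i y ≠ ⊥ → ∀ j, y j ≤ B) :
    Stable fM fW (fun i j => rec' x (i, j)) := by
  have hnn := rec_nonneg hx hAW hK0
  obtain ⟨d1, d2⟩ := dom_one hx hAW
  -- the men
  have hM1 : ∀ i, fM i (fun j => rec' x (i, j)) ≠ ⊥ := by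
    intro i
    have h1 := d1.2 i
    have h2 : (fun j => above B (both (fun q => x none (false, q))) (i, j)) =
        fun j => rec' x (i, j) := by
      funext j
      have h3 := both1 hx hAW hK0 (i, j)
      have h4 := hnn (i, j)
      simp only [above]
      omega
    rwa [h2] at h1
  have hM2 : ∀ i, ∀ y ≤ (fun j => rec' x (i, j)), fM i y ≤ fM i (fun j => rec' x (i, j)) := by
    intro i y hy
    by_contra hcon
    push Not at hcon
    obtain ⟨u, hu1, hu2⟩ := down_step (hAM i) (hMM i) (hM1 i) _ y hy hcon
      (le_of_eq (Int.toNat_of_nonneg (Finset.sum_nonneg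
        (fun u _ => by have := hy u; simp only at this; omega))).symm)
    have hd : fM i ((fun j => rec' x (i, j)) - unit (some u)) ≠ ⊥ := by
      refine (hAM i).hereditary _ _ (hM1 i) ?_ (sub_le_self _ (unit_nonneg _))
      intro w
      change 0 ≤ rec' x (i, w) - unit (some u) w
      have hw0 := hnn (i, w)
      rw [unit_apply_some]
      split_ifs with hw
      · subst hw; omega
      · omega
    exact absurd (V1 hx hAW hK0 hu1 hd) (not_le.2 hu2)
  -- the women
  have hW1 : ∀ j, fW j (fun i => rec' x (i, j)) ≠ ⊥ ∧
      rv (disp (fW j)) (fun i => rec' x (i, j)) = rv (fW j) (fun i => rec' x (i, j)) := by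
    intro j
    obtain ⟨y, hy0, hyx, hyd, hyv⟩ := rv_disp_spec (hAW j)
      (x := fun i => rec' x (i, j)) (fun i => hnn (i, j))
    have hyeq : y = fun i => rec' x (i, j) := by
      by_contra hne
      obtain ⟨i, hi⟩ := exists_lt_of_ne hyx hne
      have h0 : 0 ≤ y i := hy0 i
      have h1 := U1 hx hAW hMW hK0' hK' (i := i) (j := j) (by omega)
      have h2 : y ≤ (fun i => rec' x (i, j)) - unit (some i) := by
        intro w
        change y w ≤ rec' x (w, j) - unit (some i) w
        have hw0 : y w ≤ rec' x (w, j) := hyx w
        rw [unit_apply_some]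
        split_ifs with hw
        · subst hw; omega
        · omega
      have h3 := rv_disp_ge (hAW j) hyd h2
      rw [tot_sub, tot_unit] at h3
      linarith
    rw [hyeq] at hyd hyv
    refine ⟨hyd, ?_⟩
    rw [hyv]; ring
  have hW2 : ∀ j, ∀ y ≤ (fun i => rec' x (i, j)), fW j y ≤ fW j (fun i => rec' x (i, j)) := by
    intro j y hy
    by_contra hcon
    push Not at hcon
    obtain ⟨u, hu1, hu2⟩ := down_step (hAW j) (hMW j) (hW1 j).1 _ y hy hcon
      (le_of_eq (Int.toNat_of_nonneg (Finset.sum_nonneg
        (fun u _ => by have := hy u; simp only at this; omega))).symm)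
    have hd : fW j ((fun i => rec' x (i, j)) - unit (some u)) ≠ ⊥ := by
      refine (hAW j).hereditary _ _ (hW1 j).1 ?_ (sub_le_self _ (unit_nonneg _))
      intro w
      change 0 ≤ rec' x (w, j) - unit (some u) w
      have hw0 := hnn (w, j)
      rw [unit_apply_some]
      split_ifs with hw
      · subst hw; omega
      · omega
    have h1 := U1 hx hAW hMW hK0' hK' (i := u) (j := j) hu1
    have h2 := rv_disp_ge (hAW j) hd le_rfl
    rw [(hW1 j).2] at h1
    linarith
  refine ⟨⟨hM1, fun j => (hW1 j).1⟩, ?_⟩
  rintro (⟨i, y, hy, hlt⟩ | ⟨j, y, hy, hlt⟩ | ⟨i, j, y', y'', h1, h2, h3, h4, h5⟩)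
  · exact absurd (hM2 i y hy) (not_le.2 hlt)
  · exact absurd (hW2 j y hy) (not_le.2 hlt)
  · -- the man wants more
    obtain ⟨o, ho1, ho2, ho3⟩ := up_step (hAM i) (hMM i) (hM1 i) (hM2 i)
      (y' j - rec' x (i, j)).toNat y' h3 h1 (Int.self_le_toNat _)
    obtain ⟨o', ho1', ho2', ho3'⟩ := up_step (hAW j) (hMW j) (hW1 j).1 (hW2 j)
      (y'' i - rec' x (i, j)).toNat y'' h4 h2 (Int.self_le_toNat _)
    have ha : x none (false, ((i, j), false)) = B := by
      by_contra hne
      have h6 := man_bounds hx (false, ((i, j), false))
      exact absurd (V2 hx hAW hK0 (by omega) ho1 ho2) (not_le.2 ho3)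
    have ha' : x none (true, ((i, j), false)) = 0 := by
      by_contra hne
      have h6 := man_bounds hx (true, ((i, j), false))
      have hpos : 0 < x none (true, ((i, j), false)) := by omega
      have h7 := rv_disp_ge (hAW j) ho2' le_rfl
      have h8 := (hW1 j).2
      cases o' with
      | none =>
        rw [unit_none, sub_zero] at ho3' h7
        have := U3 hx hAW hMW hK0' hK' hpos
        linarith
      | some w =>
        obtain ⟨h9, h10⟩ := ho1' w rfl
        have := U2 hx hAW hMW hK0' hK' hpos h9 h10
        linarith
    have hX : rec' x (i, j) = B := by simp only [rec']; omega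
    have h6 := hB i _ ho2 j
    have h7 : o ≠ some j := fun h => (ho1 j h).1 rfl
    rw [Pi.sub_apply, Pi.add_apply, unit_eq_zero h7, unit_apply_some, if_pos rfl] at h6
    omega

end stab

end

end Pool.Agent.Helper250_Alloc
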