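import Pool.Agent.Helper250_Alloc.One3

/-!
Every stable allocation of the original instance comes from one of the instance with one nonlinear
agent.
-/

set_option autoImplicit false
set_option linter.unusedVariables false
set_option linter.unusedSectionVars false

namespace Pool.Agent.Helper250_Alloc

section
variable {U : Type} [Fintype U] [DecidableEq U]

/-- Joint slack: if no single additional coordinate helps, then all of them together do not. -/
theorem joint_slack {g : (U → ℤ) → WithBot ℝ} (hM : MNat g) {z : U → ℤ} (hz : g z ≠ ⊥)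
    (hbest : ∀ y ≤ z, g y ≤ g z) {S : U → Prop}
    (hS : ∀ e, S e → ∀ y, (∀ w, w ≠ e → y w ≤ z w) → g y ≤ g z) :
    ∀ (N : ℕ) (y : U → ℤ), (∀ w, ¬ S w → y w ≤ z w) → ∑ w, max (y w - z w) 0 ≤ N → g y ≤ g z := by
  intro N
  induction N with
  | zero =>
    intro y hy hN
    apply hbest
    intro w
    have h1 : max (y w - z w) 0 ≤ ∑ w, max (y w - z w) 0 :=
      Finset.single_le_sum (f := fun w => max (y w - z w) 0) (fun w _ => le_max_right _ _)
        (Finset.mem_univ w)
    push_cast at hN
    change y w ≤ z w
    omega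
  | succ N ih =>
    intro y hy hN
    by_contra hcon
    push Not at hcon
    have hyd : g y ≠ ⊥ := by intro h0; rw [h0] at hcon; exact absurd hcon not_lt_bot
    have hex : ∃ u, z u < y u := by
      by_contra h
      push Not at h
      exact absurd (hbest y h) (not_le.2 hcon)
    obtain ⟨u, hu⟩ := hex
    have hSu : S u := by
      by_contra h
      have := hy u h
      omega
    obtain ⟨o, ho, ha, hb, hexc⟩ := RM_of_MNat hM y z hyd hz u hu
    have hou : o ≠ some u := by
      intro h
      have := ho u h
      omega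
    have h1 : g (z + unit (some u) - unit o) ≤ g z := by
      apply hS u hSu
      intro w hw
      exact swap_apply_ne hw
    have h2 : g (y - unit (some u) + unit o) ≤ g z := by
      apply ih
      · intro w hw
        have hwu : w ≠ u := by rintro rfl; exact hw hSu
        have h3 := hy w hw
        rw [Pi.add_apply, Pi.sub_apply, unit_apply_some, if_neg hwu, sub_zero]
        by_cases how : o = some w
        · have := ho w how
          rw [how, unit_apply_some, if_pos rfl]; omega
        · rw [unit_eq_zero how, add_zero]; exact h3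
      · have h3 : ∑ w, max ((y - unit (some u) + unit o) w - z w) 0 ≤
            ∑ w, (max (y w - z w) 0 - unit (some u) w) := by
          refine Finset.sum_le_sum (fun w _ => ?_)
          rw [Pi.add_apply, Pi.sub_apply, unit_apply_some]
          by_cases hwu : w = u
          · subst hwu
            rw [if_pos rfl, unit_eq_zero hou]
            omega
          · rw [if_neg hwu]
            by_cases how : o = some w
            · have := ho w how
              rw [how, unit_apply_some, if_pos rfl]; omega
            · rw [unit_eq_zero how]; omega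
        have h4 : ∑ w, (unit (some u) w : ℤ) = 1 := by simp [unit_some]
        rw [Finset.sum_sub_distrib, h4] at h3
        push_cast at hN
        omega
    rw [← coe_rv ha, ← coe_rv hz, WithBot.coe_le_coe] at h2
    rw [← coe_rv hb, ← coe_rv hz, WithBot.coe_le_coe] at h1
    rw [← coe_rv hz, ← coe_rv hyd, WithBot.coe_lt_coe] at hcon
    linarith

/-- several units -/
theorem marginal_many {g : (U → ℤ) → WithBot ℝ} (hg : CondA g) (hM : MNat g) {K : ℝ}
    (hK : ∀ w, g (unit (some w)) ≤ g 0 + (K : WithBot ℝ)) :
    ∀ (N : ℕ) (y y' : U → ℤ), g y' ≠ ⊥ → 0 ≤ y → y ≤ y' → ∑ w, (y' w - y w) = N →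
      rv g y' ≤ rv g y + K * N := by
  intro N
  induction N with
  | zero =>
    intro y y' hy' h0 hle hN
    have h1 : y = y' := by
      funext u
      rw [Nat.cast_zero, Finset.sum_eq_zero_iff_of_nonneg
        (fun u _ => by have : y u ≤ y' u := hle u; omega)] at hN
      have := hN u (Finset.mem_univ u)
      omega
    rw [h1]; simp
  | succ N ih =>
    intro y y' hy' h0 hle hN
    have hex : ∃ u, y u < y' u := by
      by_contra hcon
      push Not at hcon
      have : ∑ w, (y' w - y w) ≤ 0 := Finset.sum_nonpos (fun w _ => by have := hcon w; omega)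
      push_cast at hN
      omega
    obtain ⟨u, hu⟩ := hex
    have hle2 : y ≤ y' - unit (some u) := by
      intro w
      change y w ≤ y' w - unit (some u) w
      have h3 : y w ≤ y' w := hle w
      rw [unit_apply_some]
      split_ifs with hw
      · subst hw; omega
      · omega
    have hd : g (y' - unit (some u)) ≠ ⊥ :=
      hg.hereditary _ _ hy' (h0.trans hle2) (sub_le_self _ (unit_nonneg _))
    have h1 := marginal_le hg hM (x := y' - unit (some u)) (w := u)
      (by rw [sub_add_cancel]; exact hy') hd (hK u)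
    rw [sub_add_cancel] at h1
    have h2 := ih y (y' - unit (some u)) hd h0 hle2 (by
      have h4 : ∑ w, (unit (some u) w : ℤ) = 1 := by simp [unit_some]
      have h5 : ∑ w, ((y' - unit (some u)) w - y w) = ∑ w, (y' w - y w) - 1 := by
        rw [← h4, ← Finset.sum_sub_distrib]
        refine Finset.sum_congr rfl (fun w _ => ?_)
        rw [Pi.sub_apply]; ring
      rw [h5, hN]; push_cast; ring)
    push_cast
    linarith

/-- an agent who is full with the woman he likes less cannot gain without more of the one he likes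
more -/
theorem linq_no_gain {wt : U → ℝ} {cap : U → ℤ} {q : ℤ} {u v : U} (huv : u ≠ v)
    (hu : wt u = 2) (hv : wt v = 1) (hcap : ∀ w, w ≠ u ∧ w ≠ v → cap w = 0) {x : U → ℤ}
    (hx : linq wt cap q x ≠ ⊥) (hxq : x u + x v = q) {y : U → ℤ} (hy : y u ≤ x u) :
    linq wt cap q y ≤ linq wt cap q x := by
  by_cases hyd : linq wt cap q y = ⊥
  · rw [hyd]; exact bot_le
  · have val : ∀ z, linq wt cap q z ≠ ⊥ →
        linq wt cap q z = ((2 * (z u : ℝ) + (z v : ℝ) : ℝ) : WithBot ℝ) ∧ z u + z v ≤ q := by
      intro z hz
      obtain ⟨h1, h2⟩ := linq_dom hz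
      have h0 : ∀ w, w ≠ u ∧ w ≠ v → z w = 0 := by
        intro w hw
        have := h1 w
        rw [hcap w hw] at this
        omega
      constructor
      · rw [linq, if_pos ⟨h1, h2⟩, Fintype.sum_eq_add u v huv (fun w hw => by rw [h0 w hw]; simp),
          hu, hv, one_mul]
      · rwa [Fintype.sum_eq_add u v huv h0] at h2
    obtain ⟨h1, h2⟩ := val y hyd
    obtain ⟨h3, h4⟩ := val x hx
    rw [h1, h3, WithBot.coe_le_coe]
    have h5 : (y u : ℝ) ≤ (x u : ℝ) := by exact_mod_cast hy
    have h6 : (y u : ℝ) + (y v : ℝ) ≤ (x u : ℝ) + (x v : ℝ) := by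
      rw [← hxq] at h2; exact_mod_cast h2
    linarith

end

section
variable {M W : Type} [Fintype M] [DecidableEq M] [Fintype W] [DecidableEq W]
variable {B : ℤ} {K K' : ℝ} {fM : M → (W → ℤ) → WithBot ℝ} {fW : W → (M → ℤ) → WithBot ℝ}

/-- the woman `j` would gain by more of the man `i` -/
def Wants (fW : W → (M → ℤ) → WithBot ℝ) (X : M → W → ℤ) (e : M × W) : Prop :=
  ∃ y, fW e.2 (fun i => X i e.2) < fW e.2 y ∧ ∀ w, w ≠ e.1 → y w ≤ X w e.2

open Classical in
/-- the amounts at the output ports -/
noncomputable def base (B : ℤ) (fW : W → (M → ℤ) → WithBot ℝ) (X : M → W → ℤ) :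
    Bool × (M × W) → ℤ
  | (false, e) => if Wants fW X e then X e.1 e.2 else B
  | (true, e) => if Wants fW X e then 0 else B - X e.1 e.2

/-- the allocation of the new instance -/
noncomputable def ext (B : ℤ) (fW : W → (M → ℤ) → WithBot ℝ) (X : M → W → ℤ) :
    Man M W → Port M W → ℤ
  | none => fun p => if p.2.2 then B - base B fW X (wire p) else base B fW X (wire p)
  | some c => fun p => if wire p = c then
      (if p.2.2 then base B fW X c else B - base B fW X c) else 0

theorem base_sub (X : M → W → ℤ) (e : M × W) :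
    base B fW X (false, e) - base B fW X (true, e) = X e.1 e.2 := by
  simp only [base]
  split_ifs <;> ring

theorem rec_ext (X : M → W → ℤ) (e : M × W) : rec' (ext B fW X) e = X e.1 e.2 := by
  rw [← base_sub (B := B) (fW := fW) X e]
  simp [rec', ext, wire]

theorem ext_out (X : M → W → ℤ) (c : Bool × (M × W)) :
    ext B fW X none (out c) = base B fW X c := by
  simp [ext, out, wire]

theorem ext_inn (X : M → W → ℤ) (c : Bool × (M × W)) :
    ext B fW X none (inn c) = B - base B fW X c := by
  have h : (inn c : Port M W).2.2 = true := rfl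
  simp only [ext, h, if_true, wire_inn]

theorem ext_wire_out (X : M → W → ℤ) (c : Bool × (M × W)) :
    ext B fW X (some c) (out c) = B - base B fW X c := by
  simp [ext, out, wire]

theorem ext_wire_inn (X : M → W → ℤ) (c : Bool × (M × W)) :
    ext B fW X (some c) (inn c) = base B fW X c := by
  have h : (inn c : Port M W).2.2 = true := rfl
  simp only [ext, wire_inn, if_true, h]

theorem port_eq (p : Port M W) : p = if p.2.2 then inn (wire p) else out (wire p) := by
  obtain ⟨k, e, κ⟩ := p
  cases κ
  · simp [out, wire]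
  · simp [inn, wire]

section back
variable (hAM : ∀ i, CondA (fM i)) (hMM : ∀ i, MNat (fM i))
variable (hAW : ∀ j, CondA (fW j)) (hMW : ∀ j, MNat (fW j))
variable (hB0 : 0 ≤ B) (hB : ∀ i y, fM i y ≠ ⊥ → ∀ j, y j ≤ B)
variable {X : M → W → ℤ} (hX : Stable fM fW X)

include hX

theorem best_M (i : M) : ∀ y ≤ X i, fM i y ≤ fM i (X i) := by
  intro y hy
  by_contra hcon
  exact hX.2 (Or.inl ⟨i, y, hy, not_le.1 hcon⟩)

theorem best_W (j : W) : ∀ y ≤ (fun i => X i j), fW j y ≤ fW j (fun i => X i j) := by
  intro y hy
  by_contra hcon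
  exact hX.2 (Or.inr (Or.inl ⟨j, y, hy, not_le.1 hcon⟩))

include hAM hMM hAW hMW

/-- if the woman wants more, then the man does not -/
theorem man_content {i : M} {j : W} (h : Wants fW X (i, j)) :
    ∀ y, (∀ w, w ≠ j → y w ≤ X i w) → fM i y ≤ fM i (X i) := by
  intro y hy
  by_contra hcon
  push Not at hcon
  obtain ⟨y', h1, h2⟩ := h
  obtain ⟨o, ho1, ho2, ho3⟩ := up_step (hAM i) (hMM i) (hX.1.1 i) (best_M hX i)
    (y j - X i j).toNat y hy hcon (Int.self_le_toNat _)
  obtain ⟨o', ho1', ho2', ho3'⟩ := up_step (hAW j) (hMW j) (hX.1.2 j) (best_W hX j)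
    (y' i - X i j).toNat y' h2 h1 (Int.self_le_toNat _)
  refine hX.2 (Or.inr (Or.inr ⟨i, j, X i + unit (some j) - unit o,
    (fun i => X i j) + unit (some i) - unit o', ?_, ?_, ?_, ?_, ?_⟩))
  · rw [← coe_rv (hX.1.1 i), ← coe_rv ho2, WithBot.coe_lt_coe]; exact ho3
  · rw [← coe_rv (hX.1.2 j), ← coe_rv ho2', WithBot.coe_lt_coe]; exact ho3'
  · intro w hw; exact swap_apply_ne hw
  · intro w hw; exact swap_apply_ne hw
  · rw [swap_apply_self (fun w hw => (ho1 w hw).1), swap_apply_self (fun w hw => (ho1' w hw).1)]

/-- the man's allocation is best below `X` where the woman does not want more -/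
theorem box_M (i : M) {y : W → ℤ} (hy : ∀ j, ¬ Wants fW X (i, j) → y j ≤ X i j) :
    fM i y ≤ fM i (X i) :=
  joint_slack (hMM i) (hX.1.1 i) (best_M hX i) (S := fun j => Wants fW X (i, j))
    (fun j hj => man_content hAM hMM hAW hMW hX hj) _ y hy
    (le_of_eq (Int.toNat_of_nonneg (Finset.sum_nonneg (fun w _ => le_max_right _ _))).symm)

omit hAM hMM hAW in
/-- the woman's allocation is best below `X` where she wants more -/
theorem box_W (j : W) {y : M → ℤ} (hy : ∀ i, Wants fW X (i, j) → y i ≤ X i j) :
    fW j y ≤ fW j (fun i => X i j) := by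
  refine joint_slack (hMW j) (hX.1.2 j) (best_W hX j) (S := fun i => ¬ Wants fW X (i, j))
    (fun i hi y hy => ?_) _ y (fun i hi => hy i (not_not.1 hi))
    (le_of_eq (Int.toNat_of_nonneg (Finset.sum_nonneg (fun w _ => le_max_right _ _))).symm)
  by_contra hcon
  exact hi ⟨y, not_le.1 hcon, hy⟩

include hB0 hB

theorem X_bounds (i : M) (j : W) : 0 ≤ X i j ∧ X i j ≤ B :=
  ⟨(hAM i).nonneg _ (hX.1.1 i) j, hB i _ (hX.1.1 i) j⟩

theorem base_bounds (c : Bool × (M × W)) : 0 ≤ base B fW X c ∧ base B fW X c ≤ B := by
  obtain ⟨k, e⟩ := c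
  have h := X_bounds hAM hMM hAW hMW hB0 hB hX e.1 e.2
  cases k
  · simp only [base]; split_ifs <;> omega
  · simp only [base]; split_ifs <;> omega

theorem ext_bounds (p : Port M W) : 0 ≤ ext B fW X none p ∧ ext B fW X none p ≤ B := by
  have h := base_bounds hAM hMM hAW hMW hB0 hB hX (wire p)
  simp only [ext]
  split_ifs <;> omega

theorem ext_both1 (e : M × W) :
    both (fun q => ext B fW X none (false, q)) e = B + X e.1 e.2 := by
  have h1 := base_sub (B := B) (fW := fW) X e
  have h2 : ext B fW X none (false, (e, false)) = base B fW X (false, e) := ext_out X (false, e)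
  have h3 : ext B fW X none (false, (e, true)) = B - base B fW X (true, e) := ext_inn X (true, e)
  simp only [both, h2, h3]
  omega

theorem ext_both2 (e : M × W) :
    both (fun q => ext B fW X none (true, q)) e = B - X e.1 e.2 := by
  have h1 := base_sub (B := B) (fW := fW) X e
  have h2 : ext B fW X none (true, (e, false)) = base B fW X (true, e) := ext_out X (true, e)
  have h3 : ext B fW X none (true, (e, true)) = B - base B fW X (false, e) := ext_inn X (false, e)
  simp only [both, h2, h3]
  omega

theorem ext_above : above B (both (fun q => ext B fW X none (false, q))) = fun e => X e.1 e.2 := by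
  funext e
  have h := X_bounds hAM hMM hAW hMW hB0 hB hX e.1 e.2
  simp only [above, ext_both1 hAM hMM hAW hMW hB0 hB hX e]
  omega

theorem ext_dom : domM B fM (fun q => ext B fW X none (false, q)) ∧
    domW B (fun q => ext B fW X none (true, q)) := by
  refine ⟨⟨fun q => ext_bounds hAM hMM hAW hMW hB0 hB hX _, fun i => ?_⟩,
    ⟨fun q => ext_bounds hAM hMM hAW hMW hB0 hB hX _, fun e => ?_⟩⟩
  · rw [ext_above hAM hMM hAW hMW hB0 hB hX]
    exact hX.1.1 i
  · rw [ext_both2 hAM hMM hAW hMW hB0 hB hX e]
    have h := X_bounds hAM hMM hAW hMW hB0 hB hX e.1 e.2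
    omega

/-- optimality in the first block -/
theorem ext_best_M (hK0 : 0 < K) {y : (M × W) × Bool → ℤ} (hy : domM B fM y)
    (hle : ∀ e, y (e, true) ≤ ext B fW X none (false, (e, true))) :
    valM B K fM y ≤ valM B K fM (fun q => ext B fW X none (false, q)) := by
  rw [valM, valM]
  refine add_le_add (Finset.sum_le_sum (fun i _ => ?_)) (Finset.sum_le_sum (fun e _ => ?_))
  · have h1 : fM i (fun j => above B (both y) (i, j)) ≤ fM i (X i) := by
      apply box_M hAM hMM hAW hMW hX
      intro j hj
      have h2 := hle (i, j)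
      have h3 : ext B fW X none (false, ((i, j), true)) = B - base B fW X (true, (i, j)) :=
        ext_inn X (true, (i, j))
      have h4 : base B fW X (true, (i, j)) = B - X i j := by simp only [base, if_neg hj]
      have h5 := hy.1 ((i, j), false)
      have h6 := X_bounds hAM hMM hAW hMW hB0 hB hX i j
      simp only [above, both]
      omega
    have h7 := (ext_dom hAM hMM hAW hMW hB0 hB hX).1.2 i
    rw [ext_above hAM hMM hAW hMW hB0 hB hX] at h7 ⊢
    have h8 : fM i (fun j => above B (both y) (i, j)) ≤ fM i (fun j => X i j) := h1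
    rw [← coe_rv (hy.2 i), ← coe_rv h7, WithBot.coe_le_coe] at h8
    exact h8
  · have h1 : (min (both y e) B : ℤ) ≤ min (both (fun q => ext B fW X none (false, q)) e) B := by
      rw [ext_both1 hAM hMM hAW hMW hB0 hB hX e]
      have := X_bounds hAM hMM hAW hMW hB0 hB hX e.1 e.2
      omega
    have h2 : ((min (both y e) B : ℤ) : ℝ) ≤
        ((min (both (fun q => ext B fW X none (false, q)) e) B : ℤ) : ℝ) := by exact_mod_cast h1
    have h3 : (y (e, true) : ℝ) ≤ (ext B fW X none (false, (e, true)) : ℝ) := by
      exact_mod_cast hle e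
    have := mul_le_mul_of_nonneg_left h2 hK0.le
    linarith

/-- optimality in the second block -/
theorem ext_best_W (hK0' : 0 < K')
    (hK' : ∀ j i, fW j (unit (some i)) < fW j 0 + (K' : WithBot ℝ))
    {y : (M × W) × Bool → ℤ} (hy : domW B y)
    (hle : ∀ e, y (e, true) ≤ ext B fW X none (true, (e, true))) :
    valW B K' fW y ≤ valW B K' fW (fun q => ext B fW X none (true, q)) := by
  have hXb := X_bounds hAM hMM hAW hMW hB0 hB hX
  -- the claim for one woman
  have key : ∀ j, rv (disp (fW j)) (fun i => B - both y (i, j)) ≤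
      rv (disp (fW j)) (fun i => B - both (fun q => ext B fW X none (true, q)) (i, j)) +
      K' * ∑ i, ((ext B fW X none (true, ((i, j), true)) - y ((i, j), true) : ℤ) : ℝ) := by
    intro j
    have e1 : (fun i => B - both (fun q => ext B fW X none (true, q)) (i, j)) =
        fun i => X i j := by
      funext i; rw [ext_both2 hAM hMM hAW hMW hB0 hB hX (i, j)]; ring
    rw [e1]
    have h0 : (0 : M → ℤ) ≤ fun i => B - both y (i, j) := by
      intro i
      have := hy.2 (i, j)
      change 0 ≤ B - both y (i, j)
      omega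
    obtain ⟨y1, hy0, hyx, hyd, hyv⟩ := rv_disp_spec (hAW j) h0
    have h1 := rv_disp_ge (hAW j) (hX.1.2 j) (le_refl (fun i => X i j))
    -- reduce `y1`
    set δ : M → ℤ := fun i => ext B fW X none (true, ((i, j), true)) - y ((i, j), true) with hδ
    have hδ0 : ∀ i, 0 ≤ δ i := fun i => by have := hle (i, j); simp only [hδ]; omega
    set y2 : M → ℤ := fun i => max (y1 i - δ i) 0 with hy2
    have h20 : (0 : M → ℤ) ≤ y2 := fun i => le_max_right _ _
    have h21 : y2 ≤ y1 := by
      intro i
      have a1 : 0 ≤ y1 i := hy0 i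
      have a2 := hδ0 i
      simp only [hy2]; omega
    have h2d : fW j y2 ≠ ⊥ := (hAW j).hereditary _ _ hyd h20 h21
    have h3 : fW j y2 ≤ fW j (fun i => X i j) := by
      apply box_W hMW hX
      intro i hi
      have h4 : ext B fW X none (true, ((i, j), true)) = B - base B fW X (false, (i, j)) :=
        ext_inn X (false, (i, j))
      have h5 : base B fW X (false, (i, j)) = X i j := by simp only [base, if_pos hi]
      have h6 : y1 i ≤ B - both y (i, j) := hyx i
      have h7 := hy.1 ((i, j), false)
      have h8 := hXb i j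
      simp only [both] at h6
      simp only [hy2, hδ]
      omega
    have hsn : ∀ i, 0 ≤ y1 i - y2 i := fun i => by have : y2 i ≤ y1 i := h21 i; omega
    have h9 := marginal_many (hAW j) (hMW j) (K := K') (fun w => (hK' j w).le)
      (∑ w, (y1 w - y2 w)).toNat y2 y1 hyd h20 h21
      (Int.toNat_of_nonneg (Finset.sum_nonneg (fun i _ => hsn i))).symm
    have h10 : (((∑ w, (y1 w - y2 w)).toNat : ℕ) : ℝ) = ((∑ w, (y1 w - y2 w) : ℤ) : ℝ) := by
      have := Int.toNat_of_nonneg (Finset.sum_nonneg (fun i (_ : i ∈ Finset.univ) => hsn i))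
      exact_mod_cast this
    rw [h10] at h9
    have h11 : (∑ w, (y1 w - y2 w) : ℤ) ≤ ∑ i, δ i := by
      refine Finset.sum_le_sum (fun i _ => ?_)
      have a1 : 0 ≤ y1 i := hy0 i
      simp only [hy2]; omega
    have h12 : ((∑ w, (y1 w - y2 w) : ℤ) : ℝ) ≤ ∑ i, ((δ i : ℤ) : ℝ) := by
      exact_mod_cast h11
    have h13 : tot y1 ≤ tot (fun i => B - both y (i, j)) := by
      simp only [tot]
      exact_mod_cast Finset.sum_le_sum (fun i _ => hyx i)
    rw [← coe_rv h2d, ← coe_rv (hX.1.2 j), WithBot.coe_le_coe] at h3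
    have h14 := mul_le_mul_of_nonneg_left h12 hK0'.le
    simp only [sub_self, add_zero] at h1
    linarith
  rw [valW, valW]
  have h1 := Finset.sum_le_sum (fun j (_ : j ∈ Finset.univ) => key j)
  rw [Finset.sum_add_distrib, ← Finset.mul_sum, Finset.sum_comm,
    ← Fintype.sum_prod_type' (f := fun i j =>
      ((ext B fW X none (true, ((i, j), true)) - y ((i, j), true) : ℤ) : ℝ))] at h1
  have h2 : K' * ∑ e : M × W, ((ext B fW X none (true, ((e.1, e.2), true)) -
      y ((e.1, e.2), true) : ℤ) : ℝ) =
      ∑ e, K' * (ext B fW X none (true, (e, true)) : ℝ) - ∑ e, K' * (y (e, true) : ℝ) := by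
    rw [Finset.mul_sum, ← Finset.sum_sub_distrib]
    refine Finset.sum_congr rfl (fun e _ => ?_)
    push_cast; ring
  rw [h2] at h1
  linarith

/-- optimality of the nonlinear man -/
theorem ext_best (hK0 : 0 < K) (hK0' : 0 < K')
    (hK' : ∀ j i, fW j (unit (some i)) < fW j 0 + (K' : WithBot ℝ))
    {y : Port M W → ℤ} (hle : ∀ c, y (inn c) ≤ ext B fW X none (inn c)) :
    bigMan B K K' fM fW y ≤ bigMan B K K' fM fW (ext B fW X none) := by
  by_cases hyd : bigMan B K K' fM fW y = ⊥
  · rw [hyd]; exact bot_le
  · obtain ⟨h1, h2⟩ := (bigMan_ne_bot hAW).1 hyd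
    obtain ⟨h3, h4⟩ := ext_dom hAM hMM hAW hMW hB0 hB hX
    rw [bigMan_of_dom hAW h1 h2, bigMan_of_dom hAW h3 h4, WithBot.coe_le_coe]
    exact add_le_add
      (ext_best_M hAM hMM hAW hMW hB0 hB hX hK0 h1 (fun e => hle (true, e)))
      (ext_best_W hAM hMM hAW hMW hB0 hB hX hK0' hK' h2 (fun e => hle (false, e)))

theorem ext_wire_dom (c : Bool × (M × W)) :
    oneM B K K' fM fW (some c) (ext B fW X (some c)) ≠ ⊥ := by
  have h := base_bounds hAM hMM hAW hMW hB0 hB hX c
  have hs : ∑ p, ext B fW X (some c) p = B := by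
    rw [Fintype.sum_eq_add (out c) (inn c) (out_ne_inn c), ext_wire_out, ext_wire_inn]
    · ring
    · rintro p ⟨h1, h2⟩
      simp only [ext]
      rw [if_neg]
      intro hp
      rcases port_cases hp with hp | hp
      · exact h1 hp
      · exact h2 hp
  simp only [oneM, linq]
  rw [if_pos]
  · exact WithBot.coe_ne_bot
  · refine ⟨fun p => ?_, hs.le⟩
    simp only [ext]
    split_ifs <;> omega

theorem ext_woman_dom (p : Port M W) : oneW B p (fun m => ext B fW X m p) ≠ ⊥ := by
  have h := base_bounds hAM hMM hAW hMW hB0 hB hX (wire p)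
  have hs : ∑ m, ext B fW X m p = B := by
    rw [Fintype.sum_eq_add none (some (wire p)) (by simp)]
    · simp only [ext, if_true]
      split_ifs <;> ring
    · rintro m ⟨h1, h2⟩
      cases m with
      | none => exact absurd rfl h1
      | some c =>
        simp only [ext]
        rw [if_neg]
        rintro rfl
        exact h2 rfl
  simp only [oneW, linq]
  rw [if_pos]
  · exact WithBot.coe_ne_bot
  · refine ⟨fun m => ?_, hs.le⟩
    cases m with
    | none =>
      simp only [reduceCtorEq, false_imp_iff, implies_true, if_true]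
      exact ext_bounds hAM hMM hAW hMW hB0 hB hX p
    | some c =>
      have e1 : (∀ c', some c = some c' → wire p = c') ↔ wire p = c := by
        constructor
        · intro h; exact h c rfl
        · intro h c' hc'; cases hc'; exact h
      by_cases h1 : wire p = c
      · rw [if_pos (e1.2 h1)]
        simp only [ext]
        rw [if_pos h1]
        subst h1
        split_ifs <;> omega
      · rw [if_neg (fun h => h1 (e1.1 h))]
        simp only [ext]
        rw [if_neg h1]
        omega

theorem ext_wire_no_gain (c : Bool × (M × W)) {y : Port M W → ℤ}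
    (hy : y (out c) ≤ ext B fW X (some c) (out c)) :
    oneM B K K' fM fW (some c) y ≤ oneM B K K' fM fW (some c) (ext B fW X (some c)) := by
  refine linq_no_gain (out_ne_inn c) (by simp [out]) (by simp [inn]) ?_
    (ext_wire_dom hAM hMM hAW hMW hB0 hB hX c (K := K) (K' := K')) ?_ hy
  · rintro p ⟨h1, h2⟩
    rw [if_neg]
    intro hp
    rcases port_cases hp with hp | hp
    · exact h1 hp
    · exact h2 hp
  · rw [ext_wire_out, ext_wire_inn]; ring

theorem ext_woman_out (c : Bool × (M × W)) {y : Man M W → ℤ}
    (hy : y none ≤ ext B fW X none (out c)) :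
    oneW B (out c) y ≤ oneW B (out c) (fun m => ext B fW X m (out c)) := by
  refine linq_no_gain (u := none) (v := some c) (by simp) (by simp [out]) (by simp [out]) ?_
    (ext_woman_dom hAM hMM hAW hMW hB0 hB hX (out c)) ?_ hy
  · rintro m ⟨h1, h2⟩
    cases m with
    | none => exact absurd rfl h1
    | some c' =>
      rw [if_neg]
      intro h
      have := h c' rfl
      rw [wire_out] at this
      exact h2 (by rw [this])
  · rw [ext_wire_out, ext_out]; ring

theorem ext_woman_inn (c : Bool × (M × W)) {y : Man M W → ℤ}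
    (hy : y (some c) ≤ ext B fW X (some c) (inn c)) :
    oneW B (inn c) y ≤ oneW B (inn c) (fun m => ext B fW X m (inn c)) := by
  refine linq_no_gain (u := some c) (v := none) (by simp) (by simp [inn]) (by simp [inn]) ?_
    (ext_woman_dom hAM hMM hAW hMW hB0 hB hX (inn c)) ?_ hy
  · rintro m ⟨h1, h2⟩
    cases m with
    | none => exact absurd rfl h2
    | some c' =>
      rw [if_neg]
      intro h
      have := h c' rfl
      rw [wire_inn] at this
      exact h1 (by rw [this])
  · rw [ext_wire_inn, ext_inn]; ring

/-- **Every stable allocation is recovered.** -/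
theorem ext_stable (hK0 : 0 < K) (hK0' : 0 < K')
    (hK' : ∀ j i, fW j (unit (some i)) < fW j 0 + (K' : WithBot ℝ)) :
    Stable (oneM B K K' fM fW) (oneW B) (ext B fW X) := by
  have hbig : bigMan B K K' fM fW (ext B fW X none) ≠ ⊥ :=
    (bigMan_ne_bot hAW).2 (ext_dom hAM hMM hAW hMW hB0 hB hX)
  refine ⟨⟨?_, ext_woman_dom hAM hMM hAW hMW hB0 hB hX⟩, ?_⟩
  · intro m
    cases m with
    | none => exact hbig
    | some c => exact ext_wire_dom hAM hMM hAW hMW hB0 hB hX c
  rintro (⟨m, y, hy, hlt⟩ | ⟨p, y, hy, hlt⟩ | ⟨m, p, y', y'', h1, h2, h3, h4, h5⟩)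
  · cases m with
    | none =>
      exact absurd (ext_best hAM hMM hAW hMW hB0 hB hX hK0 hK0' hK' (fun c => hy (inn c)))
        (not_le.2 hlt)
    | some c =>
      exact absurd (ext_wire_no_gain hAM hMM hAW hMW hB0 hB hX c (hy (out c))) (not_le.2 hlt)
  · have hp := port_eq p
    split_ifs at hp with hκ
    · rw [hp] at hlt hy
      exact absurd (ext_woman_inn hAM hMM hAW hMW hB0 hB hX (wire p) (hy (some (wire p))))
        (not_le.2 hlt)
    · rw [hp] at hlt hy
      exact absurd (ext_woman_out hAM hMM hAW hMW hB0 hB hX (wire p) (hy none)) (not_le.2 hlt)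
  · have hp := port_eq p
    cases m with
    | none =>
      split_ifs at hp with hκ
      · -- an input port: the woman does not gain
        rw [hp] at h2 h4
        exact absurd (ext_woman_inn hAM hMM hAW hMW hB0 hB hX (wire p)
          (h4 (some (wire p)) (by simp))) (not_le.2 h2)
      · refine absurd (ext_best hAM hMM hAW hMW hB0 hB hX hK0 hK0' hK' (fun c => ?_))
          (not_le.2 h1)
        apply h3
        rw [hp]
        intro h
        have h6 : (inn c : Port M W).2.2 = (out (wire p) : Port M W).2.2 := by rw [h]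
        simp [inn, out] at h6
    | some c =>
      by_cases hpc : p = out c
      · subst hpc
        exact absurd (ext_woman_out hAM hMM hAW hMW hB0 hB hX c (h4 none (by simp)))
          (not_le.2 h2)
      · exact absurd (ext_wire_no_gain hAM hMM hAW hMW hB0 hB hX c
          (h3 (out c) (fun h => hpc h.symm))) (not_le.2 h1)

end back

end

end Pool.Agent.Helper250_Alloc
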