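import Pool.Agent.Helper250_Alloc.Defs

/-!
An instance of the stable allocation problem with a single nonlinear agent, made from an arbitrary
instance.
-/

set_option autoImplicit false

namespace Pool.Agent.Helper250_Alloc

open Classical in
/-- A linear value function under upper bounds for the coordinates and one quota: the value is
`∑ wt(u) y(u)` if `0 ≤ y ≤ cap` and `∑ y(u) ≤ q`, and `-∞` otherwise. -/
noncomputable def linq {U : Type} [Fintype U] (wt : U → ℝ) (cap : U → ℤ) (q : ℤ) (y : U → ℤ) :
    WithBot ℝ :=
  if (∀ u, 0 ≤ y u ∧ y u ≤ cap u) ∧ ∑ u, y u ≤ q then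
    ((∑ u, wt u * (y u : ℝ) : ℝ) : WithBot ℝ)
  else ⊥

/-- Disposal at unit cost: `max {g(y) - ∑ (x(u) - y(u)) : 0 ≤ y ≤ x}`. -/
noncomputable def disp {U : Type} [Fintype U] [DecidableEq U] (g : (U → ℤ) → WithBot ℝ)
    (x : U → ℤ) : WithBot ℝ :=
  (Finset.Icc 0 x).sup (fun y => g y + ((∑ u, ((y u - x u : ℤ) : ℝ) : ℝ) : WithBot ℝ))

section
variable {M W : Type} [Fintype M] [DecidableEq M] [Fintype W] [DecidableEq W]

/-- The first block of the nonlinear man: for `a, b : M × W → [0, B]` (`a = y(·, false)`,
`b = y(·, true)`) the value is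
`∑_i f_i((a + b - B)⁺_(i)) + ∑_e (K min(a_e + b_e, B) + b_e)`. -/
noncomputable def blockM (B : ℤ) (K : ℝ) (fM : M → (W → ℤ) → WithBot ℝ)
    (y : (M × W) × Bool → ℤ) : WithBot ℝ :=
  open Classical in
  if ∀ q, 0 ≤ y q ∧ y q ≤ B then
    ∑ i, fM i (fun j => max (y ((i, j), false) + y ((i, j), true) - B) 0) +
      ((∑ e, (K * ((min (y (e, false) + y (e, true)) B : ℤ) : ℝ) + (y (e, true) : ℝ)) : ℝ) :
        WithBot ℝ)
  else ⊥

/-- The second block of the nonlinear man: for `a, b : M × W → [0, B]` (`a = y(·, false)`,
`b = y(·, true)`) the value is `∑_j disp f_j ((B - (a + b))_(j)) + ∑_e K b_e`. -/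
noncomputable def blockW (B : ℤ) (K : ℝ) (fW : W → (M → ℤ) → WithBot ℝ)
    (y : (M × W) × Bool → ℤ) : WithBot ℝ :=
  open Classical in
  if ∀ q, 0 ≤ y q ∧ y q ≤ B then
    ∑ j, disp (fW j) (fun i => B - (y ((i, j), false) + y ((i, j), true))) +
      ((∑ e, K * (y (e, true) : ℝ) : ℝ) : WithBot ℝ)
  else ⊥

/-- The women of the new instance: four for each pair of the old one. A woman is
`(k, (e, false))` (an output of the block `k` for the pair `e`) or `(k, (e, true))` (an input of the
block `k` for the pair `e`). -/
abbrev Port (M W : Type) : Type := Bool × ((M × W) × Bool)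

/-- The men of the new instance: the nonlinear man `none`, and the wires `some (k, e)`. -/
abbrev Man (M W : Type) : Type := Option (Bool × (M × W))

/-- The wire at a woman: the wire `(k, e)` connects the output of the block `k` with the input of
the other block, for the pair `e`. -/
def wire : Port M W → Bool × (M × W)
  | (k, (e, false)) => (k, e)
  | (k, (e, true)) => (!k, e)

/-- The value functions of the men: the nonlinear man has the sum of the two blocks, the wire `c` is
linear with quota `B`, prefers its output (weight 2) to its input (weight 1), and has the upper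
bounds `B` at these two women and `0` at all others. -/
noncomputable def oneM (B : ℤ) (K K' : ℝ) (fM : M → (W → ℤ) → WithBot ℝ)
    (fW : W → (M → ℤ) → WithBot ℝ) : Man M W → (Port M W → ℤ) → WithBot ℝ
  | none => fun y => blockM B K fM (fun q => y (false, q)) + blockW B K' fW (fun q => y (true, q))
  | some c => linq (fun p => if p.2.2 then 1 else 2) (fun p => if wire p = c then B else 0) B

/-- The value functions of the women: linear with quota `B` and with the upper bounds `B` at the
nonlinear man and at their wire and `0` at the other wires. Outputs prefer the nonlinear man, inputs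
prefer their wire. -/
noncomputable def oneW (B : ℤ) : Port M W → (Man M W → ℤ) → WithBot ℝ :=
  fun p => linq (fun m => if (m.isSome ↔ p.2.2) then 2 else 1)
    (fun m => if ∀ c, m = some c → wire p = c then B else 0) B

end

end Pool.Agent.Helper250_Alloc
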