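import Pool.Agent.Helper250_Alloc.ArrivalDefs
import Pool.Agent.Helper250_Alloc.MNat

/-!
Separable concave functions under bounds and partition quotas.
-/

set_option autoImplicit false
set_option linter.unusedVariables false
set_option linter.unusedSectionVars false

namespace Pool.Agent.Helper250_Alloc

open Classical in
/-- sum over one class -/
noncomputable def csum {U G : Type} [Fintype U] (grp : U → G) (y : U → ℤ) (c : G) : ℤ :=
  ∑ u, (if grp u = c then y u else 0)

/-- `y` can be improved with one more unit at `u` and nothing more elsewhere -/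
def Improves {U : Type} (f : (U → ℤ) → WithBot ℝ) (y : U → ℤ) (u : U) : Prop :=
  ∃ y', f y < f y' ∧ y' u = y u + 1 ∧ ∀ w, w ≠ u → y' w ≤ y w

theorem no_block {M W : Type} {fM : M → (W → ℤ) → WithBot ℝ} {fW : W → (M → ℤ) → WithBot ℝ}
    {x : M → W → ℤ} (hx : Stable fM fW x) {i : M} {j : W} (h1 : Improves (fM i) (x i) j)
    (h2 : Improves (fW j) (fun i => x i j) i) : False := by
  obtain ⟨y', a1, a2, a3⟩ := h1
  obtain ⟨y'', b1, b2, b3⟩ := h2
  exact hx.2 (Or.inr (Or.inr ⟨i, j, y', y'', a1, b1, a3, b3, by rw [a2, b2]⟩))

section
variable {U G : Type} [Fintype U] [DecidableEq U] {φ : U → ℤ → ℝ} {cap : U → ℤ} {grp : U → G}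
  {Q : G → ℤ}

/-- the domain -/
def SDom (cap : U → ℤ) (grp : U → G) (Q : G → ℤ) (y : U → ℤ) : Prop :=
  (∀ u, 0 ≤ y u ∧ y u ≤ cap u) ∧ ∀ c, csum grp y c ≤ Q c

theorem sep_of_dom {y : U → ℤ} (h : SDom cap grp Q y) :
    sep φ cap grp Q y = ((∑ u, φ u (y u) : ℝ) : WithBot ℝ) := by
  rw [sep, if_pos]
  exact h

theorem sep_ne_bot {y : U → ℤ} : sep φ cap grp Q y ≠ ⊥ ↔ SDom cap grp Q y := by
  constructor
  · intro h
    by_contra hcon
    apply h
    rw [sep, if_neg]
    exact hcon
  · intro h
    rw [sep_of_dom h]
    exact WithBot.coe_ne_bot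

theorem csum_mono {y y' : U → ℤ} (h : ∀ u, y' u ≤ y u) (c : G) : csum grp y' c ≤ csum grp y c := by
  classical
  refine Finset.sum_le_sum (fun u _ => ?_)
  split_ifs
  · exact h u
  · exact le_rfl

theorem csum_add (y y' : U → ℤ) (c : G) : csum grp (y + y') c = csum grp y c + csum grp y' c := by
  classical
  simp only [csum]
  rw [← Finset.sum_add_distrib]
  refine Finset.sum_congr rfl (fun u _ => ?_)
  split_ifs <;> simp

theorem csum_sub (y y' : U → ℤ) (c : G) : csum grp (y - y') c = csum grp y c - csum grp y' c := by
  classical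
  simp only [csum]
  rw [← Finset.sum_sub_distrib]
  refine Finset.sum_congr rfl (fun u _ => ?_)
  split_ifs <;> simp

open Classical in
theorem csum_unit (u : U) (c : G) :
    csum grp (unit (some u)) c = if grp u = c then 1 else 0 := by
  simp only [csum]
  rw [Finset.sum_eq_single u]
  · rw [unit_apply_some, if_pos rfl]
  · intro v _ hv
    rw [unit_apply_some, if_neg hv]; simp
  · intro h; exact absurd (Finset.mem_univ u) h

theorem sep_condA (hcap : ∀ u, 0 ≤ cap u) (hQ : ∀ c, 0 ≤ Q c) : CondA (sep φ cap grp Q) := by
  refine ⟨⟨∑ u, cap u, ?_⟩, ?_, ?_, ?_⟩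
  · intro y hy v
    obtain ⟨h1, -⟩ := sep_ne_bot.1 hy
    rw [abs_of_nonneg (h1 v).1]
    exact (h1 v).2.trans (Finset.single_le_sum (f := cap) (fun u _ => hcap u) (Finset.mem_univ v))
  · rw [sep_ne_bot]
    refine ⟨fun u => ⟨le_rfl, hcap u⟩, fun c => ?_⟩
    have : csum grp (0 : U → ℤ) c = 0 := by simp [csum]
    rw [this]; exact hQ c
  · intro y hy u
    exact ((sep_ne_bot.1 hy).1 u).1
  · intro y y' hy h0 hle
    obtain ⟨h1, h2⟩ := sep_ne_bot.1 hy
    rw [sep_ne_bot]
    exact ⟨fun u => ⟨h0 u, (hle u).trans (h1 u).2⟩, fun c => (csum_mono hle c).trans (h2 c)⟩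

theorem sep_mnat (hφ : ∀ u (s t : ℤ), s ≤ t → φ u (t + 1) - φ u t ≤ φ u (s + 1) - φ u s) :
    MNat (sep φ cap grp Q) := by
  classical
  intro x y hx hy u hu
  rw [sep_ne_bot] at hx hy
  obtain ⟨hx1, hx2⟩ := hx
  obtain ⟨hy1, hy2⟩ := hy
  -- the value inequality for an exchange
  have hval : ∀ v : Option U, (∀ w, v = some w → x w < y w) →
      SDom cap grp Q (x - unit (some u) + unit v) → SDom cap grp Q (y + unit (some u) - unit v) →
      sep φ cap grp Q x + sep φ cap grp Q y ≤ sep φ cap grp Q (x - unit (some u) + unit v) +
        sep φ cap grp Q (y + unit (some u) - unit v) := by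
    intro v hv h1 h2
    rw [sep_of_dom ⟨hx1, hx2⟩, sep_of_dom ⟨hy1, hy2⟩, sep_of_dom h1, sep_of_dom h2,
      ← WithBot.coe_add, ← WithBot.coe_add, WithBot.coe_le_coe, ← Finset.sum_add_distrib,
      ← Finset.sum_add_distrib]
    refine Finset.sum_le_sum (fun w _ => ?_)
    change φ w (x w) + φ w (y w) ≤ φ w (x w - unit (some u) w + unit v w) +
      φ w (y w + unit (some u) w - unit v w)
    by_cases hw : w = u
    · subst hw
      have hvw : v ≠ some w := by rintro rfl; have := hv w rfl; omega
      rw [unit_eq_zero hvw, unit_apply_some, if_pos rfl, add_zero, sub_zero]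
      have := hφ w (y w) (x w - 1) (by omega)
      rw [sub_add_cancel] at this
      linarith
    · rw [unit_apply_some, if_neg hw, sub_zero, add_zero]
      by_cases hvw : v = some w
      · subst hvw
        have h3 := hv w rfl
        rw [unit_apply_some, if_pos rfl]
        have := hφ w (x w) (y w - 1) (by omega)
        rw [sub_add_cancel] at this
        linarith
      · rw [unit_eq_zero hvw, add_zero, sub_zero]
  by_cases hlt : csum grp y (grp u) < Q (grp u)
  · refine ⟨none, by simp, hval none (by simp) ?_ ?_⟩
    · rw [unit_none, add_zero]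
      constructor
      · intro w
        change 0 ≤ x w - unit (some u) w ∧ x w - unit (some u) w ≤ cap w
        have := hx1 w
        rw [unit_apply_some]
        by_cases hw : w = u
        · subst hw; have := hy1 w; rw [if_pos rfl]; omega
        · rw [if_neg hw]; omega
      · intro c
        refine le_trans (csum_mono (fun w => ?_) c) (hx2 c)
        change x w - unit (some u) w ≤ x w
        have h0 : 0 ≤ unit (some u) w := unit_nonneg _ w
        omega
    · rw [unit_none, sub_zero]
      constructor
      · intro w
        change 0 ≤ y w + unit (some u) w ∧ y w + unit (some u) w ≤ cap w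
        have := hy1 w
        rw [unit_apply_some]
        by_cases hw : w = u
        · subst hw; have := hx1 w; rw [if_pos rfl]; omega
        · rw [if_neg hw]; omega
      · intro c
        rw [csum_add, csum_unit]
        split_ifs with hc
        · subst hc; omega
        · have := hy2 c; omega
  · push Not at hlt
    have h1 : ∃ v, grp v = grp u ∧ x v < y v := by
      by_contra hcon
      push Not at hcon
      have h2 : csum grp y (grp u) < csum grp x (grp u) := by
        apply Finset.sum_lt_sum
        · intro w _
          split_ifs with hw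
          · exact hcon w hw
          · exact le_rfl
        · exact ⟨u, Finset.mem_univ u, by simpa using hu⟩
      have := hx2 (grp u)
      omega
    obtain ⟨v, hvg, hv⟩ := h1
    have hvu : v ≠ u := by rintro rfl; omega
    refine ⟨some v, by rintro w hw; cases hw; exact hv, hval (some v) (by
      rintro w hw; cases hw; exact hv) ?_ ?_⟩
    · constructor
      · intro w
        change 0 ≤ x w - unit (some u) w + unit (some v) w ∧
          x w - unit (some u) w + unit (some v) w ≤ cap w
        have := hx1 w
        have := hy1 w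
        rw [unit_apply_some, unit_apply_some]
        by_cases hw : w = u
        · subst hw; rw [if_pos rfl, if_neg (Ne.symm hvu)]; omega
        · rw [if_neg hw]
          by_cases hw' : w = v
          · subst hw'; rw [if_pos rfl]; omega
          · rw [if_neg hw']; omega
      · intro c
        rw [csum_add, csum_sub, csum_unit, csum_unit, hvg]
        have := hx2 c
        omega
    · constructor
      · intro w
        change 0 ≤ y w + unit (some u) w - unit (some v) w ∧
          y w + unit (some u) w - unit (some v) w ≤ cap w
        have := hx1 w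
        have := hy1 w
        rw [unit_apply_some, unit_apply_some]
        by_cases hw : w = u
        · subst hw; rw [if_pos rfl, if_neg (Ne.symm hvu)]; omega
        · rw [if_neg hw]
          by_cases hw' : w = v
          · subst hw'; rw [if_pos rfl]; omega
          · rw [if_neg hw']; omega
      · intro c
        rw [csum_sub, csum_add, csum_unit, csum_unit, hvg]
        have := hy2 c
        omega

/-- adding one unit -/
theorem sep_add {y : U → ℤ} (hy : SDom cap grp Q y) {u : U} (h1 : y u + 1 ≤ cap u)
    (h2 : csum grp y (grp u) + 1 ≤ Q (grp u)) (hlt : φ u (y u) < φ u (y u + 1)) :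
    Improves (sep φ cap grp Q) y u := by
  classical
  obtain ⟨hy1, hy2⟩ := hy
  have hdom : SDom cap grp Q (y + unit (some u)) := by
    constructor
    · intro w
      change 0 ≤ y w + unit (some u) w ∧ y w + unit (some u) w ≤ cap w
      have := hy1 w
      rw [unit_apply_some]
      by_cases hw : w = u
      · subst hw; rw [if_pos rfl]; omega
      · rw [if_neg hw]; omega
    · intro c
      rw [csum_add, csum_unit]
      split_ifs with hc
      · subst hc; omega
      · have := hy2 c; omega
  refine ⟨y + unit (some u), ?_, ?_, ?_⟩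
  · rw [sep_of_dom ⟨hy1, hy2⟩, sep_of_dom hdom, WithBot.coe_lt_coe]
    apply Finset.sum_lt_sum
    · intro w _
      change φ w (y w) ≤ φ w (y w + unit (some u) w)
      rw [unit_apply_some]
      by_cases hw : w = u
      · subst hw; rw [if_pos rfl]; exact hlt.le
      · rw [if_neg hw, add_zero]
    · refine ⟨u, Finset.mem_univ u, ?_⟩
      change φ u (y u) < φ u (y u + unit (some u) u)
      rw [unit_apply_some, if_pos rfl]
      exact hlt
  · change y u + unit (some u) u = y u + 1
    rw [unit_apply_some, if_pos rfl]
  · intro w hw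
    change y w + unit (some u) w ≤ y w
    rw [unit_apply_some, if_neg hw, add_zero]

/-- moving one unit from `v` to `u` -/
theorem sep_swap {y : U → ℤ} (hy : SDom cap grp Q y) {u v : U} (huv : u ≠ v)
    (hg : grp u = grp v) (h1 : y u + 1 ≤ cap u) (h2 : 1 ≤ y v)
    (hlt : φ u (y u) + φ v (y v) < φ u (y u + 1) + φ v (y v - 1)) :
    Improves (sep φ cap grp Q) y u := by
  classical
  obtain ⟨hy1, hy2⟩ := hy
  have hdom : SDom cap grp Q (y + unit (some u) - unit (some v)) := by
    constructor
    · intro w
      change 0 ≤ y w + unit (some u) w - unit (some v) w ∧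
        y w + unit (some u) w - unit (some v) w ≤ cap w
      have := hy1 w
      rw [unit_apply_some, unit_apply_some]
      by_cases hw : w = u
      · subst hw; rw [if_pos rfl, if_neg huv]; omega
      · rw [if_neg hw]
        by_cases hw' : w = v
        · subst hw'; rw [if_pos rfl]; omega
        · rw [if_neg hw']; omega
    · intro c
      rw [csum_sub, csum_add, csum_unit, csum_unit, hg]
      have := hy2 c
      omega
  refine ⟨y + unit (some u) - unit (some v), ?_, ?_, ?_⟩
  · rw [sep_of_dom ⟨hy1, hy2⟩, sep_of_dom hdom, WithBot.coe_lt_coe]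
    have e : ∀ z : U → ℤ, ∑ w, φ w (z w) = φ u (z u) + φ v (z v) +
        ∑ w ∈ (Finset.univ.erase u).erase v, φ w (z w) := by
      intro z
      rw [← Finset.add_sum_erase Finset.univ _ (Finset.mem_univ u),
        ← Finset.add_sum_erase (Finset.univ.erase u) _ (Finset.mem_erase.2 ⟨huv.symm,
          Finset.mem_univ v⟩), add_assoc]
    rw [e, e]
    have e1 : (y + unit (some u) - unit (some v)) u = y u + 1 := by
      change y u + unit (some u) u - unit (some v) u = _
      rw [unit_apply_some, unit_apply_some, if_pos rfl, if_neg huv, sub_zero]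
    have e2 : (y + unit (some u) - unit (some v)) v = y v - 1 := by
      change y v + unit (some u) v - unit (some v) v = _
      rw [unit_apply_some, unit_apply_some, if_pos rfl, if_neg huv.symm, add_zero]
    have e3 : ∑ w ∈ (Finset.univ.erase u).erase v,
        φ w ((y + unit (some u) - unit (some v)) w) =
        ∑ w ∈ (Finset.univ.erase u).erase v, φ w (y w) := by
      refine Finset.sum_congr rfl (fun w hw => ?_)
      rw [Finset.mem_erase, Finset.mem_erase] at hw
      change φ w (y w + unit (some u) w - unit (some v) w) = _
      rw [unit_apply_some, unit_apply_some, if_neg hw.1, if_neg hw.2.1, add_zero, sub_zero]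
    rw [e1, e2, e3]
    linarith
  · change y u + unit (some u) u - unit (some v) u = y u + 1
    rw [unit_apply_some, unit_apply_some, if_pos rfl, if_neg huv, sub_zero]
  · intro w hw
    change y w + unit (some u) w - unit (some v) w ≤ y w
    have h0 : 0 ≤ unit (some v) w := unit_nonneg _ w
    rw [unit_apply_some u, if_neg hw]
    omega

end

end Pool.Agent.Helper250_Alloc
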