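import Pool.Agent.Helper250_Alloc.Disp
import Pool.Agent.Helper250_Alloc.Sep

/-!
The value functions of the instance with one nonlinear agent: domains, (A), M-natural-concavity.
-/

set_option autoImplicit false
set_option linter.unusedVariables false
set_option linter.unusedSectionVars false

namespace Pool.Agent.Helper250_Alloc

theorem linq_eq_sep {U : Type} [Fintype U] (wt : U → ℝ) (cap : U → ℤ) (q : ℤ) :
    linq wt cap q = sep (fun u t => wt u * (t : ℝ)) cap (fun _ => ()) (fun _ => q) := by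
  funext y
  simp only [linq, sep, if_true, forall_const]

theorem linq_condA {U : Type} [Fintype U] [DecidableEq U] {wt : U → ℝ} {cap : U → ℤ} {q : ℤ}
    (hcap : ∀ u, 0 ≤ cap u) (hq : 0 ≤ q) : CondA (linq wt cap q) := by
  rw [linq_eq_sep]
  exact sep_condA hcap (fun _ => hq)

theorem linq_mnat {U : Type} [Fintype U] [DecidableEq U] {wt : U → ℝ} {cap : U → ℤ} {q : ℤ} :
    MNat (linq wt cap q) := by
  rw [linq_eq_sep]
  apply sep_mnat
  intro u s t _
  push_cast
  linarith

theorem linq_dom {U : Type} [Fintype U] {wt : U → ℝ} {cap : U → ℤ} {q : ℤ} {y : U → ℤ}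
    (h : linq wt cap q y ≠ ⊥) : (∀ u, 0 ≤ y u ∧ y u ≤ cap u) ∧ ∑ u, y u ≤ q := by
  by_contra hcon
  apply h
  rw [linq, if_neg hcon]

theorem linq_sdom {U : Type} [Fintype U] {wt : U → ℝ} {cap : U → ℤ} {q : ℤ} {y : U → ℤ}
    (h : linq wt cap q y ≠ ⊥) : SDom cap (fun _ => ()) (fun _ : Unit => q) y := by
  obtain ⟨h1, h2⟩ := linq_dom h
  refine ⟨h1, fun c => ?_⟩
  simpa [csum] using h2

theorem linq_add {U : Type} [Fintype U] [DecidableEq U] {wt : U → ℝ} {cap : U → ℤ} {q : ℤ}
    {y : U → ℤ} (h : linq wt cap q y ≠ ⊥) {u : U} (h1 : y u + 1 ≤ cap u)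
    (h2 : ∑ u, y u + 1 ≤ q) (hw : 0 < wt u) : Improves (linq wt cap q) y u := by
  have hd := linq_sdom h
  rw [linq_eq_sep]
  refine sep_add hd h1 ?_ ?_
  · simpa [csum] using h2
  · push_cast; linarith

theorem linq_swap {U : Type} [Fintype U] [DecidableEq U] {wt : U → ℝ} {cap : U → ℤ} {q : ℤ}
    {y : U → ℤ} (h : linq wt cap q y ≠ ⊥) {u v : U} (huv : u ≠ v) (h1 : y u + 1 ≤ cap u)
    (h2 : 1 ≤ y v) (hw : wt v < wt u) : Improves (linq wt cap q) y u := by
  have hd := linq_sdom h
  rw [linq_eq_sep]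
  refine sep_swap hd huv rfl h1 h2 ?_
  push_cast; linarith

theorem sum_coe_rv {A V : Type} [Fintype A] {g : A → (V → ℤ) → WithBot ℝ} {x : A → V → ℤ}
    (h : ∀ a, g a (x a) ≠ ⊥) : ∑ a, g a (x a) = ((∑ a, rv (g a) (x a) : ℝ) : WithBot ℝ) := by
  rw [WithBot.coe_sum]
  exact Finset.sum_congr rfl (fun a _ => (coe_rv (h a)).symm)

section
variable {M W : Type} [Fintype M] [DecidableEq M] [Fintype W] [DecidableEq W]
variable {B : ℤ} {K K' : ℝ} {fM : M → (W → ℤ) → WithBot ℝ} {fW : W → (M → ℤ) → WithBot ℝ}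

/-- the domain of the first block -/
def domM (B : ℤ) (fM : M → (W → ℤ) → WithBot ℝ) (y : (M × W) × Bool → ℤ) : Prop :=
  (∀ q, 0 ≤ y q ∧ y q ≤ B) ∧ ∀ i, fM i (fun j => above B (both y) (i, j)) ≠ ⊥

/-- the value of the first block -/
noncomputable def valM (B : ℤ) (K : ℝ) (fM : M → (W → ℤ) → WithBot ℝ)
    (y : (M × W) × Bool → ℤ) : ℝ :=
  ∑ i, rv (fM i) (fun j => above B (both y) (i, j)) +
    ∑ e, (K * ((min (both y e) B : ℤ) : ℝ) + (y (e, true) : ℝ))

/-- the domain of the second block -/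
def domW (B : ℤ) (y : (M × W) × Bool → ℤ) : Prop :=
  (∀ q, 0 ≤ y q ∧ y q ≤ B) ∧ ∀ e, both y e ≤ B

/-- the value of the second block -/
noncomputable def valW (B : ℤ) (K : ℝ) (fW : W → (M → ℤ) → WithBot ℝ)
    (y : (M × W) × Bool → ℤ) : ℝ :=
  ∑ j, rv (disp (fW j)) (fun i => B - both y (i, j)) + ∑ e, K * (y (e, true) : ℝ)

theorem blockM_of_dom {y : (M × W) × Bool → ℤ} (h : domM B fM y) :
    blockM B K fM y = (valM B K fM y : WithBot ℝ) := by
  rw [blockM, if_pos h.1, valM, WithBot.coe_add, ← sum_coe_rv h.2]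
  rfl

theorem blockM_ne_bot {y : (M × W) × Bool → ℤ} : blockM B K fM y ≠ ⊥ ↔ domM B fM y := by
  constructor
  · intro h
    by_cases hb : ∀ q, 0 ≤ y q ∧ y q ≤ B
    · refine ⟨hb, fun i hi => h ?_⟩
      rw [blockM, if_pos hb]
      have : ∑ i, fM i (fun j => max (y ((i, j), false) + y ((i, j), true) - B) 0) = ⊥ :=
        WithBot.sum_eq_bot_iff.2 ⟨i, Finset.mem_univ i, hi⟩
      rw [this, WithBot.bot_add]
    · exfalso; apply h; rw [blockM, if_neg hb]
  · intro h; rw [blockM_of_dom h]; exact WithBot.coe_ne_bot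

theorem domW_iff (hAW : ∀ j, CondA (fW j)) {y : (M × W) × Bool → ℤ} (j : W) :
    disp (fW j) (fun i => B - both y (i, j)) ≠ ⊥ ↔ ∀ i, both y (i, j) ≤ B := by
  rw [disp_ne_bot (hAW j)]
  constructor
  · intro h i
    have : 0 ≤ B - both y (i, j) := h i
    omega
  · intro h i
    have := h i
    change 0 ≤ B - both y (i, j)
    omega

theorem blockW_of_dom (hAW : ∀ j, CondA (fW j)) {y : (M × W) × Bool → ℤ} (h : domW B y) :
    blockW B K fW y = (valW B K fW y : WithBot ℝ) := by
  rw [blockW, if_pos h.1, valW, WithBot.coe_add,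
    ← sum_coe_rv (fun j => (domW_iff hAW j).2 (fun i => h.2 (i, j)))]
  rfl

theorem blockW_ne_bot (hAW : ∀ j, CondA (fW j)) {y : (M × W) × Bool → ℤ} :
    blockW B K fW y ≠ ⊥ ↔ domW B y := by
  constructor
  · intro h
    by_cases hb : ∀ q, 0 ≤ y q ∧ y q ≤ B
    · refine ⟨hb, fun e => ?_⟩
      by_contra hcon
      apply h
      rw [blockW, if_pos hb]
      have h1 : disp (fW e.2) (fun i => B - both y (i, e.2)) = ⊥ := by
        by_contra h2
        exact hcon ((domW_iff hAW e.2).1 h2 e.1)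
      have : ∑ j, disp (fW j) (fun i => B - (y ((i, j), false) + y ((i, j), true))) = ⊥ :=
        WithBot.sum_eq_bot_iff.2 ⟨e.2, Finset.mem_univ _, h1⟩
      rw [this, WithBot.bot_add]
    · exfalso; apply h; rw [blockW, if_neg hb]
  · intro h; rw [blockW_of_dom hAW h]; exact WithBot.coe_ne_bot

theorem lin_sum {V : Type} [Fintype V] (K : ℝ) (y : V × Bool → ℤ) :
    ∑ u, (if u.2 = true then K else 0) * (y u : ℝ) = ∑ e, K * (y (e, true) : ℝ) := by
  rw [Fintype.sum_prod_type]
  simp

theorem RM_M (hAM : ∀ i, CondA (fM i)) (hMM : ∀ i, MNat (fM i))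
    (hK : ∀ i w, fM i (unit (some w)) ≤ fM i 0 + (K : WithBot ℝ)) :
    RM (domM B fM) (valM B K fM) := by
  have h1 := RM.sum (fun i => RM_of_MNat (hMM i))
  have h2 := h1.lift (B := B) (K := K) ?_ ?_ ?_
  · have h3 := (h2.split B).add_linear (fun q => if q.2 then 1 else 0)
    have e : valM B K fM = fun y => (∑ i, rv (fM i) (fun j => above B (both y) (i, j)) +
        ∑ e, K * ((min (both y e) B : ℤ) : ℝ)) +
          ∑ u, (if u.2 = true then (1 : ℝ) else 0) * (y u : ℝ) := by
      funext y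
      rw [valM, Finset.sum_add_distrib, ← add_assoc, lin_sum]
      simp only [one_mul]
    rw [e]
    exact h3
  · intro x hx e
    exact (hAM e.1).nonneg _ (hx e.1) e.2
  · intro x x' hx h0 hle i
    exact (hAM i).hereditary _ _ (hx i) (fun j => h0 (i, j)) (fun j => hle (i, j))
  · rintro x ⟨i, w⟩ hx hx'
    have e1 : ∀ a, (fun j => (x + unit (some (i, w))) (a, j)) =
        if a = i then (fun j => x (a, j)) + unit (some w) else fun j => x (a, j) := by
      intro a
      split_ifs with ha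
      · subst ha
        funext j
        have := congrFun (slice_unit_same a (some w)) j
        simp only [Option.map_some] at this
        simp only [Pi.add_apply, this]
      · funext j
        have := congrFun (slice_unit_ne ha (some w)) j
        simp only [Option.map_some, Pi.zero_apply] at this
        simp only [Pi.add_apply, this, add_zero]
    have h3 : ∀ a, rv (fM a) (fun j => (x + unit (some (i, w))) (a, j)) ≤
        rv (fM a) (fun j => x (a, j)) + if a = i then K else 0 := by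
      intro a
      have h4 : fM a (fun j => (x + unit (some (i, w))) (a, j)) ≠ ⊥ := hx' a
      rw [e1 a] at h4 ⊢
      split_ifs with ha
      · subst ha
        rw [if_pos rfl] at h4
        exact marginal_le (hAM a) (hMM a) h4 (hx a) (hK a w)
      · rw [add_zero]
    calc ∑ a, rv (fM a) (fun j => (x + unit (some (i, w))) (a, j))
        ≤ ∑ a, (rv (fM a) (fun j => x (a, j)) + if a = i then K else 0) :=
          Finset.sum_le_sum (fun a _ => h3 a)
      _ = ∑ a, rv (fM a) (fun j => x (a, j)) + K := by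
          rw [Finset.sum_add_distrib, Finset.sum_ite_eq' Finset.univ i, if_pos (Finset.mem_univ i)]

theorem RM_W (hAW : ∀ j, CondA (fW j)) (hMW : ∀ j, MNat (fW j)) :
    RM (domW (M := M) (W := W) B) (valW B K fW) := by
  have h1 := (RM.sum (fun j => RM_disp (hAW j) (hMW j))).comp (Equiv.prodComm W M)
  have h2 := ((h1.reflect (fun _ => B)).split B).add_linear (fun q => if q.2 then K else 0)
  convert h2 using 2 with y y
  · rw [domW]
    refine and_congr Iff.rfl ?_
    constructor
    · intro h j i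
      have := h (i, j)
      change 0 ≤ B - both y (i, j)
      omega
    · rintro h ⟨i, j⟩
      have : 0 ≤ B - both y (i, j) := h j i
      omega
  · rw [valW, lin_sum]
    rfl

/-- the two blocks together -/
noncomputable def bigMan (B : ℤ) (K K' : ℝ) (fM : M → (W → ℤ) → WithBot ℝ)
    (fW : W → (M → ℤ) → WithBot ℝ) (y : Port M W → ℤ) : WithBot ℝ :=
  blockM B K fM (fun q => y (false, q)) + blockW B K' fW (fun q => y (true, q))

theorem bigMan_of_dom (hAW : ∀ j, CondA (fW j)) {y : Port M W → ℤ}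
    (h1 : domM B fM (fun q => y (false, q))) (h2 : domW B (fun q => y (true, q))) :
    bigMan B K K' fM fW y =
      ((valM B K fM (fun q => y (false, q)) + valW B K' fW (fun q => y (true, q)) : ℝ) :
        WithBot ℝ) := by
  rw [bigMan, blockM_of_dom h1, blockW_of_dom hAW h2, WithBot.coe_add]

theorem bigMan_ne_bot (hAW : ∀ j, CondA (fW j)) {y : Port M W → ℤ} :
    bigMan B K K' fM fW y ≠ ⊥ ↔
      domM B fM (fun q => y (false, q)) ∧ domW B (fun q => y (true, q)) := by
  constructor
  · intro h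
    constructor
    · apply (blockM_ne_bot (K := K)).1
      intro h0; apply h; rw [bigMan, h0, WithBot.bot_add]
    · apply (blockW_ne_bot (K := K') hAW).1
      intro h0; apply h; rw [bigMan, h0, WithBot.add_bot]
  · rintro ⟨h1, h2⟩
    rw [bigMan_of_dom hAW h1 h2]
    exact WithBot.coe_ne_bot

theorem bigMan_mnat (hAM : ∀ i, CondA (fM i)) (hMM : ∀ i, MNat (fM i))
    (hAW : ∀ j, CondA (fW j)) (hMW : ∀ j, MNat (fW j))
    (hK : ∀ i w, fM i (unit (some w)) ≤ fM i 0 + (K : WithBot ℝ)) :
    MNat (bigMan B K K' fM fW) := by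
  have h : ∀ k : Bool, RM (fun y => if k then domW B y else domM B fM y)
      (fun y => if k then valW B K' fW y else valM B K fM y) := by
    intro k
    cases k
    · simpa using RM_M hAM hMM hK
    · simpa using RM_W hAW hMW
  refine MNat_of_RM (RM.sum h) ?_ ?_
  · intro x hx
    have h1 := hx false
    have h2 := hx true
    simp only [if_true, Bool.false_eq_true, if_false] at h1 h2
    rw [bigMan_of_dom hAW h1 h2, Fintype.sum_bool]
    simp only [if_true, Bool.false_eq_true, if_false]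
    rw [add_comm]
  · intro x hx k
    obtain ⟨h1, h2⟩ := (bigMan_ne_bot hAW).1 hx
    cases k
    · simpa using h1
    · simpa using h2

theorem bigMan_condA (hB : 0 ≤ B) (hAM : ∀ i, CondA (fM i)) (hAW : ∀ j, CondA (fW j)) :
    CondA (bigMan B K K' fM fW) := by
  refine ⟨⟨B, ?_⟩, ?_, ?_, ?_⟩
  · rintro y hy ⟨k, q⟩
    obtain ⟨h1, h2⟩ := (bigMan_ne_bot hAW).1 hy
    cases k
    · rw [abs_of_nonneg (h1.1 q).1]; exact (h1.1 q).2
    · rw [abs_of_nonneg (h2.1 q).1]; exact (h2.1 q).2
  · rw [bigMan_ne_bot hAW]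
    refine ⟨⟨fun q => ⟨le_rfl, hB⟩, fun i => ?_⟩, ⟨fun q => ⟨le_rfl, hB⟩, fun e => ?_⟩⟩
    · have : (fun j => above B (both (fun q : (M × W) × Bool => (0 : Port M W → ℤ) (false, q)))
          (i, j)) = (0 : W → ℤ) := by
        funext j
        simp only [above, both, Pi.zero_apply]
        omega
      rw [this]
      exact (hAM i).zero_mem
    · simp only [both, Pi.zero_apply]; omega
  · rintro y hy ⟨k, q⟩
    obtain ⟨h1, h2⟩ := (bigMan_ne_bot hAW).1 hy
    cases k
    · exact (h1.1 q).1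
    · exact (h2.1 q).1
  · intro y y' hy h0 hle
    obtain ⟨h1, h2⟩ := (bigMan_ne_bot hAW).1 hy
    rw [bigMan_ne_bot hAW]
    refine ⟨⟨fun q => ⟨h0 (false, q), (hle (false, q)).trans (h1.1 q).2⟩, fun i => ?_⟩,
      ⟨fun q => ⟨h0 (true, q), (hle (true, q)).trans (h2.1 q).2⟩, fun e => ?_⟩⟩
    · refine (hAM i).hereditary _ _ (h1.2 i) (fun j => ?_) (fun j => ?_)
      · exact le_max_right _ _
      · simp only [above, both]
        have a1 : y' (false, ((i, j), false)) ≤ y (false, ((i, j), false)) := hle _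
        have a2 : y' (false, ((i, j), true)) ≤ y (false, ((i, j), true)) := hle _
        omega
    · have a1 : y' (true, (e, false)) ≤ y (true, (e, false)) := hle _
      have a2 : y' (true, (e, true)) ≤ y (true, (e, true)) := hle _
      have a3 := h2.2 e
      simp only [both] at a3 ⊢
      omega

end

end Pool.Agent.Helper250_Alloc
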