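import Pool.Agent.Helper250_Alloc.OneDefs
import Pool.Agent.Helper250_Alloc.MNat

/-!
A calculus for M-natural-concave functions, in terms of a domain and real values.
-/

set_option autoImplicit false
set_option linter.unusedVariables false
set_option linter.unusedSectionVars false

namespace Pool.Agent.Helper250_Alloc

/-- M-natural-concavity of the real function `v` on the domain `D` -/
def RM {V : Type} [DecidableEq V] (D : (V → ℤ) → Prop) (v : (V → ℤ) → ℝ) : Prop :=
  ∀ x y, D x → D y → ∀ u, y u < x u → ∃ o : Option V, (∀ w, o = some w → x w < y w) ∧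
    D (x - unit (some u) + unit o) ∧ D (y + unit (some u) - unit o) ∧
    v x + v y ≤ v (x - unit (some u) + unit o) + v (y + unit (some u) - unit o)

/-- the real value -/
noncomputable def rv {V : Type} (g : (V → ℤ) → WithBot ℝ) (x : V → ℤ) : ℝ := (g x).unbotD 0

theorem coe_rv {V : Type} {g : (V → ℤ) → WithBot ℝ} {x : V → ℤ} (h : g x ≠ ⊥) :
    ((rv g x : ℝ) : WithBot ℝ) = g x := by
  obtain ⟨r, hr⟩ := WithBot.ne_bot_iff_exists.1 h
  rw [rv, ← hr, WithBot.unbotD_coe]

section
variable {V : Type} [DecidableEq V]

theorem RM_of_MNat {g : (V → ℤ) → WithBot ℝ} (h : MNat g) : RM (fun x => g x ≠ ⊥) (rv g) := by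
  intro x y hx hy u hu
  obtain ⟨o, ho, hex⟩ := h x y hx hy u hu
  have hne : g (x - unit (some u) + unit o) + g (y + unit (some u) - unit o) ≠ ⊥ := by
    intro h0
    rw [h0, ← coe_rv hx, ← coe_rv hy, ← WithBot.coe_add] at hex
    exact absurd (le_bot_iff.1 hex) WithBot.coe_ne_bot
  have h1 : g (x - unit (some u) + unit o) ≠ ⊥ := by
    intro h0; rw [h0, WithBot.bot_add] at hne; exact hne rfl
  have h2 : g (y + unit (some u) - unit o) ≠ ⊥ := by
    intro h0; rw [h0, WithBot.add_bot] at hne; exact hne rfl
  refine ⟨o, ho, h1, h2, ?_⟩
  rw [← coe_rv hx, ← coe_rv hy, ← coe_rv h1, ← coe_rv h2, ← WithBot.coe_add, ← WithBot.coe_add,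
    WithBot.coe_le_coe] at hex
  exact hex

theorem MNat_of_RM {g : (V → ℤ) → WithBot ℝ} {D : (V → ℤ) → Prop} {v : (V → ℤ) → ℝ}
    (h : RM D v) (h1 : ∀ x, D x → g x = (v x : WithBot ℝ)) (h2 : ∀ x, g x ≠ ⊥ → D x) :
    MNat g := by
  intro x y hx hy u hu
  obtain ⟨o, ho, ha, hb, hex⟩ := h x y (h2 x hx) (h2 y hy) u hu
  refine ⟨o, ho, ?_⟩
  rw [h1 _ (h2 x hx), h1 _ (h2 y hy), h1 _ ha, h1 _ hb, ← WithBot.coe_add, ← WithBot.coe_add,
    WithBot.coe_le_coe]
  exact hex

/-- adding a linear function -/
theorem RM.add_linear [Fintype V] {D : (V → ℤ) → Prop} {v : (V → ℤ) → ℝ} (h : RM D v)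
    (c : V → ℝ) : RM D (fun x => v x + ∑ u, c u * (x u : ℝ)) := by
  intro x y hx hy u hu
  obtain ⟨o, ho, ha, hb, hex⟩ := h x y hx hy u hu
  refine ⟨o, ho, ha, hb, ?_⟩
  have : ∑ w, c w * (((x - unit (some u) + unit o) w : ℤ) : ℝ) +
      ∑ w, c w * (((y + unit (some u) - unit o) w : ℤ) : ℝ) =
      ∑ w, c w * ((x w : ℤ) : ℝ) + ∑ w, c w * ((y w : ℤ) : ℝ) := by
    rw [← Finset.sum_add_distrib, ← Finset.sum_add_distrib]
    refine Finset.sum_congr rfl (fun w _ => ?_)
    simp only [Pi.add_apply, Pi.sub_apply]
    push_cast
    ring
  simp only
  linarith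

/-- reflection -/
theorem RM.reflect {D : (V → ℤ) → Prop} {v : (V → ℤ) → ℝ} (h : RM D v) (b : V → ℤ) :
    RM (fun s => D (b - s)) (fun s => v (b - s)) := by
  intro x y hx hy u hu
  have hu' : (b - x) u < (b - y) u := by simp only [Pi.sub_apply]; omega
  obtain ⟨o, ho, ha, hb, hex⟩ := h (b - y) (b - x) hy hx u hu'
  have e1 : b - (x - unit (some u) + unit o) = b - x + unit (some u) - unit o := by abel
  have e2 : b - (y + unit (some u) - unit o) = b - y - unit (some u) + unit o := by abel
  refine ⟨o, fun w hw => ?_, ?_, ?_, ?_⟩
  · have := ho w hw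
    simp only [Pi.sub_apply] at this
    omega
  · simp only; rw [e1]; exact hb
  · simp only; rw [e2]; exact ha
  · simp only; rw [e1, e2]; linarith

end

section slice
variable {A U : Type} [DecidableEq A] [DecidableEq U]

theorem slice_unit_same (a : A) (o : Option U) :
    (fun u => unit (o.map (fun u => (a, u))) (a, u)) = (unit o : U → ℤ) := by
  funext u
  cases o with
  | none => rfl
  | some w =>
    simp only [Option.map_some, unit_some, Pi.single_apply, Prod.mk.injEq, true_and]

theorem slice_unit_ne {a a' : A} (h : a' ≠ a) (o : Option U) :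
    (fun u => unit (o.map (fun u => (a, u))) (a', u)) = (0 : U → ℤ) := by
  funext u
  cases o with
  | none => rfl
  | some w =>
    simp only [Option.map_some, unit_some, Pi.single_apply, Prod.mk.injEq, h, false_and, if_false,
      Pi.zero_apply]

/-- direct sums -/
theorem RM.sum [Fintype A] {D : A → (U → ℤ) → Prop} {v : A → (U → ℤ) → ℝ}
    (h : ∀ a, RM (D a) (v a)) :
    RM (fun x : A × U → ℤ => ∀ a, D a (fun u => x (a, u)))
      (fun x => ∑ a, v a (fun u => x (a, u))) := by
  rintro x y hx hy ⟨a, u⟩ hu
  obtain ⟨o, ho, ha, hb, hex⟩ := h a _ _ (hx a) (hy a) u hu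
  have s1 : ∀ a' : A, (fun u' => (x - unit (some (a, u)) + unit (o.map (fun u => (a, u)))) (a', u'))
      = if a' = a then (fun u => x (a, u)) - unit (some u) + unit o else fun u => x (a', u) := by
    intro a'
    split_ifs with haa
    · subst haa
      have e1 := slice_unit_same a' (some u)
      have e2 := slice_unit_same a' o
      funext u'
      have e1' := congrFun e1 u'
      have e2' := congrFun e2 u'
      simp only [Option.map_some] at e1' e2'
      simp only [Pi.add_apply, Pi.sub_apply]
      rw [e1', e2']
    · have e1 := slice_unit_ne haa (some u)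
      have e2 := slice_unit_ne haa o
      funext u'
      have e1' := congrFun e1 u'
      have e2' := congrFun e2 u'
      simp only [Option.map_some, Pi.zero_apply] at e1' e2'
      simp only [Pi.add_apply, Pi.sub_apply]
      rw [e1', e2', sub_zero, add_zero]
  have s2 : ∀ a' : A, (fun u' => (y + unit (some (a, u)) - unit (o.map (fun u => (a, u)))) (a', u'))
      = if a' = a then (fun u => y (a, u)) + unit (some u) - unit o else fun u => y (a', u) := by
    intro a'
    split_ifs with haa
    · subst haa
      have e1 := slice_unit_same a' (some u)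
      have e2 := slice_unit_same a' o
      funext u'
      have e1' := congrFun e1 u'
      have e2' := congrFun e2 u'
      simp only [Option.map_some] at e1' e2'
      simp only [Pi.add_apply, Pi.sub_apply]
      rw [e1', e2']
    · have e1 := slice_unit_ne haa (some u)
      have e2 := slice_unit_ne haa o
      funext u'
      have e1' := congrFun e1 u'
      have e2' := congrFun e2 u'
      simp only [Option.map_some, Pi.zero_apply] at e1' e2'
      simp only [Pi.add_apply, Pi.sub_apply]
      rw [e1', e2', add_zero, sub_zero]
  refine ⟨o.map (fun u => (a, u)), ?_, ?_, ?_, ?_⟩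
  · intro w hw
    cases o with
    | none => simp at hw
    | some w' =>
      simp only [Option.map_some, Option.some.injEq] at hw
      subst hw
      exact ho w' rfl
  · intro a'
    rw [s1 a']
    split_ifs with haa
    · subst haa; exact ha
    · exact hx a'
  · intro a'
    rw [s2 a']
    split_ifs with haa
    · subst haa; exact hb
    · exact hy a'
  · simp only
    rw [← Finset.sum_add_distrib, ← Finset.sum_add_distrib]
    refine Finset.sum_le_sum (fun a' _ => ?_)
    rw [s1 a', s2 a']
    split_ifs with haa
    · subst haa; exact hex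
    · exact le_rfl

/-- reindexing -/
theorem RM.comp {V V' : Type} [DecidableEq V] [DecidableEq V'] {D : (V → ℤ) → Prop}
    {v : (V → ℤ) → ℝ} (h : RM D v) (e : V ≃ V') :
    RM (fun x : V' → ℤ => D (fun u => x (e u))) (fun x => v (fun u => x (e u))) := by
  intro x y hx hy u hu
  have hu' : (fun u => y (e u)) (e.symm u) < (fun u => x (e u)) (e.symm u) := by
    simpa using hu
  obtain ⟨o, ho, ha, hb, hex⟩ := h _ _ hx hy (e.symm u) hu'
  have e1 : ∀ o : Option V, (fun w => unit (o.map e) (e w)) = (unit o : V → ℤ) := by
    intro o
    funext w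
    cases o with
    | none => rfl
    | some w' =>
      simp only [Option.map_some, unit_some, Pi.single_apply, EmbeddingLike.apply_eq_iff_eq]
  have e2 : (fun w => unit (some u) (e w)) = (unit (some (e.symm u)) : V → ℤ) := by
    have := e1 (some (e.symm u))
    simpa using this
  have s1 : (fun w => (x - unit (some u) + unit (o.map e)) (e w)) =
      (fun w => x (e w)) - unit (some (e.symm u)) + unit o := by
    rw [← e2, ← e1 o]; rfl
  have s2 : (fun w => (y + unit (some u) - unit (o.map e)) (e w)) =
      (fun w => y (e w)) + unit (some (e.symm u)) - unit o := by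
    rw [← e2, ← e1 o]; rfl
  refine ⟨o.map e, ?_, ?_, ?_, ?_⟩
  · intro w hw
    cases o with
    | none => simp at hw
    | some w' =>
      simp only [Option.map_some, Option.some.injEq] at hw
      subst hw
      exact ho w' rfl
  · simp only; rw [s1]; exact ha
  · simp only; rw [s2]; exact hb
  · simp only; rw [s1, s2]; exact hex

end slice

section lift
variable {V : Type} [Fintype V] [DecidableEq V]

/-- the part above `B` -/
def above (B : ℤ) (s : V → ℤ) : V → ℤ := fun e => max (s e - B) 0

/-- Extension of the translate by `B` with slope `K`. -/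
theorem RM.lift {D : (V → ℤ) → Prop} {v : (V → ℤ) → ℝ} (h : RM D v) {B : ℤ} {K : ℝ}
    (hnn : ∀ x, D x → 0 ≤ x)
    (hher : ∀ x x', D x → 0 ≤ x' → x' ≤ x → D x')
    (hK : ∀ x w, D x → D (x + unit (some w)) → v (x + unit (some w)) ≤ v x + K) :
    RM (fun s => D (above B s)) (fun s => v (above B s) + ∑ e, K * ((min (s e) B : ℤ) : ℝ)) := by
  intro s s' hs hs' u hu
  -- the change of the linear part
  have lin : ∀ (t : V → ℤ) (w : V), ∑ e, K * ((min ((t + unit (some w)) e) B : ℤ) : ℝ) =
      ∑ e, K * ((min (t e) B : ℤ) : ℝ) + (if t w < B then K else 0) := by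
    intro t w
    rw [← sub_eq_iff_eq_add', ← Finset.sum_sub_distrib, Finset.sum_eq_single w]
    · rw [Pi.add_apply, unit_apply_some, if_pos rfl]
      split_ifs with hlt
      · rw [min_eq_left (by omega), min_eq_left (by omega)]; push_cast; ring
      · rw [min_eq_right (by omega), min_eq_right (by omega)]; ring
    · intro e _ he
      rw [Pi.add_apply, unit_apply_some, if_neg he, add_zero, sub_self]
    · intro hw; exact absurd (Finset.mem_univ w) hw
  have abv : ∀ (t : V → ℤ) (w : V), above B (t + unit (some w)) =
      if t w < B then above B t else above B t + unit (some w) := by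
    intro t w
    split_ifs with hlt
    · funext e
      simp only [above, Pi.add_apply, unit_apply_some]
      split_ifs with he
      · subst he; omega
      · simp
    · funext e
      simp only [above, Pi.add_apply, unit_apply_some]
      split_ifs with he
      · subst he; omega
      · simp
  -- `s = t + e_u`
  obtain ⟨t, rfl⟩ : ∃ t, s = t + unit (some u) := ⟨s - unit (some u), by abel⟩
  have htu : (t + unit (some u)) u = t u + 1 := by
    rw [Pi.add_apply, unit_apply_some, if_pos rfl]
  rw [htu] at hu
  have est : t + unit (some u) - unit (some u) = t := by abel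
  rw [est]
  by_cases h1 : t u < B
  · -- both in the linear regime
    have h2 : s' u < B := by omega
    refine ⟨none, by simp, ?_, ?_, ?_⟩
    · rw [unit_none, add_zero]
      simp only [abv t u, if_pos h1] at hs
      exact hs
    · rw [unit_none, sub_zero]
      simp only [abv s' u, if_pos h2]
      exact hs'
    · rw [unit_none, add_zero, sub_zero]
      simp only [abv t u, abv s' u, if_pos h1, if_pos h2, lin t u, lin s' u]
      linarith
  · have hs1 : D (above B t + unit (some u)) := by
      simp only [abv t u, if_neg h1] at hs
      exact hs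
    have hnn1 : (0 : V → ℤ) ≤ above B t := fun e => le_max_right _ _
    have hs2 : D (above B t) := hher _ _ hs1 hnn1
      (le_add_of_nonneg_right (unit_nonneg _))
    by_cases h2 : s' u < B
    · refine ⟨none, by simp, ?_, ?_, ?_⟩
      · rw [unit_none, add_zero]; exact hs2
      · rw [unit_none, sub_zero]
        simp only [abv s' u, if_pos h2]
        exact hs'
      · rw [unit_none, add_zero, sub_zero]
        simp only [abv t u, abv s' u, if_neg h1, if_pos h2, lin t u, lin s' u]
        have := hK _ _ hs2 hs1
        linarith
    · have hlt : above B s' u < (above B t + unit (some u)) u := by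
        rw [Pi.add_apply, unit_apply_some, if_pos rfl]
        simp only [above]
        omega
      obtain ⟨o, ho, ha, hb, hex⟩ := h _ _ hs1 hs' u hlt
      rw [add_sub_cancel_right] at ha hex
      cases o with
      | none =>
        rw [unit_none, add_zero] at ha hex
        rw [unit_none, sub_zero] at hb
        rw [sub_zero] at hex
        refine ⟨none, by simp, ?_, ?_, ?_⟩
        · rw [unit_none, add_zero]; exact ha
        · rw [unit_none, sub_zero]
          simp only [abv s' u, if_neg h2]
          exact hb
        · rw [unit_none, add_zero, sub_zero]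
          simp only [abv t u, abv s' u, if_neg h1, if_neg h2, lin t u, lin s' u]
          linarith
      | some w =>
        have hw := ho w rfl
        have hwu : w ≠ u := by rintro rfl; omega
        rw [Pi.add_apply, unit_apply_some, if_neg hwu, add_zero] at hw
        simp only [above] at hw
        have hsw' : B < s' w := by omega
        -- `s' + e_u = r + e_w`
        obtain ⟨r, hr⟩ : ∃ r, s' + unit (some u) = r + unit (some w) :=
          ⟨s' + unit (some u) - unit (some w), by abel⟩
        have hr' : s' + unit (some u) - unit (some w) = r := by rw [hr]; abel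
        have hrw : r w = s' w - 1 := by
          rw [← hr', Pi.sub_apply, Pi.add_apply, unit_apply_some, unit_apply_some, if_neg hwu,
            if_pos rfl, add_zero]
        have hr2 : above B r + unit (some w) = above B s' + unit (some u) := by
          have q1 := abv s' u
          have q2 := abv r w
          rw [if_neg h2] at q1
          rw [if_neg (by omega : ¬ r w < B)] at q2
          rw [← q1, ← q2, hr]
        have hr3 : above B r = above B s' + unit (some u) - unit (some w) := by
          rw [← hr2]; abel
        have hr4 : ∑ e, K * ((min (r e) B : ℤ) : ℝ) = ∑ e, K * ((min (s' e) B : ℤ) : ℝ) := by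
          have q1 := lin s' u
          have q2 := lin r w
          rw [if_neg h2, add_zero] at q1
          rw [if_neg (by omega : ¬ r w < B), add_zero] at q2
          rw [← q1, ← q2, hr]
        by_cases h3 : t w < B
        · -- the other coordinate is in the linear regime
          refine ⟨some w, ?_, ?_, ?_, ?_⟩
          · intro w' hw'
            cases hw'
            rw [Pi.add_apply, unit_apply_some, if_neg hwu]
            omega
          · simp only [abv t w, if_pos h3]; exact hs2
          · rw [hr']; simp only [hr3]; exact hb
          · rw [hr']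
            simp only [abv t u, abv t w, if_neg h1, if_pos h3, lin t u, lin t w, hr3, hr4]
            have q := hK (above B t) w hs2 ha
            linarith
        · refine ⟨some w, ?_, ?_, ?_, ?_⟩
          · intro w' hw'
            cases hw'
            rw [Pi.add_apply, unit_apply_some, if_neg hwu]
            omega
          · simp only [abv t w, if_neg h3]; exact ha
          · rw [hr']; simp only [hr3]; exact hb
          · rw [hr']
            simp only [abv t u, abv t w, if_neg h1, if_neg h3, lin t u, lin t w, hr3, hr4]
            linarith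

end lift

section split
variable {V : Type} [Fintype V] [DecidableEq V]

/-- the sum of the two copies -/
def both (y : V × Bool → ℤ) : V → ℤ := fun e => y (e, false) + y (e, true)

theorem both_add_unit (y : V × Bool → ℤ) (e : V) (κ : Bool) :
    both (y + unit (some (e, κ))) = both y + unit (some e) := by
  funext w
  simp only [both, Pi.add_apply, unit_apply_some, Prod.mk.injEq]
  by_cases hw : w = e
  · subst hw; cases κ <;> simp <;> ring
  · simp [hw]

theorem both_sub_unit (y : V × Bool → ℤ) (e : V) (κ : Bool) :
    both (y - unit (some (e, κ))) = both y - unit (some e) := by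
  have := both_add_unit (y - unit (some (e, κ))) e κ
  rw [sub_add_cancel] at this
  rw [this]; abel

/-- splitting every variable into two, under upper bounds -/
theorem RM.split {D : (V → ℤ) → Prop} {v : (V → ℤ) → ℝ} (h : RM D v) (B : ℤ) :
    RM (fun y : V × Bool → ℤ => (∀ q, 0 ≤ y q ∧ y q ≤ B) ∧ D (both y)) (fun y => v (both y)) := by
  rintro x y ⟨hx, hxD⟩ ⟨hy, hyD⟩ ⟨e, κ⟩ hu
  have box : ∀ o : Option (V × Bool), (∀ w, o = some w → x w < y w) →
      (∀ q, 0 ≤ (x - unit (some (e, κ)) + unit o) q ∧ (x - unit (some (e, κ)) + unit o) q ≤ B) ∧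
      (∀ q, 0 ≤ (y + unit (some (e, κ)) - unit o) q ∧ (y + unit (some (e, κ)) - unit o) q ≤ B) := by
    intro o ho
    constructor
    · intro q
      have h1 := hx q
      have h2 := hy q
      simp only [Pi.add_apply, Pi.sub_apply]
      by_cases hq : q = (e, κ)
      · subst hq
        have : o ≠ some (e, κ) := by rintro rfl; have := ho _ rfl; omega
        rw [unit_apply_some, if_pos rfl, unit_eq_zero this]; omega
      · rw [unit_apply_some, if_neg hq]
        by_cases ho' : o = some q
        · subst ho'; have := ho _ rfl; rw [unit_apply_some, if_pos rfl]; omega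
        · rw [unit_eq_zero ho']; omega
    · intro q
      have h1 := hx q
      have h2 := hy q
      simp only [Pi.add_apply, Pi.sub_apply]
      by_cases hq : q = (e, κ)
      · subst hq
        have : o ≠ some (e, κ) := by rintro rfl; have := ho _ rfl; omega
        rw [unit_apply_some, if_pos rfl, unit_eq_zero this]; omega
      · rw [unit_apply_some, if_neg hq]
        by_cases ho' : o = some q
        · subst ho'; have := ho _ rfl; rw [unit_apply_some, if_pos rfl]; omega
        · rw [unit_eq_zero ho']; omega
  by_cases hlt : both y e < both x e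
  · obtain ⟨o, ho, ha, hb, hex⟩ := h _ _ hxD hyD e hlt
    cases o with
    | none =>
      obtain ⟨b1, b2⟩ := box none (by simp)
      refine ⟨none, by simp, ⟨b1, ?_⟩, ⟨b2, ?_⟩, ?_⟩
      · rw [unit_none, add_zero, both_sub_unit]
        rw [unit_none, add_zero] at ha; exact ha
      · rw [unit_none, sub_zero, both_add_unit]
        rw [unit_none, sub_zero] at hb; exact hb
      · simp only [unit_none, add_zero, sub_zero, both_sub_unit, both_add_unit] at hex ⊢
        exact hex
    | some w =>
      have hw := ho w rfl
      obtain ⟨κ', hκ'⟩ : ∃ κ', x (w, κ') < y (w, κ') := by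
        by_contra hcon
        push Not at hcon
        have := hcon false
        have := hcon true
        simp only [both] at hw
        omega
      have ho' : ∀ w', some (w, κ') = some w' → x w' < y w' := by
        intro w' hw'; cases hw'; exact hκ'
      obtain ⟨b1, b2⟩ := box (some (w, κ')) ho'
      refine ⟨some (w, κ'), ho', ⟨b1, ?_⟩, ⟨b2, ?_⟩, ?_⟩
      · rw [both_add_unit, both_sub_unit]; exact ha
      · rw [both_sub_unit, both_add_unit]; exact hb
      · simp only [both_sub_unit, both_add_unit]
        exact hex
  · -- swap inside the pair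
    have hκ' : x (e, !κ) < y (e, !κ) := by
      simp only [both] at hlt
      cases κ
      · simp only [Bool.not_false]; omega
      · simp only [Bool.not_true]; omega
    have ho' : ∀ w', some (e, !κ) = some w' → x w' < y w' := by
      intro w' hw'; cases hw'; exact hκ'
    obtain ⟨b1, b2⟩ := box (some (e, !κ)) ho'
    refine ⟨some (e, !κ), ho', ⟨b1, ?_⟩, ⟨b2, ?_⟩, ?_⟩
    · rw [both_add_unit, both_sub_unit, sub_add_cancel]; exact hxD
    · rw [both_sub_unit, both_add_unit, add_sub_cancel_right]; exact hyD
    · simp only [both_sub_unit, both_add_unit, sub_add_cancel, add_sub_cancel_right, le_refl]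

end split

end Pool.Agent.Helper250_Alloc
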