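import Pool.Agent.Helper250_Alloc.Fbar
import Pool.Agent.Helper250_Alloc.Maximize

/-!
Finding a fixed point of a monotone `l₁` nonexpansive map of an integer cube with polynomially
many evaluations.
-/

set_option autoImplicit false
set_option linter.unusedVariables false
set_option linter.unusedSectionVars false

namespace Pool.Agent.Helper250_Alloc

section
variable {Ω Q : Type} {ans : Ω → Q → Bool} {P : Ω → Prop}
variable {ι : Type} [Fintype ι] {F : Ω → (ι → ℤ) → (ι → ℤ)} {B cF : ℕ}

theorem can_Fbar (hAN : ∀ ω, P ω → AN B (F ω))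
    (heval : ∀ u, InBox (B : ℤ) u → Can ans P cF (fun ω r => r = F ω u)) {x : ι → ℝ}
    (hx : InCube (B : ℤ) x) :
    Can ans P ((Fintype.card ι + 1) * cF) (fun ω v => v = Fbar (F ω) x) := by
  classical
  have h1 := Can.all (ans := ans) (P := P) (c := cF) (ι := Option ι)
    (S := fun j ω r => r = F ω (node x j)) (fun j => heval _ (node_mem hx j))
  rw [Fintype.card_option] at h1
  refine Can.map (fun r : Option ι → (ι → ℤ) => Fbar (fun u =>
    if h : ∃ j, u = node x j then r h.choose else 0) x) h1 ?_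
  intro ω r hP hr
  apply Fbar_congr
  intro t ht
  obtain ⟨j, hj⟩ := pt_eq_node x ht
  have hex : ∃ j, pt x t = node x j := ⟨j, hj⟩
  rw [dif_pos hex, hr, ← hex.choose_spec]

theorem can_round (hAN : ∀ ω, P ω → AN B (F ω))
    (heval : ∀ u, InBox (B : ℤ) u → Can ans P cF (fun ω r => r = F ω u)) {x : ι → ℝ}
    (hx : InCube (B : ℤ) x) : ∀ (k : ℕ) (u : ι → ℤ), (∀ i, ⌊x i⌋ ≤ u i) → (∀ i, u i ≤ ⌈x i⌉) →
      ∑ i, (⌈x i⌉ - u i) ≤ k →
      Can ans (fun ω => P ω ∧ d1 (Fbar (F ω) x) x < 1 ∧
        ∀ i, u i ≤ min (max (F ω u i) ⌊x i⌋) ⌈x i⌉) ((k + 1) * cF)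
        (fun ω u => InBox (B : ℤ) u ∧ F ω u = u) := by
  intro k
  induction k with
  | zero =>
    intro u hlo hhi hk
    have hbox : InBox (B : ℤ) u := by
      intro i
      obtain ⟨h1, h2⟩ := hx i
      have h3 : 0 ≤ ⌊x i⌋ := Int.floor_nonneg.2 h1
      have h4 : ⌈x i⌉ ≤ B := Int.ceil_le.2 h2
      have := hlo i; have := hhi i
      omega
    refine (Can.ret u (fun ω hω => ?_)).le (Nat.zero_le _)
    obtain ⟨hP, hres, hinc⟩ := hω
    refine ⟨hbox, rounding (hAN ω hP) hx hres (fun i => ?_)⟩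
    have h1 : ∑ i, (⌈x i⌉ - u i) = 0 :=
      le_antisymm (by simpa using hk) (Finset.sum_nonneg (fun i _ => by have := hhi i; omega))
    rw [Finset.sum_eq_zero_iff_of_nonneg (fun i _ => by have := hhi i; omega)] at h1
    have h2 := h1 i (Finset.mem_univ i)
    have h3 := hinc i
    omega
  | succ k ih =>
    intro u hlo hhi hk
    have hbox : InBox (B : ℤ) u := by
      intro i
      obtain ⟨h1, h2⟩ := hx i
      have h3 : 0 ≤ ⌊x i⌋ := Int.floor_nonneg.2 h1
      have h4 : ⌈x i⌉ ≤ B := Int.ceil_le.2 h2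
      have := hlo i; have := hhi i
      omega
    have hc : (k + 1 + 1) * cF = cF + (k + 1) * cF := by ring
    rw [hc]
    refine Can.bind ((heval u hbox).pre (fun ω h => h.1)) (fun v => ?_)
    set u' : ι → ℤ := fun i => min (max (v i) ⌊x i⌋) ⌈x i⌉ with hu'
    by_cases heq : u' = u
    · refine (Can.ret u (fun ω hω => ?_)).le (Nat.zero_le _)
      obtain ⟨⟨hP, hres, hinc⟩, hv⟩ := hω
      refine ⟨hbox, rounding (hAN ω hP) hx hres (fun i => ?_)⟩
      have := congrFun heq i
      rw [← hv, ← this]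
    · by_cases hle : ∀ i, u i ≤ u' i
      · have hfc : ∀ i, ⌊x i⌋ ≤ ⌈x i⌉ := fun i => Int.floor_le_ceil _
        have hlo' : ∀ i, ⌊x i⌋ ≤ u' i := by
          intro i; have := hfc i; simp only [hu']; omega
        have hhi' : ∀ i, u' i ≤ ⌈x i⌉ := by
          intro i; have := hfc i; simp only [hu']; omega
        have hbox' : InBox (B : ℤ) u' := by
          intro i
          obtain ⟨h1, h2⟩ := hx i
          have h3 : 0 ≤ ⌊x i⌋ := Int.floor_nonneg.2 h1
          have h4 : ⌈x i⌉ ≤ B := Int.ceil_le.2 h2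
          have := hlo' i; have := hhi' i
          omega
        refine (ih u' hlo' hhi' ?_).pre ?_
        · -- the sum decreases
          have hex : ∃ i, u i < u' i := by
            by_contra hcon
            push Not at hcon
            exact heq (funext fun i => le_antisymm (hcon i) (hle i))
          obtain ⟨i, hi⟩ := hex
          have hlt : ∑ i, (⌈x i⌉ - u' i) < ∑ i, (⌈x i⌉ - u i) := by
            apply Finset.sum_lt_sum
            · intro j _; have := hle j; omega
            · exact ⟨i, Finset.mem_univ i, by omega⟩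
          push_cast at hk
          omega
        · rintro ω ⟨⟨hP, hres, hinc⟩, hv⟩
          refine ⟨hP, hres, fun i => ?_⟩
          have hmono := (hAN ω hP).mono hbox hbox' hle i
          rw [hv] at hu'
          have e1 : u' i = min (max (F ω u i) ⌊x i⌋) ⌈x i⌉ := congrFun hu' i
          have hmono' : F ω u i ≤ F ω u' i := hmono
          omega
      · refine Can.absurd (fun ω hω => ?_)
        obtain ⟨⟨hP, hres, hinc⟩, hv⟩ := hω
        apply hle
        intro i
        rw [hu', hv]
        exact hinc i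

theorem cube_iff {x : ι → ℝ} : x ∈ Set.Icc (0 : ι → ℝ) (fun _ => ((B : ℤ) : ℝ)) ↔
    InCube (B : ℤ) x := by
  constructor
  · rintro ⟨h1, h2⟩ i; exact ⟨h1 i, h2 i⟩
  · intro h; exact ⟨fun i => (h i).1, fun i => (h i).2⟩

theorem d1_le_dist (x y : ι → ℝ) : d1 x y ≤ Fintype.card ι * dist x y := by
  calc d1 x y = ∑ i, |x i - y i| := rfl
    _ ≤ ∑ i : ι, dist x y := Finset.sum_le_sum (fun i _ => by
        rw [← Real.dist_eq]; exact dist_le_pi_dist x y i)
    _ = _ := by simp

/-- the contraction has a fixed point -/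
theorem exists_fix {G : (ι → ℤ) → (ι → ℤ)} (hG : AN (B : ℤ) G) {δ : ℝ} (h0 : 0 ≤ δ) (h1 : δ ≤ 1) :
    ∃ x, InCube (B : ℤ) x ∧ (fun i => (1 - δ) * Fbar G x i) = x := by
  have hB : (0 : ℝ) ≤ ((B : ℤ) : ℝ) := by positivity
  have hcont : ContinuousOn (fun (x : ι → ℝ) (i : ι) => (1 - δ) * Fbar G x i)
      (Set.Icc (0 : ι → ℝ) (fun _ => ((B : ℤ) : ℝ))) := by
    rw [continuousOn_pi]
    intro i
    refine ContinuousOn.mul continuousOn_const ?_
    rw [Metric.continuousOn_iff]
    intro b hb ε hε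
    refine ⟨ε / (Fintype.card ι + 1), by positivity, fun a ha hab => ?_⟩
    rw [Real.dist_eq]
    have h2 : |Fbar G a i - Fbar G b i| ≤ d1 (Fbar G a) (Fbar G b) :=
      Finset.single_le_sum (f := fun i => |Fbar G a i - Fbar G b i|) (fun i _ => abs_nonneg _)
        (Finset.mem_univ i)
    have h3 := Fbar_d1 hG (cube_iff.1 ha) (cube_iff.1 hb)
    have h4 := d1_le_dist a b
    have h5 : (Fintype.card ι : ℝ) * dist a b ≤ (Fintype.card ι + 1) * dist a b := by
      have := dist_nonneg (x := a) (y := b); nlinarith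
    have h6 : ((Fintype.card ι : ℝ) + 1) * dist a b < ε := by
      rw [lt_div_iff₀ (by positivity)] at hab; linarith [mul_comm (dist a b) ((Fintype.card ι : ℝ) + 1)]
    linarith
  have hmaps : ∀ x ∈ Set.Icc (0 : ι → ℝ) (fun _ => ((B : ℤ) : ℝ)),
      (fun (x : ι → ℝ) (i : ι) => (1 - δ) * Fbar G x i) x ∈
        Set.Icc (0 : ι → ℝ) (fun _ => ((B : ℤ) : ℝ)) := by
    intro x hx
    rw [cube_iff]
    intro i
    obtain ⟨h2, h3⟩ := Fbar_mem hG (cube_iff.1 hx) i
    constructor
    · exact mul_nonneg (by linarith) h2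
    · have h4 : (1 - δ) * Fbar G x i ≤ 1 * Fbar G x i := mul_le_mul_of_nonneg_right (by linarith) h2
      change (1 - δ) * Fbar G x i ≤ _
      linarith
  obtain ⟨x, hx, hfx⟩ := brouwer_cube ((B : ℤ) : ℝ) hB _ hcont hmaps
  exact ⟨x, cube_iff.1 hx, hfx⟩

theorem can_search [Nonempty ι] (hB : 0 < B) (hAN : ∀ ω, P ω → AN B (F ω))
    (heval : ∀ u, InBox (B : ℤ) u → Can ans P cF (fun ω r => r = F ω u))
    (δ ρ : ℝ) (hδ : δ = 1 / (4 * (Fintype.card ι * B))) (hρ : ρ = 1 / (32 * (Fintype.card ι * B))) :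
    ∀ (t : ℕ) (K : Finset (ι → ℝ)), K.card * (Fintype.card ι) ^ t < (Fintype.card ι + 1) ^ t →
      Can ans (fun ω => P ω ∧ ∃ z ∈ K, ∃ xs, InCube (B : ℤ) xs ∧
        (fun i => (1 - δ) * Fbar (F ω) xs i) = xs ∧ d1 z xs ≤ ρ)
        (t * ((Fintype.card ι + 1) * cF))
        (fun ω x => InCube (B : ℤ) x ∧ d1 (Fbar (F ω) x) x < 1) := by
  classical
  set n := Fintype.card ι with hn
  have hn0 : 0 < n := Fintype.card_pos
  have hnB : (0 : ℝ) < n * B := by positivity
  have hnB1 : (1 : ℝ) ≤ n * B := by exact_mod_cast Nat.mul_pos hn0 hB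
  have hδ0 : 0 < δ := by rw [hδ]; positivity
  have hρ0 : 0 < ρ := by rw [hρ]; positivity
  have hδn : δ * (n * B) = 1 / 4 := by rw [hδ]; field_simp
  have hδρ : δ = 8 * ρ := by rw [hδ, hρ]; field_simp; norm_num
  have hδ1 : δ ≤ 1 / 4 := by nlinarith
  intro t
  induction t with
  | zero =>
    intro K hK
    refine Can.absurd (fun ω hω => ?_)
    obtain ⟨-, z, hz, -⟩ := hω
    have : K.card = 0 := by simpa using hK
    rw [Finset.card_eq_zero] at this
    rw [this] at hz
    simp at hz
  | succ t ih =>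
    intro K hK
    by_cases hKne : K.Nonempty
    swap
    · refine Can.absurd (fun ω hω => ?_)
      obtain ⟨-, z, hz, -⟩ := hω
      exact hKne ⟨z, hz⟩
    obtain ⟨x, hx, hcenter⟩ := centerpoint ((B : ℤ) : ℝ) (by positivity) K hKne
    have hx' := cube_iff.1 hx
    have hc : (t + 1) * ((n + 1) * cF) = (n + 1) * cF + t * ((n + 1) * cF) := by ring
    rw [hc]
    refine Can.bind ((can_Fbar hAN heval hx').pre (fun ω h => h.1)) (fun v => ?_)
    by_cases hv1 : d1 v x < 1
    · refine (Can.ret x (fun ω hω => ?_)).le (Nat.zero_le _)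
      obtain ⟨-, hv⟩ := hω
      rw [← hv]
      exact ⟨hx', hv1⟩
    push Not at hv1
    by_cases hvc : InCube (B : ℤ) v
    swap
    · refine Can.absurd (fun ω hω => ?_)
      obtain ⟨⟨hP, -⟩, hv⟩ := hω
      apply hvc
      rw [hv]
      exact Fbar_mem (hAN ω hP) hx'
    set G : ι → ℝ := fun i => (1 - δ) * v i with hG
    have hGc : InCube (B : ℤ) G := by
      intro i
      obtain ⟨h2, h3⟩ := hvc i
      constructor
      · exact mul_nonneg (by linarith) h2
      · have h4 : (1 - δ) * v i ≤ 1 * v i := mul_le_mul_of_nonneg_right (by linarith) h2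
        change (1 - δ) * v i ≤ _
        linarith
    have hcut := hcenter G (cube_iff.2 hGc)
    set K' := K.filter (fun z => d1 z G < d1 z x) with hK'
    refine (ih K' ?_).pre ?_
    · have h1 : (K'.card * n ^ t) * (n + 1) < (n + 1) ^ t * (n + 1) := by
        calc (K'.card * n ^ t) * (n + 1) = ((n + 1) * K'.card) * n ^ t := by ring
          _ ≤ (n * K.card) * n ^ t := Nat.mul_le_mul_right _ hcut
          _ = K.card * n ^ (t + 1) := by ring
          _ < (n + 1) ^ (t + 1) := hK
          _ = _ := by ring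
      exact lt_of_mul_lt_mul_right h1 (Nat.zero_le _)
    · rintro ω ⟨⟨hP, z, hz, xs, hxs, hfix, hzx⟩, hv⟩
      refine ⟨hP, z, ?_, xs, hxs, hfix, hzx⟩
      rw [hK', Finset.mem_filter]
      refine ⟨hz, ?_⟩
      -- contraction estimates
      have e1 : d1 xs G ≤ (1 - δ) * d1 xs x := by
        have h1 : d1 xs G = (1 - δ) * d1 (Fbar (F ω) xs) (Fbar (F ω) x) := by
          simp only [d1]
          rw [Finset.mul_sum]
          refine Finset.sum_congr rfl (fun i _ => ?_)
          have h2 : xs i = (1 - δ) * Fbar (F ω) xs i := (congrFun hfix i).symm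
          rw [h2, hG, hv]
          simp only
          rw [← mul_sub, abs_mul, abs_of_nonneg (by linarith : 0 ≤ 1 - δ)]
        rw [h1]
        exact mul_le_mul_of_nonneg_left (Fbar_d1 (hAN ω hP) hxs hx') (by linarith)
      have e2 : d1 v G ≤ 1 / 4 := by
        rw [← hδn]
        calc d1 v G = ∑ i, |v i - (1 - δ) * v i| := rfl
          _ ≤ ∑ i : ι, δ * B := by
            refine Finset.sum_le_sum (fun i _ => ?_)
            obtain ⟨h2, h3⟩ := hvc i
            have : v i - (1 - δ) * v i = δ * v i := by ring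
            rw [this, abs_of_nonneg (mul_nonneg hδ0.le h2)]
            exact mul_le_mul_of_nonneg_left (by simpa using h3) hδ0.le
          _ = δ * (n * B) := by
            rw [Finset.sum_const, Finset.card_univ, nsmul_eq_mul, ← hn]; ring
      have e3 := d1_triangle v G x
      have e4 := d1_triangle G xs x
      have e5 := d1_triangle z xs G
      have e6 := d1_triangle xs z x
      have e7 : d1 G xs = d1 xs G := d1_comm _ _
      have e8 : d1 xs z = d1 z xs := d1_comm _ _
      have e9 := d1_nonneg xs x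
      have e10 := d1_nonneg z x
      have e11 := d1_nonneg z xs
      -- `d1 xs x ≥ 3/8`
      have f1 : 3 / 4 ≤ d1 G x := by linarith
      have f2 : 3 / 8 ≤ d1 xs x := by nlinarith
      have f3 : 3 / 8 - ρ ≤ d1 z x := by linarith
      have f4 : d1 z G ≤ ρ + (1 - δ) * (ρ + d1 z x) := by
        have : (1 - δ) * d1 xs x ≤ (1 - δ) * (ρ + d1 z x) :=
          mul_le_mul_of_nonneg_left (by linarith) (by linarith)
        linarith
      have f5 : δ * (3 / 8 - ρ) ≤ δ * d1 z x := mul_le_mul_of_nonneg_left f3 hδ0.le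
      nlinarith

/-- the number of comparisons for a fixed point in dimension `n` in the cube of side `B` -/
def fixCost (n B cF : ℕ) : ℕ :=
  ((n + 1) * (n * (Nat.log 2 (32 * n ^ 2 * B ^ 2 + 1) + 1)) + 1) * ((n + 1) * cF)

/-- **Fixed points** of monotone `l₁` nonexpansive maps, with polynomially many evaluations. -/
theorem can_fix [Nonempty ι] (hB : 0 < B) (hAN : ∀ ω, P ω → AN B (F ω))
    (heval : ∀ u, InBox (B : ℤ) u → Can ans P cF (fun ω r => r = F ω u)) :
    Can ans P (fixCost (Fintype.card ι) B cF) (fun ω u => InBox (B : ℤ) u ∧ F ω u = u) := by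
  classical
  set n := Fintype.card ι with hn
  have hn0 : 0 < n := Fintype.card_pos
  set H : ℕ := 32 * n ^ 2 * B with hH
  have hH0 : 0 < H := by positivity
  set K : Finset (ι → ℝ) := (Fintype.piFinset (fun _ : ι => Finset.range (B * H + 1))).image
    (fun k i => (k i : ℝ) / H) with hK
  have hKcard : K.card < 2 ^ (n * (Nat.log 2 (32 * n ^ 2 * B ^ 2 + 1) + 1)) := by
    have h1 : K.card ≤ (B * H + 1) ^ n := by
      refine Finset.card_image_le.trans ?_
      rw [Fintype.card_piFinset]
      calc ∏ i : ι, (Finset.range (B * H + 1)).card = ∏ i : ι, (B * H + 1) :=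
            Finset.prod_congr rfl (fun i _ => Finset.card_range _)
        _ = (B * H + 1) ^ n := by rw [Finset.prod_const, Finset.card_univ]
        _ ≤ _ := le_rfl
    refine lt_of_le_of_lt h1 ?_
    have h2 : B * H + 1 = 32 * n ^ 2 * B ^ 2 + 1 := by rw [hH]; ring
    rw [h2, mul_comm n, pow_mul]
    exact Nat.pow_lt_pow_left (Nat.lt_pow_succ_log_self (by norm_num) _) hn0.ne'
  have hpot := pot_bound n _ _ hKcard
  have hsearch := can_search (cF := cF) hB hAN heval _ _ rfl rfl _ K hpot
  have hpre : ∀ ω, P ω → (P ω ∧ ∃ z ∈ K, ∃ xs, InCube (B : ℤ) xs ∧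
        (fun i => (1 - 1 / (4 * ((n : ℝ) * B))) * Fbar (F ω) xs i) = xs ∧
          d1 z xs ≤ 1 / (32 * (n * B))) := by
    intro ω hP
    refine ⟨hP, ?_⟩
    have hnB1 : (1 : ℝ) ≤ n * B := by exact_mod_cast Nat.mul_pos hn0 hB
    obtain ⟨xs, hxs, hfix⟩ := exists_fix (hAN ω hP) (δ := 1 / (4 * ((n : ℝ) * B)))
      (by positivity) (by rw [div_le_one (by positivity)]; linarith)
    refine ⟨fun i => ((⌊xs i * H⌋₊ : ℕ) : ℝ) / H, ?_, xs, hxs, hfix, ?_⟩
    · rw [hK, Finset.mem_image]
      refine ⟨fun i => ⌊xs i * H⌋₊, ?_, rfl⟩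
      rw [Fintype.mem_piFinset]
      intro i
      rw [Finset.mem_range, Nat.lt_succ_iff]
      obtain ⟨h1, h2⟩ := hxs i
      have h3 : xs i * H ≤ ((B * H : ℕ) : ℝ) := by
        push_cast
        exact mul_le_mul_of_nonneg_right (by simpa using h2) (by positivity)
      calc ⌊xs i * H⌋₊ ≤ ⌊((B * H : ℕ) : ℝ)⌋₊ := Nat.floor_le_floor h3
        _ = B * H := Nat.floor_natCast _
    · have hHr : (0 : ℝ) < H := by exact_mod_cast hH0
      calc d1 (fun i => ((⌊xs i * H⌋₊ : ℕ) : ℝ) / H) xs
          ≤ ∑ i : ι, 1 / (H : ℝ) := by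
            refine Finset.sum_le_sum (fun i _ => ?_)
            obtain ⟨h1, h2⟩ := hxs i
            have h3 := Nat.floor_le (mul_nonneg h1 hHr.le)
            have h4 := Nat.lt_floor_add_one (xs i * H)
            rw [abs_sub_comm, abs_le]
            constructor
            · have : ((⌊xs i * H⌋₊ : ℕ) : ℝ) / H ≤ xs i := by
                rw [div_le_iff₀ hHr]; exact h3
              have h5 : 0 ≤ 1 / (H : ℝ) := by positivity
              linarith
            · have : xs i ≤ (((⌊xs i * H⌋₊ : ℕ) : ℝ) + 1) / H := by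
                rw [le_div_iff₀ hHr]; exact h4.le
              rw [add_div] at this
              linarith
        _ = n * (1 / (H : ℝ)) := by rw [Finset.sum_const, Finset.card_univ, nsmul_eq_mul, ← hn]
        _ = 1 / (32 * (n * B)) := by
            rw [hH]; push_cast; field_simp
  have hsearch' := hsearch.pre (P' := P) hpre
  have hc : fixCost n B cF = (n + 1) * (n * (Nat.log 2 (32 * n ^ 2 * B ^ 2 + 1) + 1)) *
      ((n + 1) * cF) + (n + 1) * cF := by
    simp only [fixCost]; ring
  rw [hc]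
  refine Can.bind hsearch' (fun x => ?_)
  by_cases hx : InCube (B : ℤ) x
  swap
  · exact Can.absurd (fun ω hω => hx hω.2.1)
  refine (can_round hAN heval hx n (fun i => ⌊x i⌋) (fun i => le_rfl)
    (fun i => Int.floor_le_ceil _) ?_).pre ?_
  · calc ∑ i, (⌈x i⌉ - ⌊x i⌋) ≤ ∑ i : ι, (1 : ℤ) :=
        Finset.sum_le_sum (fun i _ => by have := Int.ceil_le_floor_add_one (x i); omega)
      _ = n := by simp [hn]
  · rintro ω ⟨hP, -, hres⟩
    refine ⟨hP, hres, fun i => ?_⟩
    have := Int.floor_le_ceil (x i)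
    omega

end

end Pool.Agent.Helper250_Alloc
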