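import Pool.Agent.Helper250_Alloc.HM

/-!
Chaining an infinite sequence of finite comparison trees to one algorithm.
-/

set_option autoImplicit false
set_option linter.unusedVariables false
set_option linter.unusedSectionVars false

namespace Pool.Agent.Helper250_Alloc

variable {M W : Type}

/-- a stage: a first question and its continuation; `none` means: go on with the next stage -/
abbrev Stage (M W : Type) : Type :=
  Query M W × (Bool → Tree (Query M W) (Option (M → W → ℤ)))

/-- the tree of a stage -/
def Stage.tree (s : Stage M W) : Tree (Query M W) (Option (M → W → ℤ)) := .ask s.1 s.2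

/-- the state: number of the stage and remaining tree -/
abbrev St (M W : Type) : Type := ℕ × Tree (Query M W) (Option (M → W → ℤ))

/-- output, or question and next state -/
def act (st : ℕ → Stage M W) : St M W → (M → W → ℤ) ⊕ (Query M W × (Bool → St M W))
  | (_, .ret (some r)) => .inl r
  | (s, .ret none) => .inr ((st (s + 1)).1, fun b => (s + 1, (st (s + 1)).2 b))
  | (s, .ask q k) => .inr (q, fun b => (s, k b))

/-- the state after a list of answers (latest first) -/
def stateOf (st : ℕ → Stage M W) : List Bool → St M W
  | [] => (0, (st 0).tree)
  | b :: h =>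
    match act st (stateOf st h) with
    | .inl _ => stateOf st h
    | .inr (_, k) => k b

/-- the algorithm of a sequence of stages -/
def chain (st : ℕ → Stage M W) : Algorithm M W := fun h =>
  match act st (stateOf st h) with
  | .inl r => .inr r
  | .inr (q, _) => .inl q

variable (st : ℕ → Stage M W) (ans : Query M W → Bool)

theorem act_none (s : ℕ) : act st (s, .ret none) = act st (s + 1, (st (s + 1)).tree) := rfl

theorem run_output {h : List Bool} {s : ℕ} {r : M → W → ℤ}
    (hact : act st (stateOf st h) = act st (s, .ret (some r))) (t : ℕ) :
    (chain st).run ans t h = some r := by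
  have h1 : chain st h = .inr r := by
    simp only [chain]; rw [hact]; rfl
  cases t with
  | zero => simp only [Algorithm.run]; rw [h1]
  | succ t => simp only [Algorithm.run]; rw [h1]

theorem run_tree (T : Tree (Query M W) (Option (M → W → ℤ))) : ∀ (s : ℕ) (h : List Bool),
    act st (stateOf st h) = act st (s, T) →
    ∃ h', act st (stateOf st h') = act st (s, .ret (T.eval ans)) ∧
      ∀ t, (chain st).run ans (T.cost ans + t) h = (chain st).run ans t h' := by
  induction T with
  | ret r =>
    intro s h hact
    exact ⟨h, hact, fun t => by simp [Tree.cost]⟩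
  | ask q k ih =>
    intro s h hact
    have h1 : chain st h = .inl q := by
      simp only [chain]; rw [hact]; rfl
    have h2 : stateOf st (ans q :: h) = (s, k (ans q)) := by
      simp only [stateOf]; rw [hact]; rfl
    obtain ⟨h', ha, hrun⟩ := ih (ans q) s (ans q :: h) (by rw [h2])
    refine ⟨h', ha, fun t => ?_⟩
    have e1 : (Tree.ask q k).cost ans + t = ((k (ans q)).cost ans + t) + 1 := by
      simp only [Tree.cost]; ring
    rw [e1, Algorithm.run]
    rw [h1]
    exact hrun t

theorem run_stages : ∀ s0 : ℕ, (∀ s < s0, (st s).tree.eval ans = none) →
    ∃ h, act st (stateOf st h) = act st (s0, (st s0).tree) ∧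
      ∀ t, (chain st).run ans (∑ s ∈ Finset.range s0, (st s).tree.cost ans + t) [] =
        (chain st).run ans t h := by
  intro s0
  induction s0 with
  | zero =>
    intro _
    exact ⟨[], rfl, fun t => by simp⟩
  | succ s0 ih =>
    intro hnone
    obtain ⟨h, hact, hrun⟩ := ih (fun s hs => hnone s (by omega))
    obtain ⟨h', hact', hrun'⟩ := run_tree st ans (st s0).tree s0 h hact
    rw [hnone s0 (by omega), act_none] at hact'
    refine ⟨h', hact', fun t => ?_⟩
    rw [Finset.sum_range_succ, add_assoc, hrun, hrun']

/-- **Chaining.** If the stages before `s0` fail and stage `s0` finds `x`, then the algorithm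
outputs `x` after the sum of the numbers of questions. -/
theorem run_chain (s0 : ℕ) (hnone : ∀ s < s0, (st s).tree.eval ans = none) {x : M → W → ℤ}
    (hx : (st s0).tree.eval ans = some x) :
    (chain st).run ans (∑ s ∈ Finset.range (s0 + 1), (st s).tree.cost ans) [] = some x := by
  obtain ⟨h, hact, hrun⟩ := run_stages st ans s0 hnone
  obtain ⟨h', hact', hrun'⟩ := run_tree st ans (st s0).tree s0 h hact
  rw [hx] at hact'
  rw [Finset.sum_range_succ, hrun]
  have := hrun' 0
  rw [add_zero] at this
  rw [this]
  exact run_output st ans hact' 0

end Pool.Agent.Helper250_Alloc
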